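import Pool.Agent.TH651.RP5.S16

/-!
Twenty-two pairs do not carry a good cycle of dimension five.
-/

set_option autoImplicit false
set_option linter.unusedSectionVars false
set_option maxRecDepth 100000
set_option maxHeartbeats 0

namespace Pool.Agent.TH651.RP5

/-- filter and count, in continuation passing style -/
noncomputable def flk (b : ℕ) (L : List ℕ) : (List ℕ → ℕ → Bool) → Bool :=
  List.rec (motive := fun _ => (List ℕ → ℕ → Bool) → Bool) (fun k => k [] 0)
    (fun F _ ih k => bc (Nat.beq (F &&& b) 0)
      (ih (fun r c => st (c + 1) (fun c' => k (F :: r) c'))) (ih k)) L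

noncomputable def hem (is : List ℕ) : List ℕ → ℕ → Bool :=
  List.rec (motive := fun _ => List ℕ → ℕ → Bool) (fun _ c => Nat.ble c 48)
    (fun i _ ih L c => bc (Nat.ble c 48) true
      (st (1 <<< (2 * i)) (fun b0 => st (1 <<< (2 * i + 1)) (fun b1 =>
        flk b0 L (fun L0 c0 => bc (ih L0 c0) (flk b1 L (fun L1 c1 => ih L1 c1)) false))))) is

theorem flk_eq (b : ℕ) (L : List ℕ) : ∀ k, flk b L k =
    k (L.filter (fun F => Nat.beq (F &&& b) 0)) (L.filter (fun F => Nat.beq (F &&& b) 0)).length := by
  induction L with
  | nil => intro k; rfl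
  | cons F L ih =>
    intro k
    have e : flk b (F :: L) k = bc (Nat.beq (F &&& b) 0)
      (flk b L (fun r c => st (c + 1) (fun c' => k (F :: r) c'))) (flk b L k) := rfl
    rw [e, bc_eq]
    by_cases h : Nat.beq (F &&& b) 0 = true
    · rw [if_pos h, ih, List.filter_cons_of_pos (p := fun F => Nat.beq (F &&& b) 0) h, st_eq,
        List.length_cons]
    · rw [if_neg h, ih, List.filter_cons_of_neg (p := fun F => Nat.beq (F &&& b) 0) h]

/-- the face `F` is covered by the sign vector `s` -/
def cvb (s : ℕ → Bool) (F : ℕ) : Bool :=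
  (List.range 32).all (fun l => !(F.testBit l) || (s (l / 2) == (l % 2 == 1)))

theorem cvb_drop {s : ℕ → Bool} {l : ℕ} (hl : l < 32) (hs : s (l / 2) ≠ (l % 2 == 1)) (L : List ℕ) :
    (L.filter (cvb s)).length =
      ((L.filter (fun F => Nat.beq (F &&& (1 <<< l)) 0)).filter (cvb s)).length := by
  rw [List.filter_filter]
  congr 1
  apply List.filter_congr
  intro F _
  rw [Bool.eq_iff_iff, Bool.and_eq_true, beq_iff, and_shift_eq_zero]
  constructor
  · intro h
    refine ⟨h, ?_⟩
    rw [cvb, List.all_eq_true] at h
    have h1 := h l (List.mem_range.mpr hl)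
    rw [Bool.or_eq_true, Bool.not_eq_true', beq_iff_eq] at h1
    rcases h1 with h1 | h1
    · exact h1
    · exact absurd h1 hs
  · exact fun h => h.1

theorem hem_sound (s : ℕ → Bool) (is : List ℕ) (his : ∀ i ∈ is, i < 16) : ∀ (L : List ℕ) (c : ℕ),
    c = L.length → hem is L c = true → (L.filter (cvb s)).length ≤ 48 := by
  induction is with
  | nil =>
    intro L c hc h
    have e : hem [] L c = Nat.ble c 48 := rfl
    rw [e, Nat.ble_eq, hc] at h
    exact (List.length_filter_le _ _).trans h
  | cons i is ih =>
    intro L c hc h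
    have ih' := ih (fun j hj => his j (List.mem_cons_of_mem _ hj))
    have hi := his i List.mem_cons_self
    have e : hem (i :: is) L c = bc (Nat.ble c 48) true
      (st (1 <<< (2 * i)) (fun b0 => st (1 <<< (2 * i + 1)) (fun b1 =>
        flk b0 L (fun L0 c0 => bc (hem is L0 c0) (flk b1 L (fun L1 c1 => hem is L1 c1))
          false)))) := rfl
    rw [e, bc_eq] at h
    by_cases h1 : Nat.ble c 48 = true
    · rw [Nat.ble_eq, hc] at h1
      exact (List.length_filter_le _ _).trans h1
    · rw [if_neg h1, st_eq, st_eq, flk_eq, bc_eq] at h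
      split_ifs at h with h2
      rw [flk_eq] at h
      cases hsi : s i
      · rw [cvb_drop (s := s) (l := 2 * i + 1) (by omega) (by
          have e1 : (2 * i + 1) / 2 = i := by omega
          have e2 : (2 * i + 1) % 2 = 1 := by omega
          rw [e1, e2, hsi]; decide)]
        exact ih' _ _ rfl h
      · rw [cvb_drop (s := s) (l := 2 * i) (by omega) (by
          have e1 : (2 * i) / 2 = i := by omega
          have e2 : (2 * i) % 2 = 0 := by omega
          rw [e1, e2, hsi]; decide)]
        exact ih' _ _ rfl h2

theorem hem_ok : hem [10, 9, 5, 2, 0, 15, 6, 8, 4, 11, 12, 14, 3, 1, 7, 13] FT16 300 = true := by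
  decide +kernel

theorem ft_len : FT16.length = 300 := by decide +kernel

theorem cover_count {X : Type} (S : Finset X) (p : X → ℕ → Bool) (L : List ℕ)
    (h : ∀ F ∈ L, ∃ v ∈ S, p v F = true) : L.length ≤ ∑ v ∈ S, (L.filter (p v)).length := by
  induction L with
  | nil => simp
  | cons F L ih =>
    have ih' := ih (fun G hG => h G (List.mem_cons_of_mem _ hG))
    obtain ⟨v, hv, hvF⟩ := h F List.mem_cons_self
    have e : ∀ w ∈ S, ((F :: L).filter (p w)).length =
        (L.filter (p w)).length + if p w F = true then 1 else 0 := by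
      intro w _
      rw [List.filter_cons]
      split_ifs <;> simp
    rw [Finset.sum_congr rfl e, Finset.sum_add_distrib, List.length_cons]
    have h1 : 1 ≤ ∑ w ∈ S, if p w F = true then 1 else 0 := by
      calc 1 = if p v F = true then 1 else 0 := by rw [if_pos hvF]
        _ ≤ _ := Finset.single_le_sum (f := fun w => if p w F = true then 1 else 0)
            (fun _ _ => Nat.zero_le _) hv
    omega

section Final

variable {X : Type} [Fintype X] [DecidableEq X] {g : SG X}

theorem thm_final {A : Finset X} (hA : A.image g.a = A) (hc : A.card = 44) {y : Ch X}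
    (hy : Good g 5 A y) : False := by
  classical
  obtain ⟨P, hPc, hP, hPA⟩ := Good.exists_clique g hy
  have hc1 := sdiff_Q_card hA hPA hP
  have hA1 : (A \ (P ∪ P.image g.a)).image g.a = A \ (P ∪ P.image g.a) := A_inv g hA
  have hy4 := Good.desc g hP hy
  obtain ⟨x, hx⟩ := thm_T16 hA1 (by omega) hy4
  have hf := full_t16 hx hy4
  have hcov : ∀ F ∈ FT16, ∃ v ∈ P, cvb (fun i => decide (¬ g.Adj (x i) v)) F = true := by
    intro F hF
    obtain ⟨v, hv, -, h3⟩ := cover_step (Good.supp g hA hy) (hf F hF)
    refine ⟨v, hv, ?_⟩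
    have h4 : Cvr g x 16 v F := cov_of_adj (by norm_num) (Finset.Subset.refl _) h3
    rw [cvb, List.all_eq_true]
    intro l hl
    rw [List.mem_range] at hl
    by_cases hF2 : F.testBit l = true
    · rw [hF2, Bool.not_true, Bool.false_or, beq_iff_eq]
      have h5 := h4 l (by omega) hF2
      unfold lt at h5
      by_cases h6 : l % 2 = 0
      · rw [if_pos h6] at h5
        have h7 : (l % 2 == 1) = false := by rw [h6]; rfl
        rw [h7, decide_eq_false_iff_not, not_not]
        exact h5
      · rw [if_neg h6, anti_adj] at h5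
        have h8 : l % 2 = 1 := by omega
        have h7 : (l % 2 == 1) = true := by rw [h8]; rfl
        rw [h7, decide_eq_true_eq]
        exact fun h9 => g.excl h9 h5
    · rw [Bool.not_eq_true] at hF2
      rw [hF2]; rfl
  have h1 := cover_count P (fun v => cvb (fun i => decide (¬ g.Adj (x i) v))) FT16 hcov
  have h2 : ∀ v ∈ P, (FT16.filter (cvb (fun i => decide (¬ g.Adj (x i) v)))).length ≤ 48 := by
    intro v _
    exact hem_sound _ _ (by decide) FT16 300 ft_len.symm hem_ok
  have h3 := Finset.sum_le_sum h2
  rw [Finset.sum_const, hPc, smul_eq_mul] at h3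
  rw [ft_len] at h1
  omega

end Final

end Pool.Agent.TH651.RP5
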