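import Pool.Agent.TH651.RP5.Topo2
import Pool.Agent.TH651.RP5.Final

/-!
Real projective 5-space has no triangulation with 22 vertices.
-/

set_option autoImplicit false

namespace Pool.Agent.TH651.RP5

theorem no_triangulation_22 {n : ℕ}
    (L : Geometry.SimplicialComplex ℝ (EuclideanSpace ℝ (Fin n)))
    (hc : L.vertices.ncard = 22) (Ψ : L.space ≃ₜ Quot rel) : False := by
  classical
  have hL : L.vertices.Finite := Set.finite_of_ncard_ne_zero (by rw [hc]; norm_num)
  haveI : Fintype L.vertices := hL.fintype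
  obtain ⟨s, hs, c, hS⟩ := exists_smith L hL Ψ
  have hcard : Fintype.card L.vertices = 22 := by
    rw [← hc, ← Nat.card_eq_fintype_card]
    rfl
  have hgood : Good (SG.ofSign s hs) 5 (Finset.univ : Finset (L.vertices × Bool))
      (c 5 + act (SG.ofSign s hs).a (c 5) + bd 0) :=
    ⟨c, 0, hS, Supp.zero _ _ _, rfl⟩
  refine thm_final (g := SG.ofSign s hs) ?_ ?_ hgood
  · ext v
    rw [mem_image_iff (SG.ofSign s hs).ha]
    simp
  · rw [Finset.card_univ, Fintype.card_prod, hcard, Fintype.card_bool]

end Pool.Agent.TH651.RP5
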