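import Mathlib

/-!
A checker for unit propagation proofs, written so that the kernel can evaluate it.
-/

set_option autoImplicit false

namespace Pool.Agent.TH651.RP5

/-- strict application: evaluates its first argument -/
noncomputable def st {α : Type} (n : ℕ) (k : ℕ → α) : α :=
  Nat.rec (k 0) (fun m _ => k (Nat.succ m)) n

theorem st_eq {α : Type} (n : ℕ) (k : ℕ → α) : st n k = k n := by
  cases n <;> rfl

/-- strict conditional -/
noncomputable def bc {α : Type} (b : Bool) (x y : α) : α := Bool.rec y x b

theorem bc_true {α : Type} (x y : α) : bc true x y = x := rfl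
theorem bc_false {α : Type} (x y : α) : bc false x y = y := rfl

theorem bc_eq {α : Type} (b : Bool) (x y : α) : bc b x y = if b = true then x else y := by
  cases b <;> rfl

inductive Tr
  | lf
  | nd (l : Tr) (v : ℕ) (r : Tr)

/-- look up; the default value `3` is the mask of a tautology -/
noncomputable def Tr.get (t : Tr) : ℕ → ℕ :=
  Tr.rec (motive := fun _ => ℕ → ℕ) (fun _ => 3)
    (fun _ v _ gl gr i => Bool.rec
      (Bool.rec (st (i / 2 - 1) gr) (st (i / 2) gl) (Nat.beq (i % 2) 1)) v (Nat.beq i 0)) t

/-- process hints: digits in base 4096, alternately clause index and unit literal -/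
noncomputable def run (t : Tr) (bound : ℕ) (fuel : ℕ) : ℕ → ℕ → Bool :=
  Nat.rec (motive := fun _ => ℕ → ℕ → Bool) (fun _ _ => false)
    (fun _ ih h F =>
      st (h % 4096 - 1) (fun id => st (h / 4096) (fun h1 =>
      Bool.rec
       (st (t.get id) (fun D =>
        Bool.rec
         (st (h1 % 4096 - 1) (fun l =>
          Bool.rec false
            (st (h1 / 4096) (fun h' => st (F ||| (1 <<< (l ^^^ 1))) (fun F' => ih h' F')))
            (Nat.beq (D ||| F ||| (1 <<< l)) (F ||| (1 <<< l)))))
         (Nat.beq (D ||| F) F)
         (Nat.beq h1 0))) false (Nat.ble bound id)))) fuel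

/-- check the lemmas with indices `i, i+1, ...` given by their hints -/
noncomputable def chkL (t : Tr) (L : List ℕ) : ℕ → Bool :=
  List.rec (motive := fun _ => ℕ → Bool) (fun _ => true)
    (fun h _ ih i => Bool.rec false (st (i + 1) ih) (st (t.get i) (fun F => run t i 4000 h F))) L

/-- truth of a literal -/
def litT (ν : ℕ → Bool) (l : ℕ) : Prop := ν (l / 2) = (l % 2 == 0)

/-- truth of a clause given as a mask -/
def clT (ν : ℕ → Bool) (D : ℕ) : Prop := ∃ l, D.testBit l = true ∧ litT ν l

theorem clT_three (ν : ℕ → Bool) : clT ν 3 := by
  cases h : ν 0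
  · exact ⟨1, by decide, by simp [litT, h]⟩
  · exact ⟨0, by decide, by simp [litT, h]⟩

theorem litT_xor (ν : ℕ → Bool) (l : ℕ) (h : litT ν l) : ¬ litT ν (l ^^^ 1) := by
  unfold litT at *
  have h1 : (l ^^^ 1) / 2 = l / 2 := by
    have := Nat.xor_div_two (a := l) (b := 1)
    simpa using this
  have h2 : (l ^^^ 1) % 2 = (l + 1) % 2 := by
    have := Nat.xor_mod_two_eq (m := l) (n := 1)
    exact this
  rw [h1, h, h2]
  rcases Nat.mod_two_eq_zero_or_one l with h3 | h3
  · have : (l + 1) % 2 = 1 := by omega
    rw [h3, this]; decide
  · have : (l + 1) % 2 = 0 := by omega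
    rw [h3, this]; decide

theorem lor_eq_right {D F : ℕ} (h : D ||| F = F) (l : ℕ) (hl : D.testBit l = true) :
    F.testBit l = true := by
  rw [← h, Nat.testBit_or, hl, Bool.true_or]

theorem testBit_one_shiftLeft (l m : ℕ) : (1 <<< l).testBit m = decide (m = l) := by
  rw [Nat.one_shiftLeft, Nat.testBit_two_pow]
  by_cases h : l = m
  · simp [h]
  · have : ¬ m = l := fun e => h e.symm
    simp [h, this]

theorem run_sound (ν : ℕ → Bool) (t : Tr) (bound : ℕ) (hb : ∀ i < bound, clT ν (t.get i)) :
    ∀ (fuel h F : ℕ), (∀ l, F.testBit l = true → ¬ litT ν l) → run t bound fuel h F = true →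
      False := by
  intro fuel
  induction fuel with
  | zero => intro h F _ hr; exact Bool.false_ne_true hr
  | succ fuel ih =>
    intro h F hF hr
    have hrun : run t bound (fuel + 1) h F =
      st (h % 4096 - 1) (fun id => st (h / 4096) (fun h1 =>
      Bool.rec
       (st (t.get id) (fun D =>
        Bool.rec
         (st (h1 % 4096 - 1) (fun l =>
          Bool.rec false
            (st (h1 / 4096) (fun h' => st (F ||| (1 <<< (l ^^^ 1))) (fun F' =>
              run t bound fuel h' F')))
            (Nat.beq (D ||| F ||| (1 <<< l)) (F ||| (1 <<< l)))))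
         (Nat.beq (D ||| F) F)
         (Nat.beq h1 0))) false (Nat.ble bound id))) := rfl
    rw [hrun] at hr
    simp only [st_eq] at hr
    set id := h % 4096 - 1 with hid
    set h1 := h / 4096 with hh1
    by_cases hble : Nat.ble bound id = true
    · rw [hble] at hr; exact Bool.false_ne_true hr
    · rw [Bool.not_eq_true] at hble
      rw [hble] at hr
      simp only at hr
      have hid' : id < bound := by
        by_contra hcon
        have : Nat.ble bound id = true := Nat.ble_eq.mpr (not_lt.mp hcon)
        rw [this] at hble
        exact absurd hble (by decide)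
      obtain ⟨m, hm, hlm⟩ := hb id hid'
      by_cases hz : Nat.beq h1 0 = true
      · rw [hz] at hr
        simp only at hr
        have e : t.get id ||| F = F := Nat.eq_of_beq_eq_true hr
        exact hF m (lor_eq_right e m hm) hlm
      · rw [Bool.not_eq_true] at hz
        rw [hz] at hr
        simp only at hr
        set l := h1 % 4096 - 1 with hl
        by_cases hc : Nat.beq (t.get id ||| F ||| (1 <<< l)) (F ||| (1 <<< l)) = true
        · rw [hc] at hr
          simp only at hr
          have e : t.get id ||| F ||| (1 <<< l) = F ||| (1 <<< l) := Nat.eq_of_beq_eq_true hc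
          refine ih _ _ ?_ hr
          intro k hk
          rw [Nat.testBit_or] at hk
          rcases Bool.or_eq_true_iff.mp hk with hk | hk
          · exact hF k hk
          · rw [testBit_one_shiftLeft] at hk
            have hkl : k = l ^^^ 1 := by simpa using hk
            rw [hkl]
            apply litT_xor
            have h5 : (t.get id ||| F ||| (1 <<< l)).testBit m = true := by
              rw [Nat.testBit_or, Nat.testBit_or, hm]; simp
            rw [e, Nat.testBit_or] at h5
            rcases Bool.or_eq_true_iff.mp h5 with h6 | h6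
            · exact absurd hlm (hF m h6)
            · rw [testBit_one_shiftLeft] at h6
              have : m = l := by simpa using h6
              rwa [← this]
        · rw [Bool.not_eq_true] at hc
          rw [hc] at hr
          exact Bool.false_ne_true hr

theorem chkL_sound (ν : ℕ → Bool) (t : Tr) (L : List ℕ) : ∀ i, (∀ j < i, clT ν (t.get j)) →
    chkL t L i = true → ∀ j < i + L.length, clT ν (t.get j) := by
  induction L with
  | nil => intro i hi _ j hj; exact hi j (by simpa using hj)
  | cons h L ih =>
    intro i hi hc
    have hrun : chkL t (h :: L) i = Bool.rec false (st (i + 1) (chkL t L))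
        (st (t.get i) (fun F => run t i 4000 h F)) := rfl
    rw [hrun] at hc
    simp only [st_eq] at hc
    by_cases hr : run t i 4000 h (t.get i) = true
    · rw [hr] at hc
      simp only at hc
      have hi' : clT ν (t.get i) := by
        by_contra hcon
        refine run_sound ν t i hi 4000 h (t.get i) ?_ hr
        intro l hl hlt
        exact hcon ⟨l, hl, hlt⟩
      intro j hj
      refine ih (i + 1) ?_ hc j (by simp only [List.length_cons] at hj; omega)
      intro k hk
      rcases Nat.lt_succ_iff_lt_or_eq.mp hk with h1 | h1
      · exact hi k h1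
      · rw [h1]; exact hi'
    · rw [Bool.not_eq_true] at hr
      rw [hr] at hc
      exact absurd hc Bool.false_ne_true

theorem clT_zero (ν : ℕ → Bool) : ¬ clT ν 0 := by
  rintro ⟨l, hl, -⟩
  simp at hl

end Pool.Agent.TH651.RP5
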