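import Pool.Agent.TH651.RP5.P6
import Pool.Agent.TH651.RP5.DA0
import Pool.Agent.TH651.RP5.DA1
import Pool.Agent.TH651.RP5.DA2
import Pool.Agent.TH651.RP5.DA3

/-!
Eleven pairs: the case of a further four-clique.
-/

set_option autoImplicit false
set_option linter.unusedSectionVars false
set_option maxRecDepth 100000
set_option maxHeartbeats 0

namespace Pool.Agent.TH651.RP5

section CaseA

variable {X : Type} [Fintype X] [DecidableEq X] {g : SG X} {x : ℕ → X}

theorem caseA_top {e : Env} {kn sg C : List ℕ} (hcert : ∀ val, Mod e val → False)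
    (hlen : e.nk.length = 4) (he1 : e.nk.getD 1 0 = 3) (he2 : e.nk.getD 2 0 = 7)
    (he3 : e.nk.getD 3 0 = e.n) (hen : e.n = 11) (hzero : ∀ k < 1, e.nk.getD k 0 = 0)
    (hFb : e.full = HEX) (hC : C.length = 7) (hCb : eqC 3 C H3 = true) (hcl : clOK C 3 7 = true)
    (hinc : incN 7 NH = true) (hk : knOK 7 4 C NH kn sg = true) (htab : tabOK e kn sg = true)
    (hinv : e.nk.getD e.inv 0 = 0) (hfo : e.forb = [(5, 22)]) (hext : e.ext = [])
    {A P : Finset X} (hA : A.image g.a = A) (hP : Clique g P) (hPc : P.card = 4) (hPA : P ⊆ A)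
    (hFr : Fr g x 7 C (A \ (P ∪ P.image g.a))) {y : Ch X} (hy : Good g 3 A y)
    (hno : ∀ F : Finset X, F ⊆ A → F.card = 5 → ¬ Clique g F) : False := by
  obtain ⟨x', yy, -, -, -, hsem⟩ := top_step (e := e) (kn := kn) (sg := sg) (C := C) (Cb := H3)
    (Fb := HEX) (Ns := NH) (n1 := 3) (n2 := 7) (m := 4) (K := 1) hlen he1 he2 he3 hen (by omega)
    hzero (by norm_num) (fun x A h y hy => full_hex h hy) hFb (by decide +kernel) hC hCb hcl
    (by decide +kernel) hinc hk htab hinv hA hP hPc hPA hFr hy (by
      intro q b hqb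
      rw [hfo, List.mem_singleton, Prod.mk.injEq] at hqb
      obtain ⟨rfl, rfl⟩ := hqb
      exact ⟨by omega, hno⟩)
  refine hcert _ (hsem.mod ?_)
  rw [hext]
  intro c hc
  exact absurd hc (by simp)

theorem caseA {A P Q : Finset X} (hA : A.image g.a = A) (hc : A.card = 22) {y : Ch X}
    (hy : Good g 3 A y) (hno : ∀ F : Finset X, F ⊆ A → F.card = 5 → ¬ Clique g F)
    (hP : Clique g P) (hPc : P.card = 4) (hPA : P ⊆ A) (hQ : Clique g Q) (hQc : Q.card = 4)
    (hQA : Q ⊆ A \ (P ∪ P.image g.a)) : False := by
  have hc1 := sdiff_Q_card hA hPA hP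
  have hA1 : (A \ (P ∪ P.image g.a)).image g.a = A \ (P ∪ P.image g.a) := A_inv g hA
  have hy2 := Good.desc g hP hy
  set A7 := A \ (P ∪ P.image g.a) with hA7
  have hc2 := sdiff_Q_card hA1 hQA hQ
  have hA2 : (A7 \ (Q ∪ Q.image g.a)).image g.a = A7 \ (Q ∪ Q.image g.a) := A_inv g hA1
  have hy1 := Good.desc g hQ hy2
  obtain ⟨x, hx⟩ := hexagon hA2 (by omega) hy1
  have hf := full_hex hx hy1
  have hcov : ∀ F ∈ E2.Fs, ∃ v ∈ Q, Cvr g x E2.n v F := by
    intro F hF
    obtain ⟨v, hv, -, h3⟩ := cover_step (Good.supp g hA1 hy2) (hf F hF)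
    exact ⟨v, hv, cov_of_adj (by decide +kernel) (Finset.Subset.refl _) h3⟩
  obtain ⟨k, hk, x', hx'⟩ := enum_step E2_ok hx hQ hQc Finset.sdiff_disjoint hcov
    (by decide +kernel)
  rw [sdiff_union_Q hA1 hQA] at hx'
  have hk4 : k < 4 := by
    have : E2.reps.length = 4 := by decide +kernel
    omega
  have hcs : k = 0 ∨ k = 1 ∨ k = 2 ∨ k = 3 := by omega
  rcases hcs with rfl | rfl | rfl | rfl
  · exact caseA_top (e := DA0.env) (kn := DA0.kn) (sg := DA0.sg) (fun _ h => DA0.cert h)
      (by decide +kernel) (by decide +kernel) (by decide +kernel) (by decide +kernel)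
      (by decide +kernel) (by decide +kernel) (by decide +kernel) (by decide +kernel)
      (by decide +kernel) (by decide +kernel) (by decide +kernel) (by decide +kernel)
      DA0.tab_ok (by decide +kernel) (by decide +kernel) (by decide +kernel)
      hA hP hPc hPA hx' hy hno
  · exact caseA_top (e := DA1.env) (kn := DA1.kn) (sg := DA1.sg) (fun _ h => DA1.cert h)
      (by decide +kernel) (by decide +kernel) (by decide +kernel) (by decide +kernel)
      (by decide +kernel) (by decide +kernel) (by decide +kernel) (by decide +kernel)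
      (by decide +kernel) (by decide +kernel) (by decide +kernel) (by decide +kernel)
      DA1.tab_ok (by decide +kernel) (by decide +kernel) (by decide +kernel)
      hA hP hPc hPA hx' hy hno
  · exact caseA_top (e := DA2.env) (kn := DA2.kn) (sg := DA2.sg) (fun _ h => DA2.cert h)
      (by decide +kernel) (by decide +kernel) (by decide +kernel) (by decide +kernel)
      (by decide +kernel) (by decide +kernel) (by decide +kernel) (by decide +kernel)
      (by decide +kernel) (by decide +kernel) (by decide +kernel) (by decide +kernel)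
      DA2.tab_ok (by decide +kernel) (by decide +kernel) (by decide +kernel)
      hA hP hPc hPA hx' hy hno
  · exact caseA_top (e := DA3.env) (kn := DA3.kn) (sg := DA3.sg) (fun _ h => DA3.cert h)
      (by decide +kernel) (by decide +kernel) (by decide +kernel) (by decide +kernel)
      (by decide +kernel) (by decide +kernel) (by decide +kernel) (by decide +kernel)
      (by decide +kernel) (by decide +kernel) (by decide +kernel) (by decide +kernel)
      DA3.tab_ok (by decide +kernel) (by decide +kernel) (by decide +kernel)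
      hA hP hPc hPA hx' hy hno

end CaseA

end Pool.Agent.TH651.RP5
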