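import Pool.Agent.TH651.RP5.P6
import Pool.Agent.TH651.RP5.DB

/-!
Eleven pairs: the case of no further four-clique.
-/

set_option autoImplicit false
set_option linter.unusedSectionVars false
set_option maxRecDepth 100000
set_option maxHeartbeats 0

namespace Pool.Agent.TH651.RP5

section CaseB

variable {X : Type} [Fintype X] [DecidableEq X] {g : SG X}

theorem litT_A {x : ℕ → X} (y : ℕ → Ch X) {i j : ℕ} (hj : j < 16) :
    litT (vl g x y) (2 * codeA i j) ↔ ¬ g.Adj (x i) (x j) := by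
  have e : 2 * codeA i j = 2 * codeA i j + 0 := rfl
  rw [e, litT_code _ _ _ (by norm_num), ← vl_A (y := y) hj]
  simp

theorem litT_A' {x : ℕ → X} (y : ℕ → Ch X) {i j : ℕ} (hj : j < 16) :
    litT (vl g x y) (2 * codeA i j + 1) ↔ g.Adj (x i) (x j) := by
  rw [litT_code _ _ _ (by norm_num), ← not_iff_not, ← vl_A (y := y) hj]
  simp

theorem caseB_end {x : ℕ → X} {y : Ch X} (hy : Good g 3 (img g x 22) y) (hinj : Inj g x 11)
    (hno5 : ∀ F : Finset X, F ⊆ img g x 22 → F.card = 5 → ¬ Clique g F)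
    (hno4 : ∀ F : Finset X, F ⊆ img g x 14 → F.card = 4 → ¬ Clique g F)
    (hc1 : Clique g (blk x 2 4)) (hc2 : Clique g (blk x 4 7)) (hc3 : Clique g (blk x 7 11))
    {y2 y1 y0 : Ch X} (hy2 : y2 = D g (blk x 7 11) y) (hy1 : y1 = D g (blk x 4 7) y2)
    (hy0 : y0 = D g (blk x 2 4) y1) (hinv : ∀ F, y2 F = 1 → y2 (F.image g.a) = 1)
    (h0 : y0 {x 0} = 1) (h1 : y0 {x 1} ≠ 1)
    (h2 : (y0 {g.a (x 0)} = 1 ∧ y0 {g.a (x 1)} ≠ 1) ∨ (y0 {g.a (x 0)} ≠ 1 ∧ y0 {g.a (x 1)} = 1))
    (h3 : y1 {x 2, x 3} = 1) (h4 : y2 {x 4, x 5, x 6} = 1) (hkn : Kn g x 11 DB.kn DB.sg)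
    (h5 : ¬ g.Adj (x 0) (x 5) → ¬ g.Adj (x 0) (x 6))
    (h6 : ¬ g.Adj (x 0) (x 9) → ¬ g.Adj (x 0) (x 10)) : False := by
  have n0 : DB.env.nk.getD 0 0 = 2 := by decide +kernel
  have n1 : DB.env.nk.getD 1 0 = 4 := by decide +kernel
  have n2 : DB.env.nk.getD 2 0 = 7 := by decide +kernel
  have n3 : DB.env.nk.getD 3 0 = 11 := by decide +kernel
  have hTH : TH g x DB.env 0 3 y :=
    { hlen := by decide +kernel
      hk := by norm_num
      hn := by decide +kernel
      htop := by decide +kernel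
      inj := hinj
      mono := by decide +kernel
      zero := fun k hk => absurd hk (Nat.not_lt_zero _)
      cl := by
        intro k _ hk
        have hcs : k = 0 ∨ k = 1 ∨ k = 2 := by omega
        rcases hcs with rfl | rfl | rfl
        · rw [n0, n1]; exact hc1
        · rw [n1, n2]; exact hc2
        · rw [n2, n3]; exact hc3
      top := hy }
  have t3 : tw g x DB.env 0 3 y 3 = y := twr_top (by norm_num)
  have t2 : tw g x DB.env 0 3 y 2 = y2 := by
    have := twr_step (g := g) (x := x) (nk := fun k => DB.env.nk.getD k 0) (k0 := 0) (K := 3)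
      (k := 2) (yt := y) (by norm_num) (by norm_num)
    unfold tw at t3 ⊢
    rw [this, t3, hy2]
    simp only [n2, n3]
  have t1 : tw g x DB.env 0 3 y 1 = y1 := by
    have := twr_step (g := g) (x := x) (nk := fun k => DB.env.nk.getD k 0) (k0 := 0) (K := 3)
      (k := 1) (yt := y) (by norm_num) (by norm_num)
    unfold tw at t2 ⊢
    rw [this, t2, hy1]
    simp only [n1, n2]
  have t0 : tw g x DB.env 0 3 y 0 = y0 := by
    have := twr_step (g := g) (x := x) (nk := fun k => DB.env.nk.getD k 0) (k0 := 0) (K := 3)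
      (k := 0) (yt := y) (by norm_num) (by norm_num)
    unfold tw at t1 ⊢
    rw [this, t1, hy0]
    simp only [n0, n1]
  have hs := hTH.sem (kn := DB.kn) (sg := DB.sg) hkn DB.tab_ok
    (by
      intro k _ _ m hm
      have : DB.env.full = [] := by decide +kernel
      rw [this] at hm
      exact absurd hm (by simp))
    (by
      intro F _ _ hF
      have : DB.env.inv = 2 := by decide +kernel
      rw [this, t2] at hF ⊢
      exact hinv F hF)
    (by
      intro q b hqb
      have : DB.env.forb = [(4, 14), (5, 22)] := by decide +kernel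
      rw [this] at hqb
      simp only [List.mem_cons, Prod.mk.injEq, List.not_mem_nil, or_false] at hqb
      rcases hqb with ⟨rfl, rfl⟩ | ⟨rfl, rfl⟩
      · exact ⟨by decide +kernel, hno4⟩
      · exact ⟨by decide +kernel, hno5⟩)
  refine DB.cert (hs.mod ?_)
  have hext : DB.env.ext = [[4 * 1 + 2], [4 * 4 + 3], [4 * 2 + 2, 4 * 8 + 2],
      [4 * 2 + 3, 4 * 8 + 3], [4 * 80 + 2], [4 * 5376 + 2], [2 * codeA 0 5 + 1, 2 * codeA 0 6],
      [2 * codeA 0 9 + 1, 2 * codeA 0 10]] := by decide +kernel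
  rw [hext]
  have c1 : (FS 1).card - 1 = 0 := by decide +kernel
  have c4 : (FS 4).card - 1 = 0 := by decide +kernel
  have c2 : (FS 2).card - 1 = 0 := by decide +kernel
  have c8 : (FS 8).card - 1 = 0 := by decide +kernel
  have c80 : (FS 80).card - 1 = 1 := by decide +kernel
  have c5376 : (FS 5376).card - 1 = 2 := by decide +kernel
  have f4 : fs g x 4 = {x 1} := by
    have : FS 4 = {2} := by decide +kernel
    rw [fs, this, Finset.image_singleton]
    congr 1
  have f8 : fs g x 8 = {g.a (x 1)} := by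
    have : FS 8 = {3} := by decide +kernel
    rw [fs, this, Finset.image_singleton]
    congr 1
  have f80 : fs g x 80 = {x 2, x 3} := by
    have : FS 80 = {4, 6} := by decide +kernel
    rw [fs, this, Finset.image_insert, Finset.image_singleton]
    congr 1
  have f5376 : fs g x 5376 = {x 4, x 5, x 6} := by
    have : FS 5376 = {8, 10, 12} := by decide +kernel
    rw [fs, this, Finset.image_insert, Finset.image_insert, Finset.image_singleton]
    congr 1
  intro c hc
  simp only [List.mem_cons, List.not_mem_nil, or_false] at hc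
  rcases hc with rfl | rfl | rfl | rfl | rfl | rfl | rfl | rfl
  · refine ⟨4 * 1 + 2, List.mem_singleton_self _, (litT_Y _ 1).mpr ?_⟩
    rw [c1, t0, fs_one]; exact h0
  · refine ⟨4 * 4 + 3, List.mem_singleton_self _, (litT_Y' _ 4).mpr ?_⟩
    rw [c4, t0, f4]; exact h1
  · rcases h2 with h2 | h2
    · refine ⟨4 * 2 + 2, List.mem_cons_self, (litT_Y _ 2).mpr ?_⟩
      rw [c2, t0, fs_two]; exact h2.1
    · refine ⟨4 * 8 + 2, by simp, (litT_Y _ 8).mpr ?_⟩
      rw [c8, t0, f8]; exact h2.2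
  · rcases h2 with h2 | h2
    · refine ⟨4 * 8 + 3, by simp, (litT_Y' _ 8).mpr ?_⟩
      rw [c8, t0, f8]; exact h2.2
    · refine ⟨4 * 2 + 3, List.mem_cons_self, (litT_Y' _ 2).mpr ?_⟩
      rw [c2, t0, fs_two]; exact h2.1
  · refine ⟨4 * 80 + 2, List.mem_singleton_self _, (litT_Y _ 80).mpr ?_⟩
    rw [c80, t1, f80]; exact h3
  · refine ⟨4 * 5376 + 2, List.mem_singleton_self _, (litT_Y _ 5376).mpr ?_⟩
    rw [c5376, t2, f5376]; exact h4
  · by_cases h : g.Adj (x 0) (x 5)
    · exact ⟨_, List.mem_cons_self, (litT_A' _ (by norm_num)).mpr h⟩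
    · exact ⟨2 * codeA 0 6, by simp, (litT_A _ (by norm_num)).mpr (h5 h)⟩
  · by_cases h : g.Adj (x 0) (x 9)
    · exact ⟨_, List.mem_cons_self, (litT_A' _ (by norm_num)).mpr h⟩
    · exact ⟨2 * codeA 0 10, by simp, (litT_A _ (by norm_num)).mpr (h6 h)⟩

theorem four {A : Finset X} (hA : A.image g.a = A) (hc : A.card = 4) {y : Ch X}
    (hy : Good g 0 A y) : ∃ u v : X, g.Adj u v ∧ u ≠ v ∧ ({u, v} : Finset X) ⊆ A ∧
      A = {u, v} ∪ ({u, v} : Finset X).image g.a ∧ y {u} = 1 ∧ y {v} ≠ 1 ∧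
      ((y {g.a u} = 1 ∧ y {g.a v} ≠ 1) ∨ (y {g.a u} ≠ 1 ∧ y {g.a v} = 1)) := by
  obtain ⟨u, hu⟩ : A.Nonempty := by rw [← Finset.card_pos]; omega
  set A1 := A \ ({u} ∪ ({u} : Finset X).image g.a) with hA1
  have hA1i : A1.image g.a = A1 := A_inv g hA
  have hc1 := sdiff_Q_card hA (Finset.singleton_subset_iff.mpr hu) (clique_single (g := g) u)
  rw [← hA1, Finset.card_singleton] at hc1
  have hu1 : u ∉ A1 := by simp [hA1]
  obtain ⟨v, hv, huv⟩ := pick hA1i (by rw [← Finset.card_pos]; omega) hu1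
  have hvA : v ∈ A := (Finset.mem_sdiff.mp hv).1
  have hne : u ≠ v := adj_ne huv
  have hP : Clique g {u, v} := clique_pair huv
  have hsub : ({u, v} : Finset X) ⊆ A := by
    intro z hz
    simp only [Finset.mem_insert, Finset.mem_singleton] at hz
    rcases hz with rfl | rfl <;> assumption
  have hAe : A = {u, v} ∪ ({u, v} : Finset X).image g.a := by
    refine (Finset.eq_of_subset_of_card_le (Q_sub hA hsub) ?_).symm
    rw [Q_card hP, Finset.card_pair hne]; omega
  have hy' := hy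
  rw [hAe] at hy'
  have h1 := Good.last g hP hy'
  have h2 := Good.last g hP.image (by rw [image_image g.ha, Finset.union_comm]; exact hy')
  rw [Finset.sum_pair hne] at h1
  rw [Finset.image_insert, Finset.image_singleton,
    Finset.sum_pair (fun e => hne (g.ha.injective e))] at h2
  have key : ∀ a b : ZMod 2, a + b = 1 → (a = 1 ∧ b ≠ 1) ∨ (a ≠ 1 ∧ b = 1) := by decide
  rcases key _ _ h1 with h3 | h3
  · exact ⟨u, v, huv, hne, hsub, hAe, h3.1, h3.2, key _ _ h2⟩
  · refine ⟨v, u, g.symm huv, hne.symm, ?_, ?_, h3.2, h3.1, ?_⟩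
    · rw [Finset.pair_comm]; exact hsub
    · rw [Finset.pair_comm]; exact hAe
    · rcases key _ _ h2 with h4 | h4
      · exact Or.inr ⟨h4.2, h4.1⟩
      · exact Or.inl ⟨h4.2, h4.1⟩

theorem good1_ne {A : Finset X} (hA : A.image g.a = A) (hc : A.card = 8) {y : Ch X}
    (hy : Good g 1 A y) : ∃ F, y F = 1 := by
  obtain ⟨P, hPc, hP, hPA⟩ := Good.exists_clique g hy
  have hc1 := sdiff_Q_card hA hPA hP
  have hA1 : (A \ (P ∪ P.image g.a)).image g.a = A \ (P ∪ P.image g.a) := A_inv g hA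
  have hy0 := Good.desc g hP hy
  obtain ⟨u, v, -, -, -, -, h1, -⟩ := four hA1 (by omega) hy0
  obtain ⟨w, -, h2, -⟩ := cover_step (Good.supp g hA hy) h1
  exact ⟨_, h2⟩

theorem sort_pair (s : X → Prop) {P : Finset X} (hP : P.card = 2) :
    ∃ c d : X, c ≠ d ∧ P = {c, d} ∧ (s c → s d) := by
  obtain ⟨a, b, hab, rfl⟩ := Finset.card_eq_two.mp hP
  by_cases h : s a → s b
  · exact ⟨a, b, hab, rfl, h⟩
  · rw [Classical.not_imp] at h
    exact ⟨b, a, hab.symm, Finset.pair_comm a b, fun _ => h.1⟩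

end CaseB

end Pool.Agent.TH651.RP5
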