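import Pool.Agent.TH651.RP5.CaseA
import Pool.Agent.TH651.RP5.CaseB

/-!
Eleven pairs: there is always a five-clique.
-/

set_option autoImplicit false
set_option linter.unusedSectionVars false
set_option maxRecDepth 100000
set_option maxHeartbeats 0

namespace Pool.Agent.TH651.RP5

section CaseB2

variable {X : Type} [Fintype X] [DecidableEq X] {g : SG X}

theorem blk_two (x : ℕ → X) : blk x 2 4 = {x 2, x 3} := by
  have : Finset.Ico 2 4 = {2, 3} := by decide +kernel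
  rw [blk, this, Finset.image_insert, Finset.image_singleton]

theorem blk_four (x : ℕ → X) : blk x 4 7 = {x 4, x 5, x 6} := by
  have : Finset.Ico 4 7 = {4, 5, 6} := by decide +kernel
  rw [blk, this, Finset.image_insert, Finset.image_insert, Finset.image_singleton]

theorem blk_seven (x : ℕ → X) : blk x 7 11 = {x 7, x 8, x 9, x 10} := by
  have : Finset.Ico 7 11 = {7, 8, 9, 10} := by decide +kernel
  rw [blk, this, Finset.image_insert, Finset.image_insert, Finset.image_insert,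
    Finset.image_singleton]

/-- the pairs of indices with known signs -/
theorem kn_of {x : ℕ → X} (h01 : g.Adj (x 0) (x 1)) (h02 : g.Adj (x 0) (x 2))
    (h23 : g.Adj (x 2) (x 3)) (h24 : g.Adj (x 2) (x 4)) (h34 : g.Adj (x 3) (x 4))
    (hc2 : Clique g {x 4, x 5, x 6}) (hc3 : Clique g {x 7, x 8, x 9, x 10})
    (hinj : Inj g x 11) (h7 : ∀ u ∈ ({x 4, x 5, x 6} : Finset X), g.Adj u (x 7))
    (h8 : ∀ u ∈ ({x 4, x 5, x 6} : Finset X), ¬ g.Adj u (x 8)) : Kn g x 11 DB.kn DB.sg := by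
  have hne : ∀ i j, i < 11 → j < 11 → i ≠ j → x i ≠ x j :=
    fun i j hi hj hij => (hinj i hi j hj hij).1
  have a45 : g.Adj (x 4) (x 5) := hc2 _ (by simp) _ (by simp) (hne 4 5 (by omega) (by omega) (by omega))
  have a46 : g.Adj (x 4) (x 6) := hc2 _ (by simp) _ (by simp) (hne 4 6 (by omega) (by omega) (by omega))
  have a56 : g.Adj (x 5) (x 6) := hc2 _ (by simp) _ (by simp) (hne 5 6 (by omega) (by omega) (by omega))
  have a78 : g.Adj (x 7) (x 8) := hc3 _ (by simp) _ (by simp) (hne 7 8 (by omega) (by omega) (by omega))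
  have a79 : g.Adj (x 7) (x 9) := hc3 _ (by simp) _ (by simp) (hne 7 9 (by omega) (by omega) (by omega))
  have a710 : g.Adj (x 7) (x 10) := hc3 _ (by simp) _ (by simp) (hne 7 10 (by omega) (by omega) (by omega))
  have a89 : g.Adj (x 8) (x 9) := hc3 _ (by simp) _ (by simp) (hne 8 9 (by omega) (by omega) (by omega))
  have a810 : g.Adj (x 8) (x 10) := hc3 _ (by simp) _ (by simp) (hne 8 10 (by omega) (by omega) (by omega))
  have a910 : g.Adj (x 9) (x 10) := hc3 _ (by simp) _ (by simp) (hne 9 10 (by omega) (by omega) (by omega))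
  have a47 : g.Adj (x 4) (x 7) := h7 _ (by simp)
  have a57 : g.Adj (x 5) (x 7) := h7 _ (by simp)
  have a67 : g.Adj (x 6) (x 7) := h7 _ (by simp)
  have a48 : ¬ g.Adj (x 4) (x 8) := h8 _ (by simp)
  have a58 : ¬ g.Adj (x 5) (x 8) := h8 _ (by simp)
  have a68 : ¬ g.Adj (x 6) (x 8) := h8 _ (by simp)
  intro i j hij hj hb
  have e1 : ∀ i j, g.Adj (x i) (x j) → (DB.sg.getD j 0).testBit i = false →
      (¬ g.Adj (x i) (x j) ↔ (DB.sg.getD j 0).testBit i = true) := by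
    intro i j h1 h2
    rw [h2]
    simp [h1]
  have e2 : ∀ i j, ¬ g.Adj (x i) (x j) → (DB.sg.getD j 0).testBit i = true →
      (¬ g.Adj (x i) (x j) ↔ (DB.sg.getD j 0).testBit i = true) := by
    intro i j h1 h2
    rw [h2]
    simp [h1]
  have hk : (List.range 11).all (fun j => (List.range j).all (fun i =>
      !((DB.kn.getD j 0).testBit i) ||
      ([(0, 1), (0, 2), (2, 3), (2, 4), (3, 4), (4, 5), (4, 6), (5, 6), (4, 7), (5, 7),
        (6, 7), (4, 8), (5, 8), (6, 8), (7, 8), (7, 9), (8, 9), (7, 10), (8, 10),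
        (9, 10)] : List (ℕ × ℕ)).any (fun p => Nat.beq p.1 i && Nat.beq p.2 j))) = true := by
    decide +kernel
  rw [List.all_eq_true] at hk
  have hk1 := hk j (List.mem_range.mpr hj)
  rw [List.all_eq_true] at hk1
  have hk2 := hk1 i (List.mem_range.mpr hij)
  rw [hb, Bool.not_true, Bool.false_or, List.any_eq_true] at hk2
  obtain ⟨⟨p1, p2⟩, hm, hm2⟩ := hk2
  rw [Bool.and_eq_true, beq_iff, beq_iff] at hm2
  obtain ⟨rfl, rfl⟩ := hm2
  simp only [List.mem_cons, Prod.mk.injEq, List.not_mem_nil, or_false] at hm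
  rcases hm with ⟨rfl, rfl⟩ | ⟨rfl, rfl⟩ | ⟨rfl, rfl⟩ | ⟨rfl, rfl⟩ | ⟨rfl, rfl⟩ | ⟨rfl, rfl⟩ |
    ⟨rfl, rfl⟩ | ⟨rfl, rfl⟩ | ⟨rfl, rfl⟩ | ⟨rfl, rfl⟩ | ⟨rfl, rfl⟩ | ⟨rfl, rfl⟩ | ⟨rfl, rfl⟩ |
    ⟨rfl, rfl⟩ | ⟨rfl, rfl⟩ | ⟨rfl, rfl⟩ | ⟨rfl, rfl⟩ | ⟨rfl, rfl⟩ | ⟨rfl, rfl⟩ | ⟨rfl, rfl⟩
  · exact e1 _ _ h01 (by decide +kernel)
  · exact e1 _ _ h02 (by decide +kernel)
  · exact e1 _ _ h23 (by decide +kernel)
  · exact e1 _ _ h24 (by decide +kernel)
  · exact e1 _ _ h34 (by decide +kernel)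
  · exact e1 _ _ a45 (by decide +kernel)
  · exact e1 _ _ a46 (by decide +kernel)
  · exact e1 _ _ a56 (by decide +kernel)
  · exact e1 _ _ a47 (by decide +kernel)
  · exact e1 _ _ a57 (by decide +kernel)
  · exact e1 _ _ a67 (by decide +kernel)
  · exact e2 _ _ a48 (by decide +kernel)
  · exact e2 _ _ a58 (by decide +kernel)
  · exact e2 _ _ a68 (by decide +kernel)
  · exact e1 _ _ a78 (by decide +kernel)
  · exact e1 _ _ a79 (by decide +kernel)
  · exact e1 _ _ a89 (by decide +kernel)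
  · exact e1 _ _ a710 (by decide +kernel)
  · exact e1 _ _ a810 (by decide +kernel)
  · exact e1 _ _ a910 (by decide +kernel)

/-- the enumeration -/
def xB (x0 x1 x2 x3 x4 x5 x6 x7 x8 x9 x10 : X) : ℕ → X :=
  ex (ex (ex (ex (fun _ => x0) 0 [x0, x1]) 2 [x2, x3]) 4 [x4, x5, x6]) 7 [x7, x8, x9, x10]

theorem caseB {A P : Finset X} (hA : A.image g.a = A) (hc : A.card = 22) {y : Ch X}
    (hy : Good g 3 A y) (hno5 : ∀ F : Finset X, F ⊆ A → F.card = 5 → ¬ Clique g F)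
    (hP : Clique g P) (hPc : P.card = 4) (hPA : P ⊆ A)
    (hno4 : ∀ F : Finset X, F ⊆ A \ (P ∪ P.image g.a) → F.card = 4 → ¬ Clique g F) : False := by
  have hc1 := sdiff_Q_card hA hPA hP
  set A7 := A \ (P ∪ P.image g.a) with hA7
  have hA7i : A7.image g.a = A7 := A_inv g hA
  have hy2 := Good.desc g hP hy
  obtain ⟨htop, hne⟩ := Good.top g hy2 (fun F h1 h2 h3 => hno4 F h3 h1 h2)
  obtain ⟨T, hT⟩ : ∃ T, D g P y T ≠ 0 := by
    by_contra hcon
    push Not at hcon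
    exact hne (funext hcon)
  obtain ⟨hTc, hTcl, hTA⟩ := Good.supp g hA7i hy2 T hT
  have hT1 : D g P y T = 1 := z2_ne_zero.mp hT
  have hc2 := sdiff_Q_card hA7i hTA hTcl
  set A4 := A7 \ (T ∪ T.image g.a) with hA4
  have hA4i : A4.image g.a = A4 := A_inv g hA7i
  have hy1 := Good.desc g hTcl hy2
  obtain ⟨F, hF⟩ := good1_ne hA4i (by omega) hy1
  obtain ⟨hFc, hFcl, hFA⟩ := Good.supp g hA4i hy1 F (by rw [hF]; exact one_ne_zero)
  have hc3 := sdiff_Q_card hA4i hFA hFcl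
  set A2 := A4 \ (F ∪ F.image g.a) with hA2
  have hA2i : A2.image g.a = A2 := A_inv g hA4i
  have hy0 := Good.desc g hFcl hy1
  obtain ⟨x0, x1, h01, hne01, hsub01, hA2e, k0, k1, k2⟩ := four hA2i (by omega) hy0
  -- x2, x3
  obtain ⟨x2, hx2F, -, hx2⟩ := cover_step (Good.supp g hA4i hy1) k0
  have h02 : g.Adj x0 x2 := hx2 x0 (Finset.mem_singleton_self _)
  obtain ⟨x3, hx3⟩ := Finset.card_eq_one.mp
    (show (F.erase x2).card = 1 by rw [Finset.card_erase_of_mem hx2F]; omega)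
  have hFe : F = {x2, x3} := by rw [← Finset.insert_erase hx2F, hx3]
  have hne23 : x2 ≠ x3 := by
    intro e
    have : x3 ∈ F.erase x2 := by rw [hx3]; exact Finset.mem_singleton_self _
    exact Finset.notMem_erase x2 F (by rw [← e] at this; exact this)
  -- x4, x5, x6
  obtain ⟨x4, hx4T, -, hx4⟩ := cover_step (Good.supp g hA7i hy2) hF
  obtain ⟨x5, x6, hne56, hT56, hs56⟩ := sort_pair (fun z => ¬ g.Adj x0 z)
    (show (T.erase x4).card = 2 by rw [Finset.card_erase_of_mem hx4T]; omega)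
  have hTe : T = {x4, x5, x6} := by rw [← Finset.insert_erase hx4T, hT56]
  have hn4 : x4 ∉ ({x5, x6} : Finset X) := by rw [← hT56]; exact Finset.notMem_erase x4 T
  -- x7, x8
  obtain ⟨x7, hx7P, -, hx7⟩ := cover_step (Good.supp g hA hy) hT1
  have hT1' : D g P y (T.image g.a) = 1 := by
    have h := congrFun htop T
    rw [hT1] at h
    exact h
  obtain ⟨x8, hx8P, -, hx8⟩ := cover_step (Good.supp g hA hy) hT1'
  have hx8' : ∀ u ∈ T, ¬ g.Adj u x8 := by
    intro u hu h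
    have h1 := hx8 (g.a u) (Finset.mem_image_of_mem _ hu)
    rw [anti_adj] at h1
    exact g.excl h h1
  have hne78 : x7 ≠ x8 := by
    intro e
    exact hx8' x4 hx4T (e ▸ hx7 x4 hx4T)
  have hx8P' : x8 ∈ P.erase x7 := Finset.mem_erase.mpr ⟨hne78.symm, hx8P⟩
  obtain ⟨x9, x10, hne910, hP910, hs910⟩ := sort_pair (fun z => ¬ g.Adj x0 z)
    (show ((P.erase x7).erase x8).card = 2 by
      rw [Finset.card_erase_of_mem hx8P', Finset.card_erase_of_mem hx7P]; omega)
  have hPe : P = {x7, x8, x9, x10} := by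
    rw [← Finset.insert_erase hx7P, ← Finset.insert_erase hx8P', hP910]
  have hn8 : x8 ∉ ({x9, x10} : Finset X) := by
    rw [← hP910]; exact Finset.notMem_erase x8 _
  have hn7 : x7 ∉ ({x8, x9, x10} : Finset X) := by
    have : P.erase x7 = {x8, x9, x10} := by rw [← Finset.insert_erase hx8P', hP910]
    rw [← this]; exact Finset.notMem_erase x7 _
  -- the frame
  have F0 : Fr g (fun _ => x0) 0 [] ∅ :=
    ⟨fun i hi => absurd hi (Nat.not_lt_zero _), fun i j _ hj => absurd hj (Nat.not_lt_zero _),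
      by simp [img]⟩
  have tA : [x0, x1].toFinset = {x0, x1} := by simp
  have tB : [x2, x3].toFinset = F := by rw [hFe]; simp
  have tC : [x4, x5, x6].toFinset = T := by rw [hTe]; simp
  have tD : [x7, x8, x9, x10].toFinset = P := by rw [hPe]; simp
  have F1 := F0.ext (b := [x0, x1]) rfl (by simp [hne01]) (by rw [tA]; exact clique_pair h01)
    (Finset.disjoint_empty_left _)
  rw [tA, ← hA2e, Finset.empty_union] at F1
  have F2 := F1.ext (b := [x2, x3]) (by simp) (by simp [hne23]) (by rw [tB]; exact hFcl)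
    (by rw [tB]; exact Finset.sdiff_disjoint)
  rw [tB, sdiff_union_Q hA4i hFA] at F2
  have F3 := F2.ext (b := [x4, x5, x6]) (by simp) (by
      simp only [Finset.mem_insert, Finset.mem_singleton, not_or] at hn4
      simp [hn4.1, hn4.2, hne56]) (by rw [tC]; exact hTcl)
    (by rw [tC]; exact Finset.sdiff_disjoint)
  rw [tC, sdiff_union_Q hA7i hTA] at F3
  have F4 := F3.ext (b := [x7, x8, x9, x10]) (by simp) (by
      simp only [Finset.mem_insert, Finset.mem_singleton, not_or] at hn8 hn7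
      simp [hn8.1, hn8.2, hn7.1, hn7.2.1, hn7.2.2, hne910]) (by rw [tD]; exact hP)
    (by rw [tD]; exact Finset.sdiff_disjoint)
  rw [tD, sdiff_union_Q hA hPA] at F4
  have hinj : Inj g (xB x0 x1 x2 x3 x4 x5 x6 x7 x8 x9 x10) 11 := F4.inj
  have him : img g (xB x0 x1 x2 x3 x4 x5 x6 x7 x8 x9 x10) 22 = A := F4.im
  have him7 : img g (xB x0 x1 x2 x3 x4 x5 x6 x7 x8 x9 x10) 14 = A7 := by
    rw [← F3.im]
    exact img_ex (n := 7) (p := 7) (le_refl 7)
  have b2 : blk (xB x0 x1 x2 x3 x4 x5 x6 x7 x8 x9 x10) 2 4 = F := by rw [hFe]; exact blk_two _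
  have b4 : blk (xB x0 x1 x2 x3 x4 x5 x6 x7 x8 x9 x10) 4 7 = T := by rw [hTe]; exact blk_four _
  have b7 : blk (xB x0 x1 x2 x3 x4 x5 x6 x7 x8 x9 x10) 7 11 = P := by rw [hPe]; exact blk_seven _
  refine caseB_end (x := xB x0 x1 x2 x3 x4 x5 x6 x7 x8 x9 x10) (y := y) (by rw [him]; exact hy)
    hinj (by rw [him]; exact hno5) (by rw [him7]; exact hno4) (by rw [b2]; exact hFcl)
    (by rw [b4]; exact hTcl) (by rw [b7]; exact hP) rfl rfl rfl ?_ ?_ ?_ ?_ ?_ ?_ ?_ ?_ ?_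
  · intro G hG
    rw [b7] at hG ⊢
    have h := congrFun htop G
    rw [hG] at h
    exact h
  · rw [b2, b4, b7]; exact k0
  · rw [b2, b4, b7]; exact k1
  · rw [b2, b4, b7]; exact k2
  · rw [b4, b7, ← blk_two, b2]; exact hF
  · rw [b7, ← blk_four, b4]; exact hT1
  · refine kn_of h01 h02 ?_ ?_ ?_ ?_ ?_ hinj ?_ ?_
    · exact hFcl x2 hx2F x3 (by rw [hFe]; simp) hne23
    · exact hx4 x2 hx2F
    · exact hx4 x3 (by rw [hFe]; simp)
    · rw [← blk_four, b4]; exact hTcl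
    · rw [← blk_seven, b7]; exact hP
    · rw [← blk_four, b4]; exact hx7
    · rw [← blk_four, b4]; exact hx8'
  · exact hs56
  · exact hs910

theorem thm_beta {A : Finset X} (hA : A.image g.a = A) (hc : A.card = 22) {y : Ch X}
    (hy : Good g 3 A y) : ∃ F : Finset X, F.card = 5 ∧ Clique g F ∧ F ⊆ A := by
  by_contra hcon
  have hno5 : ∀ F : Finset X, F ⊆ A → F.card = 5 → ¬ Clique g F :=
    fun F h1 h2 h3 => hcon ⟨F, h2, h3, h1⟩
  obtain ⟨P, hPc, hP, hPA⟩ := Good.exists_clique g hy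
  by_cases h : ∃ Q : Finset X, Q ⊆ A \ (P ∪ P.image g.a) ∧ Q.card = 4 ∧ Clique g Q
  · obtain ⟨Q, h1, h2, h3⟩ := h
    exact caseA hA hc hy hno5 hP hPc hPA h3 h2 h1
  · exact caseB hA hc hy hno5 hP hPc hPA (fun F h1 h2 h3 => h ⟨F, h1, h2, h3⟩)

end CaseB2

end Pool.Agent.TH651.RP5
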