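import Pool.Agent.TH651.RP5.Engine

/-!
Constraints on signed graphs and chains, their clauses, and the certificate checker.
-/

set_option autoImplicit false

namespace Pool.Agent.TH651.RP5

/-- code of the sign variable of the pair `i < j` -/
def codeA (i j : ℕ) : ℕ := 2 * (16 * i + j)
/-- code of the chain variable of a face given as a mask -/
def codeY (F : ℕ) : ℕ := 2 * F + 1

/-- decode a list of literals in base 64 -/
noncomputable def dec64 (fuel : ℕ) : ℕ → List ℕ :=
  Nat.rec (motive := fun _ => ℕ → List ℕ) (fun _ => [])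
    (fun _ ih x => bc (Nat.beq x 0) [] (st (x % 64 - 1) (fun l => l :: st (x / 64) ih))) fuel

/-- the mask of a list of literals -/
noncomputable def mk (L : List ℕ) : ℕ :=
  List.rec (motive := fun _ => ℕ) 0 (fun l _ ih => st ih (fun m => m ||| (1 <<< l))) L

/-- strictly increasing with all entries below `b` -/
noncomputable def srt (b : ℕ) (L : List ℕ) : ℕ → Bool :=
  List.rec (motive := fun _ => ℕ → Bool) (fun _ => true)
    (fun l _ ih lo => bc (Nat.ble lo l) (bc (Nat.ble (l + 1) b) (st (l + 1) ih) false) false) L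

/-- the same, with distinct halves -/
noncomputable def srtH (b : ℕ) (L : List ℕ) : ℕ → Bool :=
  List.rec (motive := fun _ => ℕ → Bool) (fun _ => true)
    (fun l _ ih lo => bc (Nat.ble lo l) (bc (Nat.ble (l + 1) b) (st (2 * (l / 2) + 2) ih) false)
      false) L

structure Env where
  n : ℕ
  T : Tr
  U : Tr
  nk : List ℕ
  full : List ℕ
  forb : List (ℕ × ℕ)
  inv : ℕ
  ext : List (List ℕ)

/-- signed code asserting the adjacency of the literals `l`, `m`, where `l / 2 < m / 2` -/
def adjS (l m : ℕ) : ℕ := 2 * codeA (l / 2) (m / 2) + (l + m + 1) % 2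

inductive Rs
  | clq (F l m : ℕ)
  | cov (k L : ℕ)
  | cyc (k L pat : ℕ)
  | dsc (k L pat : ℕ)
  | full (k L e pat : ℕ)
  | inv (L : ℕ)
  | forb (q L : ℕ)
  | ext (i : ℕ)

/-- keep the candidates `z` that may extend `F`; return the extended faces -/
noncomputable def filt (T : Tr) (F : ℕ) (cs : List ℕ) : List ℕ :=
  List.rec (motive := fun _ => List ℕ) []
    (fun z _ ih => st (T.get z) (fun t => bc (Nat.beq ((t ||| (1 <<< z)) &&& F) 0)
      (st (F ||| (1 <<< z)) (fun G => G :: ih)) ih)) cs

/-- clause from a parity constraint -/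
noncomputable def xcl (rhs : Bool) (ts : List ℕ) : ℕ → Bool → List ℕ :=
  List.rec (motive := fun _ => ℕ → Bool → List ℕ)
    (fun _ par => bc (par == rhs) [0, 1] [])
    (fun t _ ih pat par => (2 * codeY t + pat % 2) :: st (pat / 2) (fun p => ih p
      (bc (Nat.beq (pat % 2) 1) (!par) par))) ts

/-- `a, a+1, ..., a+k-1` -/
noncomputable def rg (k : ℕ) : ℕ → List ℕ :=
  Nat.rec (motive := fun _ => ℕ → List ℕ) (fun _ => []) (fun _ ih a => a :: st (a + 1) ih) k

/-- `a, a+2, ..., a+2(k-1)` -/
noncomputable def rg2 (k : ℕ) : ℕ → List ℕ :=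
  Nat.rec (motive := fun _ => ℕ → List ℕ) (fun _ => []) (fun _ ih a => a :: st (a + 2) ih) k

def taut : List ℕ := [0, 1]

/-- positive literals of faces -/
noncomputable def pos (ts : List ℕ) : List ℕ :=
  List.rec (motive := fun _ => List ℕ) [] (fun t _ ih => (2 * codeY t) :: ih) ts

noncomputable def anti (L : List ℕ) : List ℕ :=
  List.rec (motive := fun _ => List ℕ) [] (fun l _ ih => (l ^^^ 1) :: ih) L

/-- literals saying that some pair `(l, m)`, `m` in the list, is not adjacent, dropping the pairs
known to be adjacent -/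
noncomputable def fb1 (U : Tr) (l : ℕ) (ms : List ℕ) (rest : List ℕ) : List ℕ :=
  List.rec (motive := fun _ => List ℕ) rest
    (fun m _ ih => st (U.get l) (fun u => bc (Nat.beq (u &&& (1 <<< m)) 0)
      ((adjS l m ^^^ 1) :: ih) ih)) ms

noncomputable def fb (U : Tr) (L : List ℕ) : List ℕ :=
  List.rec (motive := fun _ => List ℕ) [] (fun l ms ih => fb1 U l ms ih) L

noncomputable def gt (L : List ℕ) (i : ℕ) : ℕ := L.getD i 0

/-- the clause of a reason (a tautology when the side conditions fail) -/
noncomputable def rc (e : Env) (r : Rs) : List ℕ :=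
  match r with
  | .clq F l m => bc (Nat.beq (F &&& (1 <<< l)) 0) taut (bc (Nat.beq (F &&& (1 <<< m)) 0) taut
      (bc (Nat.ble (l / 2 + 1) (m / 2)) (bc (Nat.ble (m + 1) (2 * e.n))
        [2 * codeY F + 1, adjS l m] taut) taut))
  | .cov k L => st (gt e.nk k) (fun b => st (gt e.nk (k + 1)) (fun b' =>
      bc (srt (2 * b) (dec64 8 L) 0) (bc (Nat.beq (dec64 8 L).length (k + 1))
      (bc (Nat.ble b b') (bc (Nat.ble (k + 2) e.nk.length)
      (st (mk (dec64 8 L)) (fun F => (2 * codeY F + 1) :: pos (filt e.T F (rg2 (b' - b) (2 * b)))))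
      taut) taut) taut) taut))
  | .cyc k L pat => st (gt e.nk k) (fun b =>
      bc (srt (2 * b) (dec64 8 L) 0) (bc (Nat.beq (dec64 8 L).length k)
      (bc (Nat.ble 1 k) (bc (Nat.ble (k + 1) e.nk.length)
      (st (mk (dec64 8 L)) (fun F => xcl false (filt e.T F (rg (2 * b) 0)) pat false)) taut) taut)
      taut) taut)
  | .dsc k L pat => st (gt e.nk k) (fun b => st (gt e.nk (k + 1)) (fun b' =>
      bc (srt (2 * b) (dec64 8 L) 0) (bc (Nat.beq (dec64 8 L).length (k + 1))
      (bc (Nat.ble b b') (bc (Nat.ble (k + 2) e.nk.length)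
      (st (mk (dec64 8 L)) (fun F => xcl false (F :: filt e.T F (rg2 (b' - b) (2 * b))) pat false))
      taut) taut) taut) taut))
  | .full k L u pat => st (gt e.nk k) (fun b => st (gt e.nk (k + 1)) (fun b' =>
      bc (srt (2 * b) (dec64 8 L) 0) (bc (Nat.beq (dec64 8 L).length (k + 1))
      (bc (Nat.ble b b') (bc (Nat.ble (k + 2) e.nk.length) (bc (Nat.ble u 1)
      (st (mk (dec64 8 L)) (fun F => bc (e.full.any (fun G => Nat.beq G F))
        (xcl true (filt e.T F (rg2 (b' - b) (2 * b + u))) pat false) taut)) taut)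
      taut) taut) taut) taut))
  | .inv L => bc (srt (2 * gt e.nk e.inv) (dec64 8 L) 0) (bc (Nat.beq (dec64 8 L).length (e.inv + 1))
      [2 * codeY (mk (dec64 8 L)) + 1, 2 * codeY (mk (anti (dec64 8 L)))] taut) taut
  | .forb q L => bc (e.forb.any (fun p => Nat.beq p.1 q && srtH p.2 (dec64 8 L) 0))
      (bc (Nat.beq (dec64 8 L).length q) (fb e.U (dec64 8 L)) taut) taut
  | .ext i => e.ext.getD i taut

/-- match a clause in codes with a clause in compact variables contained in the mask `D` -/
noncomputable def okc (tab : Tr) (D : ℕ) (ss : List ℕ) : ℕ → Bool :=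
  List.rec (motive := fun _ => ℕ → Bool) (fun _ => true)
    (fun s _ ih L => st (L % 4096 - 1) (fun l => bc (Nat.beq (2 * tab.get (l / 2) + l % 2) s)
      (bc (Nat.beq (D ||| (1 <<< l)) D) (st (L / 4096) ih) false) false)) ss

noncomputable def chkO (e : Env) (tab db : Tr) (os : List (Rs × ℕ)) : ℕ → Bool :=
  List.rec (motive := fun _ => ℕ → Bool) (fun _ => true)
    (fun o _ ih i => bc (st (db.get i) (fun D => okc tab D (rc e o.1) o.2)) (st (i + 1) ih) false) os

/-! ### soundness -/

def AdjL (val : ℕ → Bool) (l m : ℕ) : Prop :=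
  l / 2 ≠ m / 2 ∧ val (codeA (min (l / 2) (m / 2)) (max (l / 2) (m / 2))) = ((l + m) % 2 == 1)

theorem AdjL.symm {val : ℕ → Bool} {l m : ℕ} (h : AdjL val l m) : AdjL val m l := by
  refine ⟨fun e => h.1 e.symm, ?_⟩
  rw [min_comm, max_comm, h.2, add_comm]

/-- sum of the chain variables -/
def xs (val : ℕ → Bool) : List ℕ → Bool
  | [] => false
  | t :: ts => (val (codeY t)) ^^ (xs val ts)

def Srt (b : ℕ) (L : List ℕ) : Prop := L.Pairwise (· < ·) ∧ ∀ l ∈ L, l < b

def mkM : List ℕ → ℕ
  | [] => 0
  | l :: L => mkM L ||| (1 <<< l)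

structure Mod (e : Env) (val : ℕ → Bool) : Prop where
  hn : e.n ≤ 16
  clq : ∀ F l m, l < 2 * e.n → m < 2 * e.n → F.testBit l = true → F.testBit m = true → l ≠ m →
    val (codeY F) = true → AdjL val l m
  hT : ∀ z l, z < 2 * e.n → l < 2 * e.n → (e.T.get z).testBit l = true → ¬ AdjL val z l
  hU : ∀ z l, z < 2 * e.n → l < 2 * e.n → (e.U.get z).testBit l = true → AdjL val z l
  hnk : ∀ k < e.nk.length, e.nk.getD k 0 ≤ e.n
  cov : ∀ k L, k + 1 < e.nk.length → Srt (2 * e.nk.getD k 0) L → L.length = k + 1 →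
    val (codeY (mkM L)) = true → ∃ p, e.nk.getD k 0 ≤ p ∧ p < e.nk.getD (k + 1) 0 ∧
      val (codeY (mkM L ||| (1 <<< (2 * p)))) = true
  cyc : ∀ k L, 1 ≤ k → k < e.nk.length → Srt (2 * e.nk.getD k 0) L → L.length = k →
    xs val (((List.range (2 * e.nk.getD k 0)).filter (fun z => !(mkM L).testBit z)).map
      (fun z => mkM L ||| (1 <<< z))) = false
  dsc : ∀ k L, k + 1 < e.nk.length → Srt (2 * e.nk.getD k 0) L → L.length = k + 1 →
    (val (codeY (mkM L)) ^^ xs val ((List.range (e.nk.getD (k + 1) 0 - e.nk.getD k 0)).map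
      (fun p => mkM L ||| (1 <<< (2 * e.nk.getD k 0 + 2 * p))))) = false
  full : ∀ k L u, k + 1 < e.nk.length → u ≤ 1 → Srt (2 * e.nk.getD k 0) L → L.length = k + 1 →
    mkM L ∈ e.full →
    xs val ((List.range (e.nk.getD (k + 1) 0 - e.nk.getD k 0)).map
      (fun p => mkM L ||| (1 <<< (2 * e.nk.getD k 0 + u + 2 * p)))) = true
  inv : ∀ L, Srt (2 * e.nk.getD e.inv 0) L → L.length = e.inv + 1 →
    val (codeY (mkM L)) = true → val (codeY (mkM (L.map (· ^^^ 1)))) = true
  forb : ∀ q b, (q, b) ∈ e.forb → b ≤ 2 * e.n ∧ ∀ L, Srt b L → L.length = q →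
    ¬ L.Pairwise (AdjL val)
  ext : ∀ c ∈ e.ext, ∃ s ∈ c, litT val s

theorem beq_iff (a b : ℕ) : Nat.beq a b = true ↔ a = b := Nat.beq_eq ▸ Iff.rfl

theorem mk_eq (L : List ℕ) : mk L = mkM L := by
  induction L with
  | nil => rfl
  | cons l L ih =>
    have : mk (l :: L) = st (mk L) (fun m => m ||| (1 <<< l)) := rfl
    rw [this, st_eq, ih, mkM]

theorem anti_eq (L : List ℕ) : anti L = L.map (· ^^^ 1) := by
  induction L with
  | nil => rfl
  | cons l L ih =>
    have : anti (l :: L) = (l ^^^ 1) :: anti L := rfl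
    rw [this, ih, List.map_cons]

theorem testBit_mkM (L : List ℕ) (l : ℕ) : (mkM L).testBit l = true ↔ l ∈ L := by
  induction L with
  | nil => simp [mkM]
  | cons m L ih =>
    rw [mkM, Nat.testBit_or, Bool.or_eq_true, ih, testBit_one_shiftLeft, decide_eq_true_eq,
      List.mem_cons]
    tauto

theorem srt_sound (b : ℕ) (L : List ℕ) : ∀ lo, srt b L lo = true →
    L.Pairwise (· < ·) ∧ ∀ l ∈ L, lo ≤ l ∧ l < b := by
  induction L with
  | nil => intro lo _; simp
  | cons l L ih =>
    intro lo h
    have e : srt b (l :: L) lo = bc (Nat.ble lo l) (bc (Nat.ble (l + 1) b) (st (l + 1) (srt b L))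
      false) false := rfl
    rw [e, st_eq, bc_eq, bc_eq] at h
    split_ifs at h with h1 h2
    rw [Nat.ble_eq] at h1 h2
    obtain ⟨h3, h4⟩ := ih _ h
    refine ⟨List.pairwise_cons.mpr ⟨fun m hm => by have := (h4 m hm).1; omega, h3⟩, ?_⟩
    intro m hm
    rcases List.mem_cons.mp hm with rfl | hm
    · exact ⟨h1, by omega⟩
    · have := h4 m hm
      exact ⟨by omega, this.2⟩

theorem taut_true (val : ℕ → Bool) : ∃ s ∈ taut, litT val s := by
  cases h : val 0
  · exact ⟨1, by simp [taut], by simp [litT, h]⟩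
  · exact ⟨0, by simp [taut], by simp [litT, h]⟩

theorem litT_code (val : ℕ → Bool) (c b : ℕ) (hb : b < 2) :
    litT val (2 * c + b) ↔ val c = (b == 0) := by
  unfold litT
  have h1 : (2 * c + b) / 2 = c := by omega
  have h2 : (2 * c + b) % 2 = b := by omega
  rw [h1, h2]

theorem xcl_sound (val : ℕ → Bool) (rhs : Bool) (ts : List ℕ) : ∀ pat par,
    (xs val ts ^^ par) = rhs → ∃ s ∈ xcl rhs ts pat par, litT val s := by
  induction ts with
  | nil =>
    intro pat par h
    have e : xcl rhs [] pat par = bc (par == rhs) [0, 1] [] := rfl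
    simp only [xs, Bool.false_xor] at h
    rw [e, h]
    simp only [beq_self_eq_true, bc_true]
    exact taut_true val
  | cons t ts ih =>
    intro pat par h
    have e : xcl rhs (t :: ts) pat par = (2 * codeY t + pat % 2) :: st (pat / 2) (fun p =>
      xcl rhs ts p (bc (Nat.beq (pat % 2) 1) (!par) par)) := rfl
    rw [e, st_eq]
    by_cases hv : val (codeY t) = (pat % 2 == 0)
    · exact ⟨_, List.mem_cons_self, (litT_code val _ _ (Nat.mod_lt _ (by norm_num))).mpr hv⟩
    · have h2 : ∃ s ∈ xcl rhs ts (pat / 2) (bc (Nat.beq (pat % 2) 1) (!par) par), litT val s := by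
        apply ih
        rw [← h, xs]
        rcases Nat.mod_two_eq_zero_or_one pat with h3 | h3
        · rw [h3] at hv ⊢
          have : val (codeY t) = false := by
            cases hh : val (codeY t)
            · rfl
            · rw [hh] at hv; exact absurd rfl hv
          rw [this]
          show (xs val ts ^^ par) = _
          cases xs val ts <;> cases par <;> rfl
        · rw [h3] at hv ⊢
          have : val (codeY t) = true := by
            cases hh : val (codeY t)
            · rw [hh] at hv; exact absurd rfl hv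
            · rfl
          rw [this]
          show (xs val ts ^^ !par) = _
          cases xs val ts <;> cases par <;> rfl
      obtain ⟨s, hs, hl⟩ := h2
      exact ⟨s, List.mem_cons_of_mem _ hs, hl⟩

theorem adjS_true {val : ℕ → Bool} {l m : ℕ} (h : l / 2 < m / 2) :
    litT val (adjS l m) ↔ AdjL val l m := by
  unfold adjS
  rw [litT_code val _ _ (Nat.mod_lt _ (by norm_num))]
  unfold AdjL
  rw [min_eq_left h.le, max_eq_right h.le]
  have : ((l + m + 1) % 2 == 0) = ((l + m) % 2 == 1) := by
    rcases Nat.mod_two_eq_zero_or_one (l + m) with h3 | h3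
    · have : (l + m + 1) % 2 = 1 := by omega
      rw [h3, this]; rfl
    · have : (l + m + 1) % 2 = 0 := by omega
      rw [h3, this]; rfl
  rw [this]
  exact ⟨fun h' => ⟨h.ne, h'⟩, fun h' => h'.2⟩

theorem and_shift_eq_zero (F l : ℕ) : F &&& (1 <<< l) = 0 ↔ F.testBit l = false := by
  constructor
  · intro h
    have := congrArg (fun x => Nat.testBit x l) h
    simp only [Nat.testBit_and, testBit_one_shiftLeft, Nat.zero_testBit] at this
    simpa using this
  · intro h
    apply Nat.eq_of_testBit_eq
    intro i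
    rw [Nat.testBit_and, testBit_one_shiftLeft, Nat.zero_testBit]
    by_cases hi : i = l
    · subst hi; simp [h]
    · simp [hi]

theorem exists_common {a b : ℕ} (h : a &&& b ≠ 0) : ∃ l, a.testBit l = true ∧ b.testBit l = true := by
  by_contra hcon
  push Not at hcon
  apply h
  apply Nat.eq_of_testBit_eq
  intro i
  rw [Nat.testBit_and, Nat.zero_testBit]
  cases h1 : a.testBit i
  · rfl
  · have := hcon i h1
    simp only [Bool.true_and]
    exact Bool.eq_false_iff.mpr this

/-- dropping the impossible candidates does not change the sum -/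
theorem filt_xs {e : Env} {val : ℕ → Bool} (hm : Mod e val) (F : ℕ)
    (hF : ∀ l, F.testBit l = true → l < 2 * e.n) (cs : List ℕ) (hcs : ∀ z ∈ cs, z < 2 * e.n) :
    xs val (filt e.T F cs) = xs val ((cs.filter (fun z => !F.testBit z)).map
      (fun z => F ||| (1 <<< z))) := by
  induction cs with
  | nil => rfl
  | cons z cs ih =>
    have e1 : filt e.T F (z :: cs) = st (e.T.get z) (fun t => bc (Nat.beq ((t ||| (1 <<< z)) &&& F) 0)
      (st (F ||| (1 <<< z)) (fun G => G :: filt e.T F cs)) (filt e.T F cs)) := rfl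
    rw [e1, st_eq, st_eq, bc_eq]
    have ih' := ih (fun w hw => hcs w (List.mem_cons_of_mem _ hw))
    have hz : z < 2 * e.n := hcs z List.mem_cons_self
    split_ifs with h1
    · rw [beq_iff] at h1
      have h2 : F.testBit z = false := by
        by_contra hcon
        rw [Bool.not_eq_false] at hcon
        have := congrArg (fun x => Nat.testBit x z) h1
        simp only [Nat.testBit_and, Nat.testBit_or, testBit_one_shiftLeft, hcon,
          Nat.zero_testBit] at this
        simp at this
      rw [List.filter_cons_of_pos (by simp [h2]), List.map_cons, xs, xs, ih']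
    · by_cases h2 : F.testBit z = true
      · rw [List.filter_cons_of_neg (by simp [h2]), ih']
      · rw [Bool.not_eq_true] at h2
        rw [List.filter_cons_of_pos (by simp [h2]), List.map_cons, xs, ih']
        have h3 : val (codeY (F ||| (1 <<< z))) = false := by
          by_contra hcon
          rw [Bool.not_eq_false] at hcon
          obtain ⟨l, hl1, hl2⟩ := exists_common (fun h => h1 ((beq_iff _ _).mpr h))
          rw [Nat.testBit_or, testBit_one_shiftLeft] at hl1
          have hlz : l ≠ z := by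
            intro e2; rw [e2, h2] at hl2; exact Bool.false_ne_true hl2
          have hl3 : (e.T.get z).testBit l = true := by simpa [hlz] using hl1
          refine hm.hT z l hz (hF l hl2) hl3 ?_
          refine hm.clq (F ||| (1 <<< z)) z l hz (hF l hl2) ?_ ?_ hlz.symm hcon
          · rw [Nat.testBit_or, testBit_one_shiftLeft]; simp
          · rw [Nat.testBit_or, hl2, Bool.true_or]
        rw [h3, Bool.false_xor]

theorem mem_filt_of_true {e : Env} {val : ℕ → Bool} (hm : Mod e val) (F : ℕ)
    (hF : ∀ l, F.testBit l = true → l < 2 * e.n) (cs : List ℕ) (hcs : ∀ z ∈ cs, z < 2 * e.n)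
    (z : ℕ) (hz : z ∈ cs) (hzF : F.testBit z = false)
    (hv : val (codeY (F ||| (1 <<< z))) = true) : F ||| (1 <<< z) ∈ filt e.T F cs := by
  induction cs with
  | nil => simp at hz
  | cons w cs ih =>
    have e1 : filt e.T F (w :: cs) = st (e.T.get w) (fun t => bc (Nat.beq ((t ||| (1 <<< w)) &&& F) 0)
      (st (F ||| (1 <<< w)) (fun G => G :: filt e.T F cs)) (filt e.T F cs)) := rfl
    rw [e1, st_eq, st_eq, bc_eq]
    rcases List.mem_cons.mp hz with rfl | hz'
    · have hz2 : z < 2 * e.n := hcs z List.mem_cons_self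
      have h0 : Nat.beq ((e.T.get z ||| (1 <<< z)) &&& F) 0 = true := by
        rw [beq_iff]
        by_contra hcon
        obtain ⟨l, hl1, hl2⟩ := exists_common hcon
        rw [Nat.testBit_or, testBit_one_shiftLeft] at hl1
        have hlz : l ≠ z := by
          intro e2; rw [e2, hzF] at hl2; exact Bool.false_ne_true hl2
        have hl3 : (e.T.get z).testBit l = true := by simpa [hlz] using hl1
        refine hm.hT z l hz2 (hF l hl2) hl3 ?_
        refine hm.clq (F ||| (1 <<< z)) z l hz2 (hF l hl2) ?_ ?_ hlz.symm hv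
        · rw [Nat.testBit_or, testBit_one_shiftLeft]; simp
        · rw [Nat.testBit_or, hl2, Bool.true_or]
      rw [if_pos h0]
      exact List.mem_cons_self
    · have := ih (fun w hw => hcs w (List.mem_cons_of_mem _ hw)) hz'
      split_ifs
      · exact List.mem_cons_of_mem _ this
      · exact this

theorem pos_eq (ts : List ℕ) : pos ts = ts.map (fun t => 2 * codeY t) := by
  induction ts with
  | nil => rfl
  | cons t ts ih =>
    have : pos (t :: ts) = (2 * codeY t) :: pos ts := rfl
    rw [this, ih, List.map_cons]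

theorem rg_eq (k : ℕ) : ∀ a, rg k a = (List.range k).map (fun i => a + i) := by
  induction k with
  | zero => intro a; rfl
  | succ k ih =>
    intro a
    have : rg (k + 1) a = a :: st (a + 1) (rg k) := rfl
    rw [this, st_eq, ih, List.range_succ_eq_map, List.map_cons, List.map_map]
    simp only [add_zero, List.cons.injEq, true_and]
    apply List.map_congr_left
    intro i _
    simp only [Function.comp_apply, Nat.succ_eq_add_one]
    ring

theorem rg2_eq (k : ℕ) : ∀ a, rg2 k a = (List.range k).map (fun i => a + 2 * i) := by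
  induction k with
  | zero => intro a; rfl
  | succ k ih =>
    intro a
    have : rg2 (k + 1) a = a :: st (a + 2) (rg2 k) := rfl
    rw [this, st_eq, ih, List.range_succ_eq_map, List.map_cons, List.map_map]
    simp only [mul_zero, add_zero, List.cons.injEq, true_and]
    apply List.map_congr_left
    intro i _
    simp only [Function.comp_apply, Nat.succ_eq_add_one]
    ring

theorem srtH_sound (b : ℕ) (L : List ℕ) : ∀ lo, srtH b L lo = true →
    L.Pairwise (fun l m => l / 2 < m / 2) ∧ ∀ l ∈ L, lo ≤ l ∧ l < b := by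
  induction L with
  | nil => intro lo _; simp
  | cons l L ih =>
    intro lo h
    have e : srtH b (l :: L) lo = bc (Nat.ble lo l) (bc (Nat.ble (l + 1) b)
      (st (2 * (l / 2) + 2) (srtH b L)) false) false := rfl
    rw [e, st_eq, bc_eq, bc_eq] at h
    split_ifs at h with h1 h2
    rw [Nat.ble_eq] at h1 h2
    obtain ⟨h3, h4⟩ := ih _ h
    refine ⟨List.pairwise_cons.mpr ⟨fun m hm => by have := (h4 m hm).1; omega, h3⟩, ?_⟩
    intro m hm
    rcases List.mem_cons.mp hm with rfl | hm
    · exact ⟨h1, by omega⟩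
    · have := h4 m hm
      exact ⟨by omega, this.2⟩

theorem adjS_false {val : ℕ → Bool} {l m : ℕ} (h : l / 2 < m / 2) (hn : ¬ AdjL val l m) :
    litT val (adjS l m ^^^ 1) := by
  rw [← adjS_true h] at hn
  unfold litT at *
  have h1 : (adjS l m ^^^ 1) / 2 = adjS l m / 2 := by
    have := Nat.xor_div_two (a := adjS l m) (b := 1)
    simpa using this
  have h2 : (adjS l m ^^^ 1) % 2 = (adjS l m + 1) % 2 :=
    Nat.xor_mod_two_eq (m := adjS l m) (n := 1)
  rw [h1, h2]
  rcases Nat.mod_two_eq_zero_or_one (adjS l m) with h3 | h3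
  · have h4 : (adjS l m + 1) % 2 = 1 := by omega
    rw [h3] at hn
    rw [h4]
    cases hh : val (adjS l m / 2)
    · rfl
    · rw [hh] at hn; exact absurd rfl hn
  · have h4 : (adjS l m + 1) % 2 = 0 := by omega
    rw [h3] at hn
    rw [h4]
    cases hh : val (adjS l m / 2)
    · rw [hh] at hn; exact absurd rfl hn
    · rfl

theorem fb1_sound {e : Env} {val : ℕ → Bool} (hm : Mod e val) (l : ℕ) (hl : l < 2 * e.n)
    (ms rest : List ℕ) (hms : ∀ m ∈ ms, m < 2 * e.n ∧ l / 2 < m / 2)
    (h : (∃ m ∈ ms, ¬ AdjL val l m) ∨ ∃ s ∈ rest, litT val s) :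
    ∃ s ∈ fb1 e.U l ms rest, litT val s := by
  induction ms with
  | nil =>
    rcases h with ⟨m, hm, -⟩ | h
    · simp at hm
    · exact h
  | cons m ms ih =>
    have e1 : fb1 e.U l (m :: ms) rest = st (e.U.get l) (fun u => bc (Nat.beq (u &&& (1 <<< m)) 0)
      ((adjS l m ^^^ 1) :: fb1 e.U l ms rest) (fb1 e.U l ms rest)) := rfl
    rw [e1, st_eq, bc_eq]
    have hmm := hms m List.mem_cons_self
    have ih' := ih (fun w hw => hms w (List.mem_cons_of_mem _ hw))
    by_cases hA : AdjL val l m
    · have h2 : ∃ s ∈ fb1 e.U l ms rest, litT val s := by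
        apply ih'
        rcases h with ⟨w, hw, hw2⟩ | h
        · rcases List.mem_cons.mp hw with rfl | hw
          · exact absurd hA hw2
          · exact Or.inl ⟨w, hw, hw2⟩
        · exact Or.inr h
      obtain ⟨s, hs, hst⟩ := h2
      split_ifs
      · exact ⟨s, List.mem_cons_of_mem _ hs, hst⟩
      · exact ⟨s, hs, hst⟩
    · have h3 : Nat.beq (e.U.get l &&& (1 <<< m)) 0 = true := by
        rw [beq_iff, and_shift_eq_zero]
        by_contra hcon
        rw [Bool.not_eq_false] at hcon
        exact hA (hm.hU l m hl hmm.1 hcon)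
      rw [if_pos h3]
      exact ⟨_, List.mem_cons_self, adjS_false hmm.2 hA⟩

theorem fb_sound {e : Env} {val : ℕ → Bool} (hm : Mod e val) (L : List ℕ)
    (hL : ∀ l ∈ L, l < 2 * e.n) (hs : L.Pairwise (fun l m => l / 2 < m / 2))
    (h : ¬ L.Pairwise (AdjL val)) : ∃ s ∈ fb e.U L, litT val s := by
  induction L with
  | nil => exact absurd List.Pairwise.nil h
  | cons l L ih =>
    have e1 : fb e.U (l :: L) = fb1 e.U l L (fb e.U L) := rfl
    rw [e1]
    rw [List.pairwise_cons] at hs
    refine fb1_sound hm l (hL l List.mem_cons_self) L _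
      (fun m hm' => ⟨hL m (List.mem_cons_of_mem _ hm'), hs.1 m hm'⟩) ?_
    by_cases h2 : L.Pairwise (AdjL val)
    · left
      by_contra hcon
      push Not at hcon
      exact h (List.pairwise_cons.mpr ⟨hcon, h2⟩)
    · right
      exact ih (fun m hm' => hL m (List.mem_cons_of_mem _ hm')) hs.2 h2

theorem mkM_bound {b : ℕ} {L : List ℕ} (hL : ∀ l ∈ L, l < b) (l : ℕ)
    (h : (mkM L).testBit l = true) : l < b := hL l ((testBit_mkM L l).mp h)

theorem filter_eq_self_of {F : ℕ} {cs : List ℕ} (h : ∀ z ∈ cs, F.testBit z = false) :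
    cs.filter (fun z => !F.testBit z) = cs := by
  rw [List.filter_eq_self]
  intro z hz
  rw [h z hz]; rfl

theorem rc_sound {e : Env} {val : ℕ → Bool} (hm : Mod e val) (r : Rs) :
    ∃ s ∈ rc e r, litT val s := by
  have T := taut_true val
  cases r with
  | clq F l m =>
    simp only [rc, bc_eq]
    split_ifs with h1 h2 h3 h4 <;> try exact T
    rw [beq_iff, and_shift_eq_zero] at h1 h2
    rw [Bool.not_eq_false] at h1 h2
    rw [Nat.ble_eq] at h3 h4
    by_cases hv : val (codeY F) = true
    · have hA := hm.clq F l m (by omega) (by omega) h1 h2 (by intro e2; subst e2; omega) hv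
      exact ⟨adjS l m, by simp, (adjS_true (by omega)).mpr hA⟩
    · refine ⟨2 * codeY F + 1, by simp, (litT_code _ _ _ (by norm_num)).mpr ?_⟩
      simpa using hv
  | cov k L =>
    simp only [rc, st_eq, bc_eq]
    split_ifs with h1 h2 h3 h4 <;> try exact T
    rw [beq_iff] at h2
    rw [Nat.ble_eq] at h3 h4
    have hs := srt_sound _ _ _ h1
    have hS : Srt (2 * e.nk.getD k 0) (dec64 8 L) := ⟨hs.1, fun l hl => (hs.2 l hl).2⟩
    rw [mk_eq]
    by_cases hv : val (codeY (mkM (dec64 8 L))) = true
    · obtain ⟨p, hp1, hp2, hp3⟩ := hm.cov k _ (by omega) hS h2 hv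
      have hb := hm.hnk k (by omega)
      have hb' := hm.hnk (k + 1) (by omega)
      have hF : ∀ l, (mkM (dec64 8 L)).testBit l = true → l < 2 * e.nk.getD k 0 :=
        fun l hl => mkM_bound hS.2 l hl
      have hmem := mem_filt_of_true hm (mkM (dec64 8 L)) (fun l hl => by have := hF l hl; omega)
        (rg2 (gt e.nk (k + 1) - gt e.nk k) (2 * gt e.nk k)) (by
          intro z hz
          rw [rg2_eq, List.mem_map] at hz
          obtain ⟨i, hi, rfl⟩ := hz
          rw [List.mem_range] at hi
          simp only [gt] at hi ⊢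
          omega) (2 * p) (by
          rw [rg2_eq, List.mem_map]
          refine ⟨p - e.nk.getD k 0, ?_, ?_⟩
          · rw [List.mem_range]; simp only [gt]; omega
          · simp only [gt]; omega) (by
          by_contra hcon
          rw [Bool.not_eq_false] at hcon
          have := hF _ hcon
          omega) hp3
      refine ⟨2 * codeY (mkM (dec64 8 L) ||| (1 <<< (2 * p))), ?_, ?_⟩
      · rw [pos_eq]
        exact List.mem_cons_of_mem _ (List.mem_map.mpr ⟨_, hmem, rfl⟩)
      · exact (litT_code val _ 0 (by norm_num)).mpr (by simpa using hp3)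
    · refine ⟨2 * codeY (mkM (dec64 8 L)) + 1, by simp, (litT_code _ _ _ (by norm_num)).mpr ?_⟩
      simpa using hv
  | cyc k L pat =>
    simp only [rc, st_eq, bc_eq]
    split_ifs with h1 h2 h3 h4 <;> try exact T
    rw [beq_iff] at h2
    rw [Nat.ble_eq] at h3 h4
    have hs := srt_sound _ _ _ h1
    have hS : Srt (2 * e.nk.getD k 0) (dec64 8 L) := ⟨hs.1, fun l hl => (hs.2 l hl).2⟩
    rw [mk_eq]
    have hb := hm.hnk k (by omega)
    apply xcl_sound
    rw [Bool.xor_false, filt_xs hm _ (fun l hl => by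
      have := mkM_bound hS.2 l hl; omega) _ (by
      intro z hz
      rw [rg_eq, List.mem_map] at hz
      obtain ⟨i, hi, rfl⟩ := hz
      rw [List.mem_range] at hi
      simp only [gt] at hi ⊢
      omega), rg_eq]
    have := hm.cyc k _ h3 (by omega) hS h2
    simpa [gt] using this
  | dsc k L pat =>
    simp only [rc, st_eq, bc_eq]
    split_ifs with h1 h2 h3 h4 <;> try exact T
    rw [beq_iff] at h2
    rw [Nat.ble_eq] at h3 h4
    have hs := srt_sound _ _ _ h1
    have hS : Srt (2 * e.nk.getD k 0) (dec64 8 L) := ⟨hs.1, fun l hl => (hs.2 l hl).2⟩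
    rw [mk_eq]
    have hb := hm.hnk k (by omega)
    have hb' := hm.hnk (k + 1) (by omega)
    apply xcl_sound
    rw [Bool.xor_false, xs, filt_xs hm _ (fun l hl => by
      have := mkM_bound hS.2 l hl; omega) _ (by
      intro z hz
      rw [rg2_eq, List.mem_map] at hz
      obtain ⟨i, hi, rfl⟩ := hz
      rw [List.mem_range] at hi
      simp only [gt] at hi ⊢
      omega), filter_eq_self_of (by
      intro z hz
      rw [rg2_eq, List.mem_map] at hz
      obtain ⟨i, hi, rfl⟩ := hz
      by_contra hcon
      rw [Bool.not_eq_false] at hcon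
      have := mkM_bound hS.2 _ hcon
      simp only [gt] at this
      omega), rg2_eq, List.map_map]
    exact hm.dsc k _ (by omega) hS h2
  | full k L u pat =>
    simp only [rc, st_eq, bc_eq]
    split_ifs with h1 h2 h3 h4 h5 h6 <;> try exact T
    rw [beq_iff] at h2
    rw [Nat.ble_eq] at h3 h4 h5
    have hs := srt_sound _ _ _ h1
    have hS : Srt (2 * e.nk.getD k 0) (dec64 8 L) := ⟨hs.1, fun l hl => (hs.2 l hl).2⟩
    rw [mk_eq] at h6 ⊢
    have hb := hm.hnk k (by omega)
    have hb' := hm.hnk (k + 1) (by omega)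
    apply xcl_sound
    rw [Bool.xor_false, filt_xs hm _ (fun l hl => by
      have := mkM_bound hS.2 l hl; omega) _ (by
      intro z hz
      rw [rg2_eq, List.mem_map] at hz
      obtain ⟨i, hi, rfl⟩ := hz
      rw [List.mem_range] at hi
      simp only [gt] at hi ⊢
      omega), filter_eq_self_of (by
      intro z hz
      rw [rg2_eq, List.mem_map] at hz
      obtain ⟨i, hi, rfl⟩ := hz
      by_contra hcon
      rw [Bool.not_eq_false] at hcon
      have := mkM_bound hS.2 _ hcon
      simp only [gt] at this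
      omega), rg2_eq, List.map_map]
    refine hm.full k _ u (by omega) h5 hS h2 ?_
    rw [List.any_eq_true] at h6
    obtain ⟨G, hG, hGF⟩ := h6
    rw [beq_iff] at hGF
    rw [← hGF]; exact hG
  | inv L =>
    simp only [rc, bc_eq]
    split_ifs with h1 h2 <;> try exact T
    rw [beq_iff] at h2
    have hs := srt_sound _ _ _ h1
    have hS : Srt (2 * e.nk.getD e.inv 0) (dec64 8 L) := ⟨hs.1, fun l hl => (hs.2 l hl).2⟩
    rw [mk_eq, mk_eq, anti_eq]
    by_cases hv : val (codeY (mkM (dec64 8 L))) = true
    · refine ⟨2 * codeY (mkM ((dec64 8 L).map (· ^^^ 1))), by simp, ?_⟩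
      have h5 := hm.inv _ hS h2 hv
      have h6 := (litT_code val (codeY (mkM ((dec64 8 L).map (· ^^^ 1)))) 0 (by norm_num)).mpr
        (by rw [h5]; rfl)
      rwa [add_zero] at h6
    · refine ⟨2 * codeY (mkM (dec64 8 L)) + 1, by simp, (litT_code _ _ _ (by norm_num)).mpr ?_⟩
      simpa using hv
  | forb q L =>
    simp only [rc, bc_eq]
    split_ifs with h1 h2 <;> try exact T
    rw [beq_iff] at h2
    rw [List.any_eq_true] at h1
    obtain ⟨⟨q', b⟩, hqb, h3⟩ := h1
    rw [Bool.and_eq_true, beq_iff] at h3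
    obtain ⟨rfl, h4⟩ := h3
    have hs := srtH_sound _ _ _ h4
    obtain ⟨hb, hf⟩ := hm.forb _ _ hqb
    refine fb_sound hm _ (fun l hl => by have := (hs.2 l hl).2; omega) hs.1 ?_
    refine hf _ ⟨?_, fun l hl => (hs.2 l hl).2⟩ h2
    exact hs.1.imp (fun h => by omega)
  | ext i =>
    simp only [rc]
    by_cases hi : i < e.ext.length
    · rw [List.getD_eq_getElem _ _ hi]
      exact hm.ext _ (List.getElem_mem hi)
    · rw [List.getD_eq_default _ _ (not_lt.mp hi)]
      exact T

theorem okc_sound (val : ℕ → Bool) (tab : Tr) (D : ℕ) (ss : List ℕ) : ∀ L,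
    okc tab D ss L = true → (∃ s ∈ ss, litT val s) → clT (fun i => val (tab.get i)) D := by
  induction ss with
  | nil => rintro L _ ⟨s, hs, -⟩; simp at hs
  | cons s ss ih =>
    intro L h hs
    have e : okc tab D (s :: ss) L = st (L % 4096 - 1) (fun l =>
      bc (Nat.beq (2 * tab.get (l / 2) + l % 2) s)
      (bc (Nat.beq (D ||| (1 <<< l)) D) (st (L / 4096) (okc tab D ss)) false) false) := rfl
    rw [e, st_eq, st_eq, bc_eq, bc_eq] at h
    split_ifs at h with h1 h2
    rw [beq_iff] at h1 h2
    set l := L % 4096 - 1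
    obtain ⟨s', hs', hlt⟩ := hs
    rcases List.mem_cons.mp hs' with rfl | hs'
    · refine ⟨l, ?_, ?_⟩
      · rw [← h2, Nat.testBit_or, testBit_one_shiftLeft]; simp
      · rw [← h1, litT_code _ _ _ (Nat.mod_lt _ (by norm_num))] at hlt
        exact hlt
    · exact ih _ h ⟨s', hs', hlt⟩

theorem chkO_sound {e : Env} {val : ℕ → Bool} (hm : Mod e val) (tab db : Tr)
    (os : List (Rs × ℕ)) : ∀ i, chkO e tab db os i = true →
    ∀ j < os.length, clT (fun i => val (tab.get i)) (db.get (i + j)) := by
  induction os with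
  | nil => intro i _ j hj; simp at hj
  | cons o os ih =>
    intro i h j hj
    have e1 : chkO e tab db (o :: os) i = bc (st (db.get i) (fun D => okc tab D (rc e o.1) o.2))
      (st (i + 1) (chkO e tab db os)) false := rfl
    rw [e1, st_eq, st_eq, bc_eq] at h
    split_ifs at h with h1
    cases j with
    | zero => exact okc_sound val tab _ _ _ h1 (rc_sound hm o.1)
    | succ j =>
      have := ih (i + 1) h j (by simpa using hj)
      rwa [show i + 1 + j = i + (j + 1) by ring] at this

/-- the certificate theorem -/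
theorem cert_sound {e : Env} {val : ℕ → Bool} (hm : Mod e val) (tab db : Tr)
    (os : List (Rs × ℕ)) (ls : List ℕ) (no nl : ℕ) (hno : os.length = no) (hnl : ls.length = nl)
    (h1 : chkO e tab db os 0 = true) (h2 : chkL db ls no = true) (hpos : 0 < nl)
    (h3 : db.get (no + nl - 1) = 0) : False := by
  have h4 : ∀ j < no, clT (fun i => val (tab.get i)) (db.get j) := by
    intro j hj
    have := chkO_sound hm tab db os 0 h1 j (by omega)
    rwa [zero_add] at this
  have h5 := chkL_sound _ db ls no h4 h2 (no + nl - 1) (by omega)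
  rw [h3] at h5
  exact clT_zero _ h5

end Pool.Agent.TH651.RP5
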