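import Mathlib

/-!
Mod 2 chains on finite sets with an involution; Smith sequences and their descent.
-/

set_option autoImplicit false
set_option linter.unusedSectionVars false

namespace Pool.Agent.TH651.RP5

section Chains

variable {X : Type} [Fintype X] [DecidableEq X]

/-- chains: functions on finite sets with values in the field with two elements -/
abbrev Ch (X : Type) := Finset X → ZMod 2

theorem ch_add_self (c : Ch X) : c + c = 0 := by
  funext F
  exact CharTwo.add_self_eq_zero _

theorem z2_add_self (x : ZMod 2) : x + x = 0 := CharTwo.add_self_eq_zero x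

/-- boundary -/
def bd (c : Ch X) : Ch X := fun F => ∑ v ∈ Fᶜ, c (insert v F)

theorem bd_add (c d : Ch X) : bd (c + d) = bd c + bd d := by
  funext F
  simp [bd, Finset.sum_add_distrib]

theorem bd_zero : bd (0 : Ch X) = 0 := by
  funext F
  simp [bd]

theorem bd_bd (c : Ch X) : bd (bd c) = 0 := by
  funext F
  simp only [bd, Pi.zero_apply]
  have h : ∀ v ∈ Fᶜ, (∑ w ∈ (insert v F)ᶜ, c (insert w (insert v F))) =
      ∑ w ∈ Fᶜ, if w = v then 0 else c (insert w (insert v F)) := by
    intro v hv
    rw [Finset.sum_ite, Finset.sum_const_zero, zero_add]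
    refine Finset.sum_congr ?_ (fun _ _ => rfl)
    ext w
    simp only [Finset.mem_compl, Finset.mem_insert, Finset.mem_filter]
    tauto
  rw [Finset.sum_congr rfl h]
  -- symmetric double sum vanishes
  have key : ∀ (s : Finset X) (f : X → X → ZMod 2), (∀ v w, f v w = f w v) → (∀ v, f v v = 0) →
      ∑ v ∈ s, ∑ w ∈ s, f v w = 0 := by
    intro s f hf h0
    induction s using Finset.induction_on with
    | empty => simp
    | insert x s hx ih =>
      rw [Finset.sum_insert hx, Finset.sum_insert hx, h0, zero_add]
      have : ∑ v ∈ s, ∑ w ∈ insert x s, f v w = ∑ v ∈ s, f v x + ∑ v ∈ s, ∑ w ∈ s, f v w := by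
        rw [← Finset.sum_add_distrib]
        refine Finset.sum_congr rfl (fun v _ => ?_)
        rw [Finset.sum_insert hx]
      rw [this, ih, add_zero]
      have : ∑ v ∈ s, f v x = ∑ v ∈ s, f x v := Finset.sum_congr rfl (fun v _ => hf v x)
      rw [this]
      exact z2_add_self _
  refine key Fᶜ (fun v w => if w = v then 0 else c (insert w (insert v F))) ?_ ?_
  · intro v w
    by_cases h : w = v
    · subst h; rfl
    · have h' : ¬ v = w := fun e => h e.symm
      simp only [h, h', if_false]
      rw [Finset.insert_comm]
  · intro v; simp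

variable (a : X → X)

/-- action of the involution on chains -/
def act (c : Ch X) : Ch X := fun F => c (F.image a)

theorem act_add (c d : Ch X) : act a (c + d) = act a c + act a d := rfl

theorem act_zero : act a (0 : Ch X) = 0 := rfl

variable {a} (ha : Function.Involutive a)

include ha

theorem image_image (F : Finset X) : (F.image a).image a = F := by
  rw [Finset.image_image, ha.comp_self, Finset.image_id]

theorem act_act (c : Ch X) : act a (act a c) = c := by
  funext F
  simp only [act, image_image ha]

theorem mem_image_iff (F : Finset X) (x : X) : x ∈ F.image a ↔ a x ∈ F := by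
  rw [Finset.mem_image]
  constructor
  · rintro ⟨y, hy, rfl⟩; rwa [ha y]
  · intro h; exact ⟨a x, h, ha x⟩

theorem bd_act (c : Ch X) : bd (act a c) = act a (bd c) := by
  funext F
  simp only [bd, act]
  refine Finset.sum_nbij' a a ?_ ?_ ?_ ?_ ?_
  · intro v hv
    rw [Finset.mem_compl] at hv ⊢
    rw [mem_image_iff ha, ha v]; exact hv
  · intro v hv
    rw [Finset.mem_compl] at hv ⊢
    rwa [mem_image_iff ha] at hv
  · intro v _; exact ha v
  · intro v _; exact ha v
  · intro v _
    rw [Finset.image_insert]

end Chains

/-- a signed complete graph, seen through its double cover: an involution and an adjacency relation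
such that of `y` and its antipode exactly one is adjacent to `x` -/
structure SG (X : Type) where
  a : X → X
  ha : Function.Involutive a
  Adj : X → X → Prop
  irr : ∀ x, ¬ Adj x x
  irr' : ∀ x, ¬ Adj x (a x)
  ne : ∀ x, a x ≠ x
  symm : ∀ {x y}, Adj x y → Adj y x
  excl : ∀ {x y}, Adj x y → ¬ Adj x (a y)
  tot : ∀ {x y}, y ≠ x → y ≠ a x → Adj x y ∨ Adj x (a y)
  eqv : ∀ {x y}, Adj x y → Adj (a x) (a y)

section Descent

variable {X : Type} [Fintype X] [DecidableEq X] (g : SG X)

def Clique (F : Finset X) : Prop := ∀ x ∈ F, ∀ y ∈ F, x ≠ y → g.Adj x y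

theorem Clique.mono {g : SG X} {F G : Finset X} (h : Clique g G) (hs : F ⊆ G) : Clique g F :=
  fun x hx y hy hxy => h x (hs hx) y (hs hy) hxy

theorem Clique.image {g : SG X} {F : Finset X} (h : Clique g F) : Clique g (F.image g.a) := by
  intro x hx y hy hxy
  rw [mem_image_iff g.ha] at hx hy
  have := h _ hx _ hy (fun e => hxy (by rw [← g.ha x, e, g.ha y]))
  have := g.eqv this
  rwa [g.ha, g.ha] at this

/-- a clique containing `x` does not contain the antipode of `x`, nor the antipode of a
neighbour of `x` -/
theorem Clique.not_anti {g : SG X} {F P : Finset X} (h : Clique g F) (hP : Clique g P) {x y : X}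
    (hx : x ∈ F) (hxP : x ∈ P) (hy : y ∈ F) (hyP : y ∈ P.image g.a) : False := by
  rw [mem_image_iff g.ha] at hyP
  by_cases hxy : x = y
  · subst hxy
    have := hP x hxP _ hyP (fun e => g.ne x e.symm)
    exact g.irr' x this
  · have h1 := h x hx y hy hxy
    by_cases h2 : x = g.a y
    · subst h2
      have := g.symm h1
      exact g.irr' y this
    · have h3 := hP x hxP _ hyP h2
      exact g.excl h1 h3

/-- support condition -/
def Supp (k : ℕ) (A : Finset X) (c : Ch X) : Prop :=
  ∀ F, c F ≠ 0 → F.card = k + 1 ∧ Clique g F ∧ F ⊆ A

theorem Supp.add {g : SG X} {k : ℕ} {A : Finset X} {c d : Ch X} (hc : Supp g k A c)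
    (hd : Supp g k A d) : Supp g k A (c + d) := by
  intro F hF
  by_cases h : c F = 0
  · refine hd F (fun h' => hF ?_)
    simp [h, h']
  · exact hc F h

/-- `R0`: restriction to the faces missing `Q` -/
def res (Q : Finset X) (c : Ch X) : Ch X := fun F => if Disjoint F Q then c F else 0

/-- the descent operator -/
def D (P : Finset X) (c : Ch X) : Ch X :=
  fun F => if Disjoint F (P ∪ P.image g.a) then ∑ v ∈ P, c (insert v F) else 0

theorem D_add (P : Finset X) (c d : Ch X) : D g P (c + d) = D g P c + D g P d := by
  funext F
  simp only [D, Pi.add_apply]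
  split_ifs
  · rw [← Finset.sum_add_distrib]
  · simp

theorem res_add (Q : Finset X) (c d : Ch X) : res Q (c + d) = res Q c + res Q d := by
  funext F
  simp only [res, Pi.add_apply]
  split_ifs <;> simp

/-- chains supported on cliques -/
def CS (c : Ch X) : Prop := ∀ F, c F ≠ 0 → Clique g F

theorem Supp.cs {g : SG X} {k : ℕ} {A : Finset X} {c : Ch X} (hc : Supp g k A c) : CS g c :=
  fun F hF => (hc F hF).2.1

theorem Q_inv (P : Finset X) : (P ∪ P.image g.a).image g.a = P ∪ P.image g.a := by
  rw [Finset.image_union, image_image g.ha, Finset.union_comm]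

theorem disj_insert_iff (Q F : Finset X) (v : X) :
    Disjoint (insert v F) Q ↔ v ∉ Q ∧ Disjoint F Q := by
  rw [Finset.disjoint_insert_left]

/-- key identity 1: `D` commutes with the boundary on clique supported chains -/
theorem bd_D {P : Finset X} (hP : Clique g P) {c : Ch X} (hc : CS g c) :
    bd (D g P c) = D g P (bd c) := by
  funext F
  set Q := P ∪ P.image g.a with hQ
  by_cases hF : Disjoint F Q
  · have h1 : bd (D g P c) F = ∑ w ∈ Fᶜ, if w ∈ Q then 0 else ∑ v ∈ P, c (insert v (insert w F)) := by
      simp only [bd]
      refine Finset.sum_congr rfl (fun w hw => ?_)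
      simp only [D, ← hQ, disj_insert_iff, hF, and_true]
      by_cases hwQ : w ∈ Q <;> simp [hwQ]
    have h2 : D g P (bd c) F = ∑ v ∈ P, ∑ w ∈ (insert v F)ᶜ, c (insert w (insert v F)) := by
      simp only [D, ← hQ, hF, if_true, bd]
    -- split the inner sum
    have h3 : ∀ v ∈ P, ∑ w ∈ (insert v F)ᶜ, c (insert w (insert v F)) =
        (∑ w ∈ Fᶜ, if w ∈ Q then 0 else c (insert v (insert w F))) +
          ∑ w ∈ P, if w = v then 0 else c (insert w (insert v F)) := by
      intro v hv
      have hvQ : v ∈ Q := Finset.mem_union_left _ hv
      have hvF : v ∉ F := fun h => (Finset.disjoint_left.mp hF h) hvQ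
      have e1 : ∑ w ∈ (insert v F)ᶜ, c (insert w (insert v F)) =
          ∑ w ∈ Fᶜ, if w = v then 0 else c (insert w (insert v F)) := by
        rw [Finset.sum_ite, Finset.sum_const_zero, zero_add]
        refine Finset.sum_congr ?_ (fun _ _ => rfl)
        ext w
        simp only [Finset.mem_compl, Finset.mem_insert, Finset.mem_filter]
        tauto
      rw [e1]
      have e2 : ∑ w ∈ P, (if w = v then 0 else c (insert w (insert v F))) =
          ∑ w ∈ Fᶜ, if w ∈ P then (if w = v then 0 else c (insert w (insert v F))) else 0 := by
        rw [← Finset.sum_filter]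
        refine Finset.sum_congr ?_ (fun _ _ => rfl)
        ext w
        simp only [Finset.mem_compl, Finset.mem_filter]
        constructor
        · intro hw
          exact ⟨fun h => (Finset.disjoint_left.mp hF h) (Finset.mem_union_left _ hw), hw⟩
        · exact fun h => h.2
      rw [e2, ← Finset.sum_add_distrib]
      refine Finset.sum_congr rfl (fun w hw => ?_)
      by_cases hwv : w = v
      · subst hwv; simp [hvQ]
      · by_cases hwP : w ∈ P
        · have : w ∈ Q := Finset.mem_union_left _ hwP
          simp [hwv, hwP, this]
        · by_cases hwQ : w ∈ Q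
          · have hwA : w ∈ P.image g.a := by
              rcases Finset.mem_union.mp hwQ with h | h
              · exact absurd h hwP
              · exact h
            have : c (insert w (insert v F)) = 0 := by
              by_contra hne
              exact Clique.not_anti (hc _ hne) hP (x := v) (y := w) (by simp) hv (by simp) hwA
            simp [hwv, hwP, hwQ, this]
          · simp only [hwv, hwP, hwQ, if_false, add_zero]
            rw [Finset.insert_comm]
    rw [h1, h2, Finset.sum_congr rfl h3, Finset.sum_add_distrib]
    have h4 : ∑ v ∈ P, ∑ w ∈ P, (if w = v then 0 else c (insert w (insert v F))) = 0 := by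
      have key : ∀ (s : Finset X) (f : X → X → ZMod 2), (∀ v w, f v w = f w v) →
          (∀ v, f v v = 0) → ∑ v ∈ s, ∑ w ∈ s, f v w = 0 := by
        intro s f hf h0
        induction s using Finset.induction_on with
        | empty => simp
        | insert x s hx ih =>
          rw [Finset.sum_insert hx, Finset.sum_insert hx, h0, zero_add]
          have : ∑ v ∈ s, ∑ w ∈ insert x s, f v w =
              ∑ v ∈ s, f v x + ∑ v ∈ s, ∑ w ∈ s, f v w := by
            rw [← Finset.sum_add_distrib]
            refine Finset.sum_congr rfl (fun v _ => ?_)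
            rw [Finset.sum_insert hx]
          rw [this, ih, add_zero]
          have : ∑ v ∈ s, f v x = ∑ v ∈ s, f x v := Finset.sum_congr rfl (fun v _ => hf v x)
          rw [this]
          exact z2_add_self _
      refine key P (fun v w => if w = v then 0 else c (insert w (insert v F))) ?_ ?_
      · intro v w
        by_cases h : w = v
        · subst h; rfl
        · have h' : ¬ v = w := fun e => h e.symm
          simp only [h, h', if_false]
          rw [Finset.insert_comm]
      · intro v; simp
    rw [h4, add_zero, Finset.sum_comm]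
    refine Finset.sum_congr rfl (fun w _ => ?_)
    by_cases hwQ : w ∈ Q <;> simp [hwQ]
  · have h1 : D g P (bd c) F = 0 := by simp only [D, ← hQ, hF, if_false]
    rw [h1]
    simp only [bd]
    refine Finset.sum_eq_zero (fun w _ => ?_)
    simp only [D, ← hQ, disj_insert_iff, hF, and_false, if_false]

/-- key identity 2 -/
theorem D_add_D_anti {P : Finset X} (hP : Clique g P) (c : Ch X) :
    D g P c + D g (P.image g.a) c = res (P ∪ P.image g.a) (bd c) +
      bd (res (P ∪ P.image g.a) c) := by
  funext F
  set Q := P ∪ P.image g.a with hQ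
  have hQ' : P.image g.a ∪ (P.image g.a).image g.a = Q := by
    rw [image_image g.ha, Finset.union_comm]
  have hPA : Disjoint P (P.image g.a) := by
    rw [Finset.disjoint_left]
    intro x hx hx'
    exact Clique.not_anti hP hP hx hx hx hx'
  by_cases hF : Disjoint F Q
  · simp only [Pi.add_apply, D, ← hQ, hQ', hF, if_true, res]
    rw [← Finset.sum_union hPA, ← hQ]
    simp only [bd, res, disj_insert_iff, hF, and_true]
    have e2 : ∑ v ∈ Q, c (insert v F) = ∑ v ∈ Fᶜ, if v ∈ Q then c (insert v F) else 0 := by
      rw [← Finset.sum_filter]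
      refine Finset.sum_congr ?_ (fun _ _ => rfl)
      ext w
      simp only [Finset.mem_compl, Finset.mem_filter]
      constructor
      · intro hw
        exact ⟨fun h => (Finset.disjoint_left.mp hF h) hw, hw⟩
      · exact fun h => h.2
    rw [e2, ← Finset.sum_add_distrib]
    refine Finset.sum_congr rfl (fun v _ => ?_)
    by_cases h : v ∈ Q
    · simp [h]
    · simp [h, z2_add_self]
  · simp only [Pi.add_apply, D, ← hQ, hQ', hF, if_false, res, add_zero, zero_add]
    simp only [bd, res, disj_insert_iff, hF, and_false, if_false, Finset.sum_const_zero]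

theorem disjoint_image_iff (F Q : Finset X) (hQ : Q.image g.a = Q) :
    Disjoint (F.image g.a) Q ↔ Disjoint F Q := by
  rw [Finset.disjoint_left, Finset.disjoint_left]
  constructor
  · intro h x hx hxQ
    refine h (a := g.a x) (Finset.mem_image_of_mem _ hx) ?_
    rw [← hQ]; exact Finset.mem_image_of_mem _ hxQ
  · intro h x hx hxQ
    rw [mem_image_iff g.ha] at hx
    refine h hx ?_
    rw [← mem_image_iff g.ha, hQ]; exact hxQ

theorem act_res (Q : Finset X) (hQ : Q.image g.a = Q) (c : Ch X) :
    act g.a (res Q c) = res Q (act g.a c) := by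
  funext F
  simp only [act, res, disjoint_image_iff g F Q hQ]

theorem act_D (P : Finset X) (c : Ch X) :
    act g.a (D g P c) = D g (P.image g.a) (act g.a c) := by
  funext F
  have hQ' : P.image g.a ∪ (P.image g.a).image g.a = P ∪ P.image g.a := by
    rw [image_image g.ha, Finset.union_comm]
  simp only [act, D, hQ', disjoint_image_iff g F _ (Q_inv g P)]
  split_ifs with h
  · rw [Finset.sum_image (fun x _ y _ e => g.ha.injective e)]
    refine Finset.sum_congr rfl (fun v _ => ?_)
    rw [Finset.image_insert, g.ha v]
  · rfl

end Descent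

end Pool.Agent.TH651.RP5
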