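import Pool.Agent.TH651.RP5.Tower

/-!
Enumeration of the blocks covering a given set of faces, up to relabelling.
-/

set_option autoImplicit false
set_option linter.unusedSectionVars false

namespace Pool.Agent.TH651.RP5

noncomputable def allB (L : List ℕ) (f : ℕ → Bool) : Bool :=
  List.rec (motive := fun _ => Bool) true (fun r _ ih => bc (f r) ih false) L

theorem allB_iff (L : List ℕ) (f : ℕ → Bool) : allB L f = true ↔ ∀ r ∈ L, f r = true := by
  induction L with
  | nil => simp [allB]
  | cons r L ih =>
    have e : allB (r :: L) f = bc (f r) (allB L f) false := rfl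
    rw [e, bc_eq]
    by_cases h : f r = true
    · rw [if_pos h, ih]; simp [h]
    · rw [if_neg h]; simp [h]

noncomputable def en (covT : Tr) (fullm : ℕ) (fin : List ℕ → Bool) (cands : List (List ℕ)) :
    List ℕ → ℕ → Bool :=
  List.rec (motive := fun _ => List ℕ → ℕ → Bool)
    (fun acc u => bc (Nat.beq u fullm) (fin acc) true)
    (fun c _ ih acc u => allB c (fun r => st (u ||| covT.get r) (fun u' => ih (r :: acc) u'))) cands

theorem en_sound (covT : Tr) (fullm : ℕ) (fin : List ℕ → Bool) (cands : List (List ℕ)) :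
    ∀ (acc : List ℕ) (u : ℕ), en covT fullm fin cands acc u = true → ∀ rows : List ℕ,
      List.Forall₂ (fun r c => r ∈ c) rows cands →
      (rows.foldl (fun w r => w ||| covT.get r) u) = fullm → fin (rows.reverse ++ acc) = true := by
  induction cands with
  | nil =>
    intro acc u h rows hr hu
    rw [List.forall₂_nil_right_iff] at hr
    subst hr
    have e : en covT fullm fin [] acc u = bc (Nat.beq u fullm) (fin acc) true := rfl
    have hu' : u = fullm := hu
    rw [e, (beq_iff u fullm).mpr hu', bc_true] at h
    simpa using h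
  | cons c cs ih =>
    intro acc u h rows hr hu
    rw [List.forall₂_cons_right_iff] at hr
    obtain ⟨r, rs, h1, h2, rfl⟩ := hr
    have e : en covT fullm fin (c :: cs) acc u = allB c (fun r => st (u ||| covT.get r)
      (fun u' => en covT fullm fin cs (r :: acc) u')) := rfl
    rw [e, allB_iff] at h
    have h3 := h r h1
    rw [st_eq] at h3
    have h4 := ih _ _ h3 rs h2 hu
    rw [List.reverse_cons, List.append_assoc]
    exact h4

/-- the row `r` covers the face `F` -/
def inclB (n r F : ℕ) : Bool := (List.range (2 * n)).all (fun l =>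
  !(F.testBit l) || ((r.testBit (l / 2)) == (l % 2 == 1)))

structure ED where
  n : ℕ
  m : ℕ
  C : List ℕ
  Fs : List ℕ
  Ns : List ℕ
  cands : List (List ℕ)
  covT : Tr
  tbl : List (ℕ × ℕ × ℕ)
  reps : List (List ℕ)

noncomputable def keyL (acc : List ℕ) : ℕ :=
  List.rec (motive := fun _ => ℕ) 0 (fun r _ ih => st ih (fun k => k * 4096 + r)) acc

noncomputable def finE (d : ED) (acc : List ℕ) : Bool :=
  st (keyL acc) (fun key => d.tbl.any (fun t => Nat.beq t.1 key &&
    (Nat.ble (t.2.1 + 1) d.reps.length &&
      relOK (d.n + d.m) (d.C ++ acc.reverse) (dec64 20 t.2.2) (d.reps.getD t.2.1 []))))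

def covOK (d : ED) : Prop := ∀ r < 2 ^ d.n, ∀ f < d.Fs.length,
  inclB d.n r (d.Fs.getD f 0) = true → (d.covT.get r).testBit f = true

noncomputable def covOKb (d : ED) : Bool :=
  (List.range (2 ^ d.n)).all (fun r => Nat.ble (d.covT.get r + 1) (2 ^ d.Fs.length) &&
    (List.range d.Fs.length).all (fun f =>
      !(inclB d.n r (d.Fs.getD f 0)) || (d.covT.get r).testBit f))

def candOKb (d : ED) : Bool :=
  (List.range (2 ^ d.n)).all (fun r => (List.range d.m).all (fun t =>
    (if t < d.Ns.length then !(inclB d.n r (d.Ns.getD t 0)) else false) ||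
      (d.cands.getD t []).any (fun s => Nat.beq s r)))

def incOKb (d : ED) : Bool :=
  (List.range d.Ns.length).all (fun s => (List.range d.Ns.length).all (fun t =>
    Nat.beq s t || (List.range (2 * d.n)).any (fun l =>
      (d.Ns.getD s 0).testBit l && (d.Ns.getD t 0).testBit (l ^^^ 1))))

structure EOK (d : ED) : Prop where
  hC : d.C.length = d.n
  hNm : d.Ns.length ≤ d.m
  hcm : d.cands.length = d.m
  cov : covOKb d = true
  cand : candOKb d = true
  inc : incOKb d = true
  enum : en d.covT (2 ^ d.Fs.length - 1) (finE d) d.cands [] 0 = true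

section

variable {X : Type} [Fintype X] [DecidableEq X] {g : SG X} {x : ℕ → X}

variable (g x) in
def Cvr (n : ℕ) (v : X) (F : ℕ) : Prop := ∀ l < 2 * n, F.testBit l = true → g.Adj (lt g x l) v

theorem cov_incl {n : ℕ} {v : X} {F : ℕ} (h : Cvr g x n v F) :
    inclB n (row g x n v) F = true := by
  rw [inclB, List.all_eq_true]
  intro l hl
  rw [List.mem_range] at hl
  by_cases hF : F.testBit l = true
  · rw [hF, Bool.not_true, Bool.false_or, beq_iff_eq]
    have h1 := h l hl hF
    unfold lt at h1
    by_cases h2 : l % 2 = 0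
    · rw [if_pos h2] at h1
      have h3 : (l % 2 == 1) = false := by rw [h2]; rfl
      rw [h3]
      by_contra hcon
      rw [Bool.not_eq_false, testBit_row] at hcon
      exact hcon.2 h1
    · rw [if_neg h2] at h1
      have h4 : l % 2 = 1 := by omega
      have h3 : (l % 2 == 1) = true := by rw [h4]; rfl
      rw [h3, testBit_row]
      refine ⟨by omega, ?_⟩
      rw [anti_adj] at h1
      exact fun h5 => g.excl h5 h1
  · rw [Bool.not_eq_true] at hF
    rw [hF]; rfl

theorem foldl_or_testBit (f : ℕ → ℕ) (rows : List ℕ) : ∀ u i,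
    (rows.foldl (fun w r => w ||| f r) u).testBit i = true ↔
      u.testBit i = true ∨ ∃ r ∈ rows, (f r).testBit i = true := by
  induction rows with
  | nil => intro u i; simp
  | cons r rows ih =>
    intro u i
    rw [List.foldl_cons, ih, Nat.testBit_or, Bool.or_eq_true]
    simp only [List.mem_cons, exists_eq_or_imp]
    tauto

theorem enum_step {d : ED} (hd : EOK d) {A P : Finset X} (hFr : Fr g x d.n d.C A)
    (hP : Clique g P) (hm : P.card = d.m) (hdis : Disjoint A (P ∪ P.image g.a))
    (hcov : ∀ F ∈ d.Fs, ∃ v ∈ P, Cvr g x d.n v F) (hN : ∀ F ∈ d.Ns, F ∈ d.Fs) :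
    ∃ k < d.reps.length, ∃ x' : ℕ → X,
      Fr g x' (d.n + d.m) (d.reps.getD k []) (A ∪ (P ∪ P.image g.a)) := by
  obtain ⟨b, hb1, hb2, hb3, hb4⟩ := exists_enum P d.Ns.length
    (fun t v => Cvr g x d.n v (d.Ns.getD t 0)) (by
      intro t ht
      refine hcov _ (hN _ ?_)
      rw [List.getD_eq_getElem _ _ ht]
      exact List.getElem_mem ht) (by
      intro s hs t ht hst v _ h1 h2
      have h3 := hd.inc
      rw [incOKb, List.all_eq_true] at h3
      have h4 := h3 s (List.mem_range.mpr hs)
      rw [List.all_eq_true] at h4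
      have h5 := h4 t (List.mem_range.mpr ht)
      have h6 : Nat.beq s t = false := by
        rw [← Bool.not_eq_true, beq_iff]; exact hst
      rw [h6, Bool.false_or, List.any_eq_true] at h5
      obtain ⟨l, hl, hl2⟩ := h5
      rw [List.mem_range] at hl
      rw [Bool.and_eq_true] at hl2
      have h7 := h1 l hl hl2.1
      have hx : l ^^^ 1 < 2 * d.n := by
        have h3 : (l ^^^ 1) / 2 = l / 2 := by
          have := Nat.xor_div_two (a := l) (b := 1)
          simpa using this
        omega
      have h8 := h2 (l ^^^ 1) hx hl2.2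
      rw [lt_xor, anti_adj] at h8
      exact g.excl h7 h8)
  have hblen : b.length = d.m := by
    rw [← hm, ← hb2, List.toFinset_card_of_nodup hb1]
  have hF1 := hFr.ext (b := b) hd.hC hb1 (by rw [hb2]; exact hP) (by rw [hb2]; exact hdis)
  rw [hb2, hblen] at hF1
  -- the rows
  set rows := b.map (row g x d.n) with hrows
  have hrl : rows.length = d.m := by rw [hrows, List.length_map, hblen]
  have h2 : List.Forall₂ (fun r c => r ∈ c) rows d.cands := by
    rw [List.forall₂_iff_get]
    refine ⟨by rw [hrl, hd.hcm], ?_⟩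
    intro i h1 h2
    rw [List.get_eq_getElem, List.get_eq_getElem]
    have hi : i < b.length := by rw [hblen]; omega
    have e1 : rows[i] = row g x d.n b[i] := by simp [hrows]
    have h3 := hd.cand
    rw [candOKb, List.all_eq_true] at h3
    have h4 := h3 (row g x d.n b[i]) (List.mem_range.mpr row_lt)
    rw [List.all_eq_true] at h4
    have h5 := h4 i (List.mem_range.mpr (by omega))
    rw [Bool.or_eq_true] at h5
    rcases h5 with h5 | h5
    · exfalso
      by_cases h6 : i < d.Ns.length
      · rw [if_pos h6, cov_incl (hb4 i hi h6)] at h5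
        exact absurd h5 (by decide)
      · rw [if_neg h6] at h5
        exact absurd h5 (by decide)
    · rw [List.any_eq_true] at h5
      obtain ⟨s, hs, hs2⟩ := h5
      rw [beq_iff] at hs2
      rw [e1, ← hs2, ← List.getD_eq_getElem d.cands [] h2]
      exact hs
  have h3 : rows.foldl (fun w r => w ||| d.covT.get r) 0 = 2 ^ d.Fs.length - 1 := by
    have hc := hd.cov
    rw [covOKb, List.all_eq_true] at hc
    apply Nat.eq_of_testBit_eq
    intro i
    rw [Nat.testBit_two_pow_sub_one, Bool.eq_iff_iff, foldl_or_testBit, decide_eq_true_eq]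
    constructor
    · rintro (h | ⟨r, hr, hbit⟩)
      · simp at h
      · rw [hrows, List.mem_map] at hr
        obtain ⟨v, -, rfl⟩ := hr
        have h4 := hc (row g x d.n v) (List.mem_range.mpr row_lt)
        rw [Bool.and_eq_true, Nat.ble_eq] at h4
        by_contra hcon
        rw [not_lt] at hcon
        have h5 : d.covT.get (row g x d.n v) < 2 ^ i :=
          lt_of_lt_of_le (by omega) (Nat.pow_le_pow_right (by norm_num) hcon)
        rw [Nat.testBit_lt_two_pow h5] at hbit
        exact absurd hbit (by decide)
    · intro hi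
      right
      obtain ⟨v, hv, hcv⟩ := hcov (d.Fs.getD i 0) (by
        rw [List.getD_eq_getElem _ _ hi]; exact List.getElem_mem hi)
      rw [← hb2, List.mem_toFinset] at hv
      refine ⟨row g x d.n v, by rw [hrows]; exact List.mem_map.mpr ⟨v, hv, rfl⟩, ?_⟩
      have h4 := hc (row g x d.n v) (List.mem_range.mpr row_lt)
      rw [Bool.and_eq_true, List.all_eq_true] at h4
      have h5 := h4.2 i (List.mem_range.mpr hi)
      rw [cov_incl hcv, Bool.not_true, Bool.false_or] at h5
      exact h5
  have h4 := en_sound _ _ _ _ _ _ hd.enum rows h2 h3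
  rw [List.append_nil, finE, st_eq, List.any_eq_true] at h4
  obtain ⟨t, ht, ht2⟩ := h4
  rw [Bool.and_eq_true, Bool.and_eq_true, List.reverse_reverse, Nat.ble_eq] at ht2
  exact ⟨t.2.1, by omega, relabel hF1 ht2.2.2⟩

end

end Pool.Agent.TH651.RP5
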