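import Pool.Agent.TH651.RP5.Tower

set_option autoImplicit false
set_option maxRecDepth 100000
set_option maxHeartbeats 0

namespace Pool.Agent.TH651.RP5.FH

open Pool.Agent.TH651.RP5

def T : Tr := (.nd (.nd (.nd .lf 21 .lf) 37 (.nd .lf 22 .lf)) 26 (.nd (.nd .lf 41 .lf) 42 .lf))
def U : Tr := (.nd (.nd (.nd .lf 34 .lf) 24 (.nd .lf 9 .lf)) 36 (.nd (.nd .lf 6 .lf) 17 .lf))
def env : Env where
  n := 3
  T := T
  U := U
  nk := [1, 3]
  full := []
  forb := []
  inv := 99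
  ext := [[6],
   [10],
   [23, 135, 43, 75, 83, 163]]
def kn : List ℕ := [0, 1, 3]
def sg : List ℕ := [0, 0, 1]
def tab : Tr := (.nd (.nd (.nd (.nd .lf 81 .lf) 37 .lf) 11 (.nd .lf 21 .lf)) 3 (.nd (.nd .lf 67 .lf) 5 (.nd .lf 41 .lf)))
def db : Tr := (.nd (.nd (.nd (.nd .lf 16 .lf) 1152 .lf) 96 (.nd (.nd .lf 4 .lf) 16896 .lf)) 6 (.nd (.nd (.nd .lf 43656 .lf) 4104 .lf) 264 (.nd (.nd .lf 0 .lf) 1 .lf)))
def os : List (Rs × ℕ) := [(.dsc 0 1 1, 12290),
 (.dsc 0 2 1, 28678),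
 (.cyc 1 1 1, 36868),
 (.cyc 1 2 2, 32779),
 (.cyc 1 3 1, 53252),
 (.cyc 1 6 1, 61450),
 (.ext 0, 1),
 (.ext 1, 5),
 (.ext 2, 18450685273340682244)]
def ls : List ℕ := [117448705,
 2246328217344199589763877683411048966020548807118856]

theorem c0 : os.length = 9 := by decide +kernel
theorem c0b : ls.length = 2 := by decide +kernel
theorem c1 : chkO env tab db os 0 = true := by decide +kernel
theorem c2 : chkL db ls 9 = true := by decide +kernel
theorem c3 : db.get (9 + 2 - 1) = 0 := by decide +kernel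
theorem cert {val : ℕ → Bool} (hm : Mod env val) : False :=
  cert_sound hm tab db os ls 9 2 c0 c0b c1 c2 (by norm_num) c3
theorem tab_ok : tabOK env kn sg = true := by decide +kernel

end Pool.Agent.TH651.RP5.FH
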