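import Pool.Agent.TH651.RP5.Tower

set_option autoImplicit false
set_option maxRecDepth 100000
set_option maxHeartbeats 0

namespace Pool.Agent.TH651.RP5.FI

open Pool.Agent.TH651.RP5

def T : Tr := (.nd (.nd (.nd (.nd .lf 1365 .lf) 2645 (.nd .lf 1385 .lf)) 1637 (.nd (.nd .lf 1370 .lf) 2390 .lf)) 2458 (.nd (.nd (.nd .lf 2725 .lf) 1705 .lf) 1450 (.nd (.nd .lf 2710 .lf) 2730 .lf)))
def U : Tr := (.nd (.nd (.nd (.nd .lf 2602 .lf) 1442 (.nd .lf 662 .lf)) 2456 (.nd (.nd .lf 2213 .lf) 1673 .lf)) 1636 (.nd (.nd (.nd .lf 1114 .lf) 2374 .lf) 2641 (.nd (.nd .lf 361 .lf) 1301 .lf)))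
def env : Env where
  n := 6
  T := T
  U := U
  nk := [1, 3, 6]
  full := []
  forb := []
  inv := 99
  ext := [[6],
   [10],
   [279, 2071, 2183, 4231, 4359, 555, 1067, 1099, 8267, 8715, 339, 8275, 10259, 675, 4259, 5155, 1347, 2691, 5379, 10755]]
def kn : List ℕ := [0, 1, 3, 7, 15, 31]
def sg : List ℕ := [0, 0, 1, 0, 3, 6]
def tab : Tr := (.nd (.nd (.nd (.nd (.nd .lf 4137 .lf) 2179 (.nd .lf 5377 .lf)) 37 (.nd (.nd .lf 1345 .lf) 533 .lf)) 11 (.nd (.nd (.nd .lf 673 .lf) 2115 .lf) 549 (.nd (.nd .lf 2689 .lf) 4357 .lf))) 3 (.nd (.nd (.nd (.nd .lf 5129 .lf) 1091 .lf) 139 (.nd (.nd .lf 2129 .lf) 4133 .lf)) 5 (.nd (.nd (.nd .lf 337 .lf) 277 .lf) 1035 (.nd (.nd .lf 2577 .lf) 169 .lf))))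
def db : Tr := (.nd (.nd (.nd (.nd (.nd .lf 17716740096 .lf) 294912 (.nd .lf 16 .lf)) 1152 (.nd (.nd .lf 4398046543872 .lf) 100663296 .lf)) 96 (.nd (.nd (.nd .lf 274878038016 .lf) 16779264 (.nd .lf 256 .lf)) 16896 (.nd (.nd .lf 70377334112256 .lf) 268435968 .lf))) 6 (.nd (.nd (.nd (.nd .lf 618475290624 .lf) 9437184 (.nd .lf 187649984473600 .lf)) 4608 (.nd (.nd .lf 26388279066624 .lf) 1610612736 .lf)) 264 (.nd (.nd (.nd .lf 1099512152064 .lf) 4196352 (.nd .lf 0 .lf)) 73728 (.nd (.nd .lf 1 .lf) 4294975488 .lf))))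
def os : List (Rs × ℕ) := [(.dsc 0 1 1, 12290),
 (.dsc 0 2 1, 28678),
 (.dsc 1 193 1, 36868),
 (.dsc 1 322 1, 45064),
 (.cyc 2 193 1, 53258),
 (.cyc 2 449 1, 61450),
 (.cyc 2 641 1, 69646),
 (.cyc 2 705 2, 65555),
 (.cyc 2 258 2, 98325),
 (.cyc 2 322 1, 102412),
 (.cyc 2 578 2, 49175),
 (.cyc 2 770 1, 110618),
 (.cyc 2 323 1, 127006),
 (.cyc 2 451 1, 118794),
 (.cyc 2 643 1, 135182),
 (.cyc 2 453 1, 143390),
 (.cyc 2 518 2, 163877),
 (.cyc 2 646 1, 159762),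
 (.cyc 2 710 1, 167956),
 (.cyc 2 711 1, 176144),
 (.cyc 2 713 2, 180269),
 (.cyc 2 778 1, 192546),
 (.ext 0, 1),
 (.ext 1, 5),
 (.ext 2, 20709873809871502377259090094660600136708062412836302241225486532403210)]
def ls : List ℕ := [281544082079747,
 14945952965290403436915005614517202749033026270854134752358376850381706835887129979585992459336738882493464175128936532621607944666959209679382652268534875312152]

theorem c0 : os.length = 25 := by decide +kernel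
theorem c0b : ls.length = 2 := by decide +kernel
theorem c1 : chkO env tab db os 0 = true := by decide +kernel
theorem c2 : chkL db ls 25 = true := by decide +kernel
theorem c3 : db.get (25 + 2 - 1) = 0 := by decide +kernel
theorem cert {val : ℕ → Bool} (hm : Mod env val) : False :=
  cert_sound hm tab db os ls 25 2 c0 c0b c1 c2 (by norm_num) c3
theorem tab_ok : tabOK env kn sg = true := by decide +kernel

end Pool.Agent.TH651.RP5.FI
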