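import Pool.Agent.TH651.RP5.Sem

/-!
Frames: enumerations of the vertices, their extension by blocks, relabelling, towers.
-/

set_option autoImplicit false
set_option linter.unusedSectionVars false

namespace Pool.Agent.TH651.RP5

section Frame

variable {X : Type} [Fintype X] [DecidableEq X] {g : SG X} {x : ℕ → X}

/-- sign of the pair of literals: `true` when not adjacent -/
def nadj (C : List ℕ) (l m : ℕ) : Bool :=
  ((if l / 2 < m / 2 then (C.getD (m / 2) 0).testBit (l / 2)
    else (C.getD (l / 2) 0).testBit (m / 2)) ^^ ((l + m) % 2 == 1))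

variable (g x) in
/-- partial knowledge of the signs -/
def Kn (n : ℕ) (kn sg : List ℕ) : Prop := ∀ i j, i < j → j < n →
  (kn.getD j 0).testBit i = true → (¬ g.Adj (x i) (x j) ↔ (sg.getD j 0).testBit i = true)

variable (g x) in
def Sg (n : ℕ) (C : List ℕ) : Prop := ∀ i j, i < j → j < n →
  (¬ g.Adj (x i) (x j) ↔ (C.getD j 0).testBit i = true)

def knb (kn : List ℕ) (l m : ℕ) : Bool :=
  if l / 2 < m / 2 then (kn.getD (m / 2) 0).testBit (l / 2)
    else (kn.getD (l / 2) 0).testBit (m / 2)

theorem nadj_spec {n : ℕ} (hi : Inj g x n) {kn sg : List ℕ} (hk : Kn g x n kn sg) {l m : ℕ}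
    (hl : l < 2 * n) (hm : m < 2 * n) (hne : l / 2 ≠ m / 2) (hb : knb kn l m = true) :
    nadj sg l m = true ↔ ¬ g.Adj (lt g x l) (lt g x m) := by
  rw [adj_lt hi hl hm hne]
  have key : (if l / 2 < m / 2 then (sg.getD (m / 2) 0).testBit (l / 2)
    else (sg.getD (l / 2) 0).testBit (m / 2)) = true ↔ ¬ g.Adj (x (l / 2)) (x (m / 2)) := by
    unfold knb at hb
    split_ifs at hb ⊢ with h
    · exact (hk (l / 2) (m / 2) h (by omega) hb).symm
    · have := (hk (m / 2) (l / 2) (by omega) (by omega) hb).symm
      rw [this]
      exact not_congr ⟨g.symm, g.symm⟩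
  unfold nadj
  generalize (if l / 2 < m / 2 then (sg.getD (m / 2) 0).testBit (l / 2)
    else (sg.getD (l / 2) 0).testBit (m / 2)) = b at key ⊢
  rcases Nat.mod_two_eq_zero_or_one (l + m) with h3 | h3
  · rw [h3]
    cases b
    · simp at key; simp [key]
    · simp at key; simp [key]
  · rw [h3]
    cases b
    · simp at key; simp [key]
    · simp at key; simp [key]

/-- complete knowledge version -/
theorem nadj_spec' {n : ℕ} (hi : Inj g x n) {C : List ℕ} (hk : Sg g x n C) {l m : ℕ}
    (hl : l < 2 * n) (hm : m < 2 * n) (hne : l / 2 ≠ m / 2) :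
    nadj C l m = true ↔ ¬ g.Adj (lt g x l) (lt g x m) := by
  rw [adj_lt hi hl hm hne]
  have key : (if l / 2 < m / 2 then (C.getD (m / 2) 0).testBit (l / 2)
    else (C.getD (l / 2) 0).testBit (m / 2)) = true ↔ ¬ g.Adj (x (l / 2)) (x (m / 2)) := by
    split_ifs with h
    · exact (hk (l / 2) (m / 2) h (by omega)).symm
    · have := (hk (m / 2) (l / 2) (by omega) (by omega)).symm
      rw [this]
      exact not_congr ⟨g.symm, g.symm⟩
  unfold nadj
  generalize (if l / 2 < m / 2 then (C.getD (m / 2) 0).testBit (l / 2)
    else (C.getD (l / 2) 0).testBit (m / 2)) = b at key ⊢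
  rcases Nat.mod_two_eq_zero_or_one (l + m) with h3 | h3
  · rw [h3]
    cases b
    · simp at key; simp [key]
    · simp at key; simp [key]
  · rw [h3]
    cases b
    · simp at key; simp [key]
    · simp at key; simp [key]

variable (g x) in
structure Fr (n : ℕ) (C : List ℕ) (A : Finset X) : Prop where
  inj : Inj g x n
  sg : Sg g x n C
  im : img g x (2 * n) = A

theorem img_card {n : ℕ} (h : Inj g x n) : (img g x (2 * n)).card = 2 * n := by
  rw [img, Finset.card_image_of_injOn, Finset.card_range]
  intro l hl m hm e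
  rw [Finset.mem_coe, Finset.mem_range] at hl hm
  exact lt_inj h hl hm e

theorem lt_mem_img {b l : ℕ} (hl : l < b) : lt g x l ∈ img g x b :=
  Finset.mem_image_of_mem _ (Finset.mem_range.mpr hl)

/-! ### relabelling -/

def relOK (n : ℕ) (C lam C' : List ℕ) : Bool :=
  (List.range n).all (fun j => Nat.ble (lam.getD j 0 + 1) (2 * n) && (List.range j).all (fun i =>
    (!(Nat.beq (lam.getD i 0 / 2) (lam.getD j 0 / 2))) &&
      ((C'.getD j 0).testBit i == nadj C (lam.getD i 0) (lam.getD j 0))))

theorem relabel {n : ℕ} {C C' lam : List ℕ} {A : Finset X} (h : Fr g x n C A)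
    (hr : relOK n C lam C' = true) : ∃ x' : ℕ → X, Fr g x' n C' A := by
  have hr1 : ∀ j < n, lam.getD j 0 < 2 * n := by
    intro j hj
    rw [relOK, List.all_eq_true] at hr
    have := hr j (List.mem_range.mpr hj)
    rw [Bool.and_eq_true, Nat.ble_eq] at this
    omega
  have hr2 : ∀ i j, i < j → j < n → lam.getD i 0 / 2 ≠ lam.getD j 0 / 2 ∧
      (C'.getD j 0).testBit i = nadj C (lam.getD i 0) (lam.getD j 0) := by
    intro i j hij hj
    rw [relOK, List.all_eq_true] at hr
    have := hr j (List.mem_range.mpr hj)
    rw [Bool.and_eq_true, List.all_eq_true] at this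
    have := this.2 i (List.mem_range.mpr hij)
    rw [Bool.and_eq_true, beq_iff_eq] at this
    refine ⟨fun e => ?_, this.2⟩
    rw [(beq_iff _ _).mpr e] at this
    exact absurd this.1 (by decide)
  let x' : ℕ → X := fun i => lt g x (lam.getD i 0)
  have hanti : ∀ l, lt g x (l ^^^ 1) = g.a (lt g x l) := lt_xor g x
  have hhalf : ∀ l : ℕ, (l ^^^ 1) / 2 = l / 2 := by
    intro l
    have := Nat.xor_div_two (a := l) (b := 1)
    simpa using this
  have hinj : Inj g x' n := by
    intro i hi j hj hij
    have hne : lam.getD i 0 / 2 ≠ lam.getD j 0 / 2 := by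
      rcases Nat.lt_or_gt_of_ne hij with h1 | h1
      · exact (hr2 i j h1 hj).1
      · exact fun e => (hr2 j i h1 hi).1 e.symm
    have h1 := hr1 i hi
    have h2 := hr1 j hj
    have h3 := hhalf (lam.getD j 0)
    constructor
    · intro e
      have := lt_inj h.inj h1 h2 e
      rw [this] at hne; exact hne rfl
    · intro e
      have e' : lt g x (lam.getD i 0) = lt g x (lam.getD j 0 ^^^ 1) := by rw [hanti]; exact e
      have := lt_inj h.inj h1 (by omega) e'
      rw [this, h3] at hne; exact hne rfl
  refine ⟨x', hinj, ?_, ?_⟩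
  · intro i j hij hj
    obtain ⟨h1, h2⟩ := hr2 i j hij hj
    rw [h2]
    exact (nadj_spec' h.inj h.sg (hr1 i (by omega)) (hr1 j hj) h1).symm
  · rw [← h.im]
    refine Finset.eq_of_subset_of_card_le ?_ ?_
    · intro v hv
      rw [img, Finset.mem_image] at hv
      obtain ⟨l, hl, rfl⟩ := hv
      rw [Finset.mem_range] at hl
      have hl2 := hr1 (l / 2) (by omega)
      have h3 := hhalf (lam.getD (l / 2) 0)
      unfold lt
      split_ifs
      · exact lt_mem_img hl2
      · show g.a (lt g x (lam.getD (l / 2) 0)) ∈ _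
        rw [← hanti]
        exact lt_mem_img (by omega)
    · rw [img_card hinj, img_card h.inj]

/-! ### extension by a block -/

/-- extension of an enumeration by a list -/
def ex (x : ℕ → X) (n : ℕ) (b : List X) : ℕ → X := fun i => if i < n then x i else b.getD (i - n) (x 0)

theorem ex_lt {n : ℕ} {b : List X} {i : ℕ} (h : i < n) : ex x n b i = x i := if_pos h

theorem ex_add {n : ℕ} {b : List X} {t : ℕ} (h : t < b.length) : ex x n b (n + t) = b[t] := by
  unfold ex
  rw [if_neg (by omega), Nat.add_sub_cancel_left, List.getD_eq_getElem _ _ h]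

theorem lt_ex {n : ℕ} {b : List X} {l : ℕ} (h : l < 2 * n) : lt g (ex x n b) l = lt g x l := by
  unfold lt
  rw [ex_lt (by omega)]

theorem img_ex {n : ℕ} {b : List X} {p : ℕ} (h : p ≤ n) :
    img g (ex x n b) (2 * p) = img g x (2 * p) := by
  unfold img
  refine Finset.image_congr (fun l hl => ?_)
  rw [Finset.mem_coe, Finset.mem_range] at hl
  exact lt_ex (by omega)

theorem ex_block {n : ℕ} {b : List X} :
    (Finset.Ico n (n + b.length)).image (ex x n b) = b.toFinset := by
  ext v
  rw [Finset.mem_image, List.mem_toFinset, List.mem_iff_getElem]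
  constructor
  · rintro ⟨i, hi, rfl⟩
    rw [Finset.mem_Ico] at hi
    refine ⟨i - n, by omega, ?_⟩
    rw [← ex_add (x := x) (n := n) (by omega)]
    congr 1; omega
  · rintro ⟨t, ht, rfl⟩
    exact ⟨n + t, Finset.mem_Ico.mpr ⟨by omega, by omega⟩, ex_add ht⟩

theorem ex_inj {n : ℕ} {b : List X} (hx : Inj g x n) (hb : b.Nodup) (hP : Clique g b.toFinset)
    (hd : Disjoint (img g x (2 * n)) (b.toFinset ∪ b.toFinset.image g.a)) :
    Inj g (ex x n b) (n + b.length) ∧
      img g (ex x n b) (2 * (n + b.length)) =
        img g x (2 * n) ∪ (b.toFinset ∪ b.toFinset.image g.a) := by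
  have hmem : ∀ i < n, x i ∈ img g x (2 * n) ∧ g.a (x i) ∈ img g x (2 * n) := by
    intro i hi
    refine ⟨?_, ?_⟩
    · rw [← lt_even g x]; exact lt_mem_img (by omega)
    · rw [← lt_odd g x]; exact lt_mem_img (by omega)
  have hbm : ∀ t (ht : t < b.length), b[t] ∈ b.toFinset :=
    fun t ht => List.mem_toFinset.mpr (List.getElem_mem ht)
  rw [Finset.disjoint_left] at hd
  have hinj : Inj g (ex x n b) (n + b.length) := by
    intro i hi j hj hij
    by_cases h1 : i < n
    · rw [ex_lt h1]
      by_cases h2 : j < n
      · rw [ex_lt h2]; exact hx i h1 j h2 hij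
      · obtain ⟨t, rfl⟩ := Nat.exists_eq_add_of_le (not_lt.mp h2)
        have ht : t < b.length := by omega
        rw [ex_add ht]
        constructor
        · intro e
          exact hd (hmem i h1).1 (e ▸ Finset.mem_union_left _ (hbm t ht))
        · intro e
          exact hd (hmem i h1).1 (e ▸ Finset.mem_union_right _
            (Finset.mem_image_of_mem _ (hbm t ht)))
    · obtain ⟨s, rfl⟩ := Nat.exists_eq_add_of_le (not_lt.mp h1)
      have hs : s < b.length := by omega
      rw [ex_add hs]
      by_cases h2 : j < n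
      · rw [ex_lt h2]
        constructor
        · intro e
          exact hd (hmem j h2).1 (e ▸ Finset.mem_union_left _ (hbm s hs))
        · intro e
          exact hd (hmem j h2).2 (e ▸ Finset.mem_union_left _ (hbm s hs))
      · obtain ⟨t, rfl⟩ := Nat.exists_eq_add_of_le (not_lt.mp h2)
        have ht : t < b.length := by omega
        rw [ex_add ht]
        constructor
        · intro e
          have := (List.Nodup.getElem_inj_iff hb).mp e
          omega
        · intro e
          refine Clique.not_anti hP hP (hbm s hs) (hbm s hs) (hbm s hs) ?_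
          rw [e]
          exact Finset.mem_image_of_mem _ (hbm t ht)
  refine ⟨hinj, ?_⟩
  ext v
  rw [Finset.mem_union, Finset.mem_union]
  constructor
  · intro hv
    rw [img, Finset.mem_image] at hv
    obtain ⟨l, hl, rfl⟩ := hv
    rw [Finset.mem_range] at hl
    by_cases h1 : l < 2 * n
    · left; rw [lt_ex h1]; exact lt_mem_img h1
    · right
      unfold lt
      obtain ⟨t, ht⟩ := Nat.exists_eq_add_of_le (show n ≤ l / 2 by omega)
      have htb : t < b.length := by omega
      rw [ht, ex_add htb]
      split_ifs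
      · exact Or.inl (hbm t htb)
      · exact Or.inr (Finset.mem_image_of_mem _ (hbm t htb))
  · intro hv
    rcases hv with hv | hv | hv
    · rw [img, Finset.mem_image] at hv
      obtain ⟨l, hl, rfl⟩ := hv
      rw [Finset.mem_range] at hl
      rw [← lt_ex (b := b) hl]
      exact lt_mem_img (by omega)
    · rw [List.mem_toFinset, List.mem_iff_getElem] at hv
      obtain ⟨t, ht, rfl⟩ := hv
      rw [← ex_add (x := x) (n := n) ht, ← lt_even g (ex x n b)]
      exact lt_mem_img (by omega)
    · rw [Finset.mem_image] at hv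
      obtain ⟨w, hw, rfl⟩ := hv
      rw [List.mem_toFinset, List.mem_iff_getElem] at hw
      obtain ⟨t, ht, rfl⟩ := hw
      rw [← ex_add (x := x) (n := n) ht, ← lt_odd g (ex x n b)]
      exact lt_mem_img (by omega)

open Classical in
variable (g x) in
/-- the row of signs of `v` with respect to the frame -/
noncomputable def row (n : ℕ) (v : X) : ℕ :=
  mkM ((List.range n).filter (fun i => ¬ g.Adj (x i) v))

open Classical in
theorem testBit_row {n : ℕ} {v : X} (i : ℕ) :
    (row g x n v).testBit i = true ↔ i < n ∧ ¬ g.Adj (x i) v := by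
  rw [row, testBit_mkM, List.mem_filter, List.mem_range, decide_eq_true_eq]

theorem row_lt {n : ℕ} {v : X} : row g x n v < 2 ^ n := by
  apply Nat.lt_pow_two_of_testBit
  intro i hi
  by_contra hcon
  rw [Bool.not_eq_false] at hcon
  have := (testBit_row i).mp hcon
  omega

theorem getD_append_left {C D : List ℕ} {j : ℕ} (h : j < C.length) :
    (C ++ D).getD j 0 = C.getD j 0 := by
  rw [List.getD_eq_getElem _ _ (by rw [List.length_append]; omega), List.getElem_append_left h,
    List.getD_eq_getElem]

/-- signs of the extended frame -/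
theorem ex_sg {n : ℕ} {C : List ℕ} {b : List X} (hC : C.length = n) (hs : Sg g x n C)
    (hb : b.Nodup) (hP : Clique g b.toFinset) :
    Sg g (ex x n b) (n + b.length) (C ++ b.map (row g x n)) := by
  intro i j hij hj
  by_cases h1 : j < n
  · rw [ex_lt (by omega), ex_lt h1, getD_append_left (by omega)]
    exact hs i j hij h1
  · obtain ⟨t, rfl⟩ := Nat.exists_eq_add_of_le (not_lt.mp h1)
    have ht : t < b.length := by omega
    have e : (C ++ b.map (row g x n)).getD (n + t) 0 = row g x n b[t] := by
      rw [List.getD_eq_getElem _ _ (by rw [List.length_append, List.length_map]; omega),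
        List.getElem_append_right (by omega), List.getElem_map]
      congr 2; omega
    rw [e, ex_add ht, testBit_row]
    by_cases h2 : i < n
    · rw [ex_lt h2]; tauto
    · obtain ⟨s, rfl⟩ := Nat.exists_eq_add_of_le (not_lt.mp h2)
      have hs' : s < b.length := by omega
      rw [ex_add hs']
      have hadj : g.Adj b[s] b[t] := by
        refine hP _ (List.mem_toFinset.mpr (List.getElem_mem hs')) _
          (List.mem_toFinset.mpr (List.getElem_mem ht)) ?_
        intro e2
        have := (List.Nodup.getElem_inj_iff hb).mp e2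
        omega
      constructor
      · intro h3; exact absurd hadj h3
      · intro h3; omega

/-- frame of an extension -/
theorem Fr.ext {n : ℕ} {C : List ℕ} {A : Finset X} {b : List X} (h : Fr g x n C A)
    (hC : C.length = n) (hb : b.Nodup) (hP : Clique g b.toFinset)
    (hd : Disjoint A (b.toFinset ∪ b.toFinset.image g.a)) :
    Fr g (ex x n b) (n + b.length) (C ++ b.map (row g x n))
      (A ∪ (b.toFinset ∪ b.toFinset.image g.a)) := by
  obtain ⟨h1, h2⟩ := ex_inj h.inj hb hP (by rw [h.im]; exact hd)
  exact ⟨h1, ex_sg hC h.sg hb hP, by rw [h2, h.im]⟩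

/-! ### normalized enumeration of a block -/

/-- A finite set in which each of the pairwise incompatible predicates `c t` is satisfied can be
enumerated so that the `t`-th element satisfies `c t`. -/
theorem exists_enum (P : Finset X) (T : ℕ) (c : ℕ → X → Prop)
    (h1 : ∀ t < T, ∃ v ∈ P, c t v) (h2 : ∀ s < T, ∀ t < T, s ≠ t → ∀ v ∈ P, c s v → c t v → False) :
    ∃ b : List X, b.Nodup ∧ b.toFinset = P ∧ T ≤ b.length ∧
      ∀ t (ht : t < b.length), t < T → c t b[t] := by
  rcases isEmpty_or_nonempty X with hE | hNE
  · have hT : T = 0 := by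
      by_contra hne
      obtain ⟨v, -⟩ := h1 0 (by omega)
      exact hE.elim v
    subst hT
    refine ⟨[], List.nodup_nil, ?_, by simp, fun t _ h => by omega⟩
    ext v; exact hE.elim v
  choose! f hf using h1
  let l1 : List X := (List.range T).map f
  have hl1 : l1.Nodup := by
    refine List.Nodup.map_on ?_ List.nodup_range
    intro s hs t ht e
    rw [List.mem_range] at hs ht
    by_contra hne
    refine h2 s hs t ht hne (f s) (hf s hs).1 (hf s hs).2 ?_
    rw [e]; exact (hf t ht).2
  let l2 : List X := (P \ l1.toFinset).toList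
  refine ⟨l1 ++ l2, ?_, ?_, ?_, ?_⟩
  · rw [List.nodup_append']
    refine ⟨hl1, Finset.nodup_toList _, ?_⟩
    intro v hv hv2
    rw [Finset.mem_toList, Finset.mem_sdiff, List.mem_toFinset] at hv2
    exact hv2.2 hv
  · ext v
    rw [List.mem_toFinset, List.mem_append, Finset.mem_toList, Finset.mem_sdiff, List.mem_toFinset]
    constructor
    · rintro (h | h)
      · rw [List.mem_map] at h
        obtain ⟨t, ht, rfl⟩ := h
        exact (hf t (List.mem_range.mp ht)).1
      · exact h.1
    · intro h
      by_cases h3 : v ∈ l1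
      · exact Or.inl h3
      · exact Or.inr ⟨h, h3⟩
  · simp [l1]
  · intro t ht htT
    rw [List.getElem_append_left (by simpa [l1] using htT), List.getElem_map, List.getElem_range]
    exact (hf t htT).2

end Frame

end Pool.Agent.TH651.RP5
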