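import Pool.Agent.TH651.RP5.Glue
import Pool.Agent.TH651.RP5.Consts
import Pool.Agent.TH651.RP5.FH
import Pool.Agent.TH651.RP5.FI
import Pool.Agent.TH651.RP5.FT

/-!
Good cycles on the hexagon, the icosahedron and the 32-vertex sphere are full.
-/

set_option autoImplicit false
set_option maxRecDepth 100000
set_option maxHeartbeats 0

namespace Pool.Agent.TH651.RP5

section Fulls

variable {X : Type} [Fintype X] [DecidableEq X] {g : SG X} {x : ℕ → X}

theorem full_hex {A : Finset X} (hFr : Fr g x 3 H3 A) {y : Ch X} (hy : Good g 1 A y) :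
    ∀ F ∈ HEX, y (fs g x F) = 1 :=
  full_of_cert (e := FH.env) (kn := FH.kn) (C := H3) (faces := HEX) (K := 1)
    (fun _ h => FH.cert h) FH.tab_ok (by decide +kernel) (by decide +kernel) (by decide +kernel)
    (by decide +kernel) (by decide +kernel) (by decide +kernel) (by decide +kernel)
    (by decide +kernel) (by decide +kernel) (by decide +kernel) (by decide +kernel) hFr hy

theorem full_ico {A : Finset X} (hFr : Fr g x 6 M6 A) {y : Ch X} (hy : Good g 2 A y) :
    ∀ F ∈ ICO, y (fs g x F) = 1 :=
  full_of_cert (e := FI.env) (kn := FI.kn) (C := M6) (faces := ICO) (K := 2)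
    (fun _ h => FI.cert h) FI.tab_ok (by decide +kernel) (by decide +kernel) (by decide +kernel)
    (by decide +kernel) (by decide +kernel) (by decide +kernel) (by decide +kernel)
    (by decide +kernel) (by decide +kernel) (by decide +kernel) (by decide +kernel) hFr hy

theorem full_t16 {A : Finset X} (hFr : Fr g x 16 T16 A) {y : Ch X} (hy : Good g 4 A y) :
    ∀ F ∈ FT16, y (fs g x F) = 1 :=
  full_of_cert (e := FT.env) (kn := FT.kn) (C := T16) (faces := FT16) (K := 4)
    (fun _ h => FT.cert h) FT.tab_ok (by decide +kernel) (by decide +kernel) (by decide +kernel)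
    (by decide +kernel) (by decide +kernel) (by decide +kernel) (by decide +kernel)
    (by decide +kernel) (by decide +kernel) (by decide +kernel) (by decide +kernel) hFr hy

end Fulls

end Pool.Agent.TH651.RP5
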