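import Pool.Agent.TH651.RP5.Enum

/-!
Gluing lemmas: cliques from signs, restriction of frames, full cycles, coverage.
-/

set_option autoImplicit false
set_option linter.unusedSectionVars false

namespace Pool.Agent.TH651.RP5

section Glue

variable {X : Type} [Fintype X] [DecidableEq X] {g : SG X} {x : ℕ → X}

/-- no signs inside the block -/
def clOK (C : List ℕ) (a b : ℕ) : Bool :=
  (List.range b).all (fun j => (List.range j).all (fun i =>
    decide (i < a) || !((C.getD j 0).testBit i)))

theorem blk_clique_of {a b : ℕ} (key : ∀ i j, a ≤ i → i < j → j < b → g.Adj (x i) (x j)) :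
    Clique g (blk x a b) := by
  intro u hu v hv huv
  simp only [blk, Finset.mem_image, Finset.mem_Ico] at hu hv
  obtain ⟨i, ⟨hi1, hi2⟩, rfl⟩ := hu
  obtain ⟨j, ⟨hj1, hj2⟩, rfl⟩ := hv
  rcases lt_trichotomy i j with h3 | h3 | h3
  · exact key i j hi1 h3 hj2
  · subst h3; exact absurd rfl huv
  · exact g.symm (key j i hj1 h3 hi2)

theorem blk_clique {n : ℕ} {C : List ℕ} (hs : Sg g x n C) {a b : ℕ} (hb : b ≤ n)
    (h : clOK C a b = true) : Clique g (blk x a b) := by
  refine blk_clique_of ?_
  intro i j hai hij hj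
  rw [clOK, List.all_eq_true] at h
  have h1 := h j (List.mem_range.mpr hj)
  rw [List.all_eq_true] at h1
  have h2 := h1 i (List.mem_range.mpr hij)
  rw [Bool.or_eq_true, decide_eq_true_eq] at h2
  rcases h2 with h2 | h2
  · omega
  · by_contra hcon
    rw [(hs i j hij (by omega)).mp hcon] at h2
    exact absurd h2 (by decide)

def eqC (p : ℕ) (C C' : List ℕ) : Bool :=
  (List.range p).all (fun j => (List.range j).all (fun i =>
    (C.getD j 0).testBit i == (C'.getD j 0).testBit i))

theorem Sg.congr {n p : ℕ} {C C' : List ℕ} (hs : Sg g x n C) (hp : p ≤ n)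
    (he : eqC p C C' = true) : Sg g x p C' := by
  intro i j hij hj
  rw [eqC, List.all_eq_true] at he
  have h1 := he j (List.mem_range.mpr hj)
  rw [List.all_eq_true] at h1
  have h2 := h1 i (List.mem_range.mpr hij)
  rw [beq_iff_eq] at h2
  rw [← h2]
  exact hs i j hij (by omega)

theorem Inj.take {n p : ℕ} (h : Inj g x n) (hp : p ≤ n) : Inj g x p :=
  fun i hi j hj hij => h i (by omega) j (by omega) hij

theorem Fr.take {n p : ℕ} {C C' : List ℕ} {A : Finset X} (h : Fr g x n C A) (hp : p ≤ n)
    (he : eqC p C C' = true) : Fr g x p C' (img g x (2 * p)) :=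
  ⟨h.inj.take hp, h.sg.congr hp he, rfl⟩

theorem img_two : img g x (2 * 1) = {x 0} ∪ ({x 0} : Finset X).image g.a := by
  ext v
  rw [mem_img, Finset.mem_union, Finset.mem_singleton, Finset.mem_image]
  constructor
  · rintro ⟨l, hl, rfl⟩
    have : l = 0 ∨ l = 1 := by omega
    rcases this with rfl | rfl
    · left; exact lt_even g x 0
    · right; exact ⟨x 0, Finset.mem_singleton_self _, (lt_odd g x 0).symm⟩
  · rintro (rfl | ⟨w, hw, rfl⟩)
    · exact ⟨0, by omega, lt_even g x 0⟩
    · rw [Finset.mem_singleton] at hw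
      subst hw
      exact ⟨1, by omega, lt_odd g x 0⟩

theorem fs_one : fs g x 1 = {x 0} := by
  have : FS 1 = {0} := by decide +kernel
  rw [fs, this, Finset.image_singleton]
  congr 1

theorem fs_two : fs g x 2 = {g.a (x 0)} := by
  have : FS 2 = {1} := by decide +kernel
  rw [fs, this, Finset.image_singleton]
  congr 1

theorem litT_Y (y : ℕ → Ch X) (F : ℕ) :
    litT (vl g x y) (4 * F + 2) ↔ y ((FS F).card - 1) (fs g x F) = 1 := by
  have e : 4 * F + 2 = 2 * codeY F + 0 := by unfold codeY; ring
  rw [e, litT_code _ _ _ (by norm_num), ← vl_Y]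
  simp

theorem litT_Y' (y : ℕ → Ch X) (F : ℕ) :
    litT (vl g x y) (4 * F + 3) ↔ ¬ y ((FS F).card - 1) (fs g x F) = 1 := by
  have e : 4 * F + 3 = 2 * codeY F + 1 := by unfold codeY; ring
  rw [e, litT_code _ _ _ (by norm_num), ← vl_Y]
  simp

theorem full_of_cert {e : Env} {kn C faces : List ℕ} {K : ℕ}
    (hcert : ∀ val, Mod e val → False) (htab : tabOK e kn C = true)
    (hlen : e.nk.length = K + 1) (hn : e.n ≤ 16) (htop : e.nk.getD K 0 = e.n)
    (hmono : ∀ k < K, e.nk.getD k 0 ≤ e.nk.getD (k + 1) 0)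
    (h0 : e.nk.getD 0 0 = 1) (hfull : e.full = []) (hforb : e.forb = [])
    (hinv : e.nk.getD e.inv 0 = 0)
    (hcl : ∀ k < K, clOK C (e.nk.getD k 0) (e.nk.getD (k + 1) 0) = true)
    (hext : e.ext = [[6], [10], faces.map (fun F => 4 * F + 3)])
    (hK : ∀ F ∈ faces, (FS F).card = K + 1)
    {A : Finset X} (hFr : Fr g x e.n C A) {y : Ch X} (hy : Good g K A y) :
    ∀ F ∈ faces, y (fs g x F) = 1 := by
  by_contra hcon
  push Not at hcon
  obtain ⟨F0, hF0, hF1⟩ := hcon
  have hle0 : ∀ j, ∀ k, k + j = K → e.nk.getD k 0 ≤ e.n := by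
    intro j
    induction j with
    | zero => intro k hk; rw [← htop]; simp at hk; rw [hk]
    | succ j ih => intro k hk; exact (hmono k (by omega)).trans (ih (k + 1) (by omega))
  have hTH : TH g x e 0 K y :=
    { hlen := hlen
      hk := Nat.zero_le _
      hn := hn
      htop := htop
      inj := hFr.inj
      mono := fun k _ hk => hmono k hk
      zero := fun k hk => absurd hk (Nat.not_lt_zero _)
      cl := fun k _ hk => blk_clique hFr.sg (hle0 (K - (k + 1)) (k + 1) (by omega)) (hcl k hk)
      top := by rw [hFr.im]; exact hy }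
  have hs := hTH.sem (kn := kn) (sg := C) (fun i j hij hj _ => hFr.sg i j hij hj) htab
    (by rw [hfull]; simp) (inv_trivial hinv _) (by rw [hforb]; simp)
  have hg0 := hTH.good K 0 (by omega) (le_refl 0)
  rw [h0, img_two] at hg0
  have hc1 : Clique g {x 0} := by
    intro u hu v hv huv
    rw [Finset.mem_singleton] at hu hv
    exact absurd (hu.trans hv.symm) huv
  have hl1 := Good.last g hc1 hg0
  rw [Finset.sum_singleton] at hl1
  have hl2 := Good.last g hc1.image (by rw [image_image g.ha, Finset.union_comm]; exact hg0)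
  rw [Finset.image_singleton, Finset.sum_singleton] at hl2
  refine hcert _ (hs.mod ?_)
  intro c hc
  rw [hext] at hc
  simp only [List.mem_cons, List.not_mem_nil, or_false] at hc
  rcases hc with rfl | rfl | rfl
  · refine ⟨4 * 1 + 2, by simp, (litT_Y _ 1).mpr ?_⟩
    have : (FS 1).card - 1 = 0 := by decide +kernel
    rw [this, fs_one]; exact hl1
  · refine ⟨4 * 2 + 2, by simp, (litT_Y _ 2).mpr ?_⟩
    have : (FS 2).card - 1 = 0 := by decide +kernel
    rw [this, fs_two]; exact hl2
  · refine ⟨4 * F0 + 3, List.mem_map.mpr ⟨F0, hF0, rfl⟩, (litT_Y' _ F0).mpr ?_⟩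
    rw [hK F0 hF0, Nat.add_sub_cancel, tw, twr_top (Nat.zero_le _)]
    exact hF1

/-- one step of coverage -/
theorem cover_step {A P : Finset X} {k : ℕ} {y : Ch X} (hs : Supp g k A y) {F : Finset X}
    (hF : D g P y F = 1) : ∃ v ∈ P, y (insert v F) = 1 ∧ ∀ u ∈ F, g.Adj u v := by
  have hd : Disjoint F (P ∪ P.image g.a) := by
    by_contra h
    simp only [D, h, if_false] at hF
    exact zero_ne_one hF
  simp only [D, hd, if_true] at hF
  obtain ⟨v, hv, hne⟩ := Finset.exists_ne_zero_of_sum_ne_zero (by rw [hF]; exact one_ne_zero)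
  obtain ⟨-, h2, -⟩ := hs _ hne
  have hvF : v ∉ F := fun h => Finset.disjoint_left.mp hd h (Finset.mem_union_left _ hv)
  refine ⟨v, hv, z2_ne_zero.mp hne, fun u hu => ?_⟩
  exact h2 u (Finset.mem_insert_of_mem hu) v (Finset.mem_insert_self _ _)
    (fun e => hvF (e ▸ hu))

theorem cov_of_adj {n : ℕ} (hn : n ≤ 16) {F : ℕ} {v : X} {G : Finset X} (hG : fs g x F ⊆ G)
    (h : ∀ u ∈ G, g.Adj u v) : Cvr g x n v F := by
  intro l hl hFl
  exact h _ (hG (Finset.mem_image_of_mem _ (mem_FS.mpr ⟨by omega, hFl⟩)))

/-- consistency of the known signs with an extension -/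
def knOK (n m : ℕ) (C Ns kn sg : List ℕ) : Bool :=
  (List.range n).all (fun j => (List.range j).all (fun i =>
    !((kn.getD j 0).testBit i) || ((C.getD j 0).testBit i == (sg.getD j 0).testBit i))) &&
  (List.range m).all (fun t => (List.range (n + t)).all (fun i =>
    !((kn.getD (n + t) 0).testBit i) || (if i < n then
      (decide (t < Ns.length) && (((Ns.getD t 0).testBit (2 * i) && !((sg.getD (n + t) 0).testBit i))
        || ((Ns.getD t 0).testBit (2 * i + 1) && (sg.getD (n + t) 0).testBit i)))
      else !((sg.getD (n + t) 0).testBit i))))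

theorem ext_kn {n : ℕ} {C Ns kn sg : List ℕ} {A : Finset X} {b : List X} (h : Fr g x n C A)
    (hC : C.length = n) (hb : b.Nodup) (hP : Clique g b.toFinset)
    (hd : Disjoint A (b.toFinset ∪ b.toFinset.image g.a))
    (hc : ∀ t (ht : t < b.length), t < Ns.length → Cvr g x n b[t] (Ns.getD t 0))
    (hk : knOK n b.length C Ns kn sg = true) : Kn g (ex x n b) (n + b.length) kn sg := by
  obtain ⟨h1, h2, h3⟩ := h.ext hC hb hP hd
  rw [knOK, Bool.and_eq_true, List.all_eq_true, List.all_eq_true] at hk
  obtain ⟨hk1, hk2⟩ := hk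
  intro i j hij hj hbit
  by_cases hjn : j < n
  · rw [ex_lt hjn, ex_lt (by omega)]
    have h4 := hk1 j (List.mem_range.mpr hjn)
    rw [List.all_eq_true] at h4
    have h5 := h4 i (List.mem_range.mpr hij)
    rw [hbit, Bool.not_true, Bool.false_or, beq_iff_eq] at h5
    rw [← h5]
    exact h.sg i j hij hjn
  · obtain ⟨t, rfl⟩ := Nat.exists_eq_add_of_le (not_lt.mp hjn)
    have ht : t < b.length := by omega
    have h4 := hk2 t (List.mem_range.mpr ht)
    rw [List.all_eq_true] at h4
    have h5 := h4 i (List.mem_range.mpr hij)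
    rw [hbit, Bool.not_true, Bool.false_or] at h5
    by_cases hin : i < n
    · rw [if_pos hin, Bool.and_eq_true, decide_eq_true_eq] at h5
      obtain ⟨h6, h7⟩ := h5
      have h8 := hc t ht h6
      rw [ex_lt hin, ex_add ht]
      rw [Bool.or_eq_true, Bool.and_eq_true, Bool.and_eq_true, Bool.not_eq_true'] at h7
      rcases h7 with ⟨h7, h9⟩ | ⟨h7, h9⟩
      · have h10 := h8 (2 * i) (by omega) h7
        rw [lt_even] at h10
        rw [h9]
        constructor
        · intro hn; exact absurd h10 hn
        · intro hf; exact absurd hf (by decide)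
      · have h10 := h8 (2 * i + 1) (by omega) h7
        rw [lt_odd, anti_adj] at h10
        rw [h9]
        constructor
        · intro _; rfl
        · intro _ hf; exact g.excl hf h10
    · rw [if_neg hin, Bool.not_eq_true'] at h5
      rw [h5]
      obtain ⟨s, rfl⟩ := Nat.exists_eq_add_of_le (not_lt.mp hin)
      have hs' : s < b.length := by omega
      rw [ex_add hs', ex_add ht]
      have hadj : g.Adj b[s] b[t] := by
        refine hP _ (List.mem_toFinset.mpr (List.getElem_mem hs')) _
          (List.mem_toFinset.mpr (List.getElem_mem ht)) ?_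
        intro e2
        have := (List.Nodup.getElem_inj_iff hb).mp e2
        omega
      constructor
      · intro h3; exact absurd hadj h3
      · intro h3; exact absurd h3 (by decide)

def incN (n : ℕ) (Ns : List ℕ) : Bool :=
  (List.range Ns.length).all (fun s => (List.range Ns.length).all (fun t =>
    Nat.beq s t || (List.range (2 * n)).any (fun l =>
      (Ns.getD s 0).testBit l && (Ns.getD t 0).testBit (l ^^^ 1))))

/-- extension of a frame by a clique normalized on pairwise incompatible faces -/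
theorem ext_frame {n m : ℕ} {C Ns kn sg : List ℕ} {A P : Finset X} (h : Fr g x n C A)
    (hC : C.length = n) (hP : Clique g P) (hm : P.card = m)
    (hd : Disjoint A (P ∪ P.image g.a))
    (hcov : ∀ F ∈ Ns, ∃ v ∈ P, Cvr g x n v F) (hinc : incN n Ns = true)
    (hk : knOK n m C Ns kn sg = true) : ∃ x' : ℕ → X, (∀ i < n, x' i = x i) ∧
      Inj g x' (n + m) ∧ img g x' (2 * (n + m)) = A ∪ (P ∪ P.image g.a) ∧
      blk x' n (n + m) = P ∧ Kn g x' (n + m) kn sg := by
  obtain ⟨b, hb1, hb2, hb3, hb4⟩ := exists_enum P Ns.length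
    (fun t v => Cvr g x n v (Ns.getD t 0)) (by
      intro t ht
      refine hcov _ ?_
      rw [List.getD_eq_getElem _ _ ht]
      exact List.getElem_mem ht) (by
      intro s hs t ht hst v _ h1 h2
      rw [incN, List.all_eq_true] at hinc
      have h4 := hinc s (List.mem_range.mpr hs)
      rw [List.all_eq_true] at h4
      have h5 := h4 t (List.mem_range.mpr ht)
      have h6 : Nat.beq s t = false := by
        rw [← Bool.not_eq_true, beq_iff]; exact hst
      rw [h6, Bool.false_or, List.any_eq_true] at h5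
      obtain ⟨l, hl, hl2⟩ := h5
      rw [List.mem_range] at hl
      rw [Bool.and_eq_true] at hl2
      have h7 := h1 l hl hl2.1
      have hx : l ^^^ 1 < 2 * n := by
        have h3 : (l ^^^ 1) / 2 = l / 2 := by
          have := Nat.xor_div_two (a := l) (b := 1)
          simpa using this
        omega
      have h8 := h2 (l ^^^ 1) hx hl2.2
      rw [lt_xor, anti_adj] at h8
      exact g.excl h7 h8)
  have hblen : b.length = m := by
    rw [← hm, ← hb2, List.toFinset_card_of_nodup hb1]
  have hF1 := h.ext (b := b) hC hb1 (by rw [hb2]; exact hP) (by rw [hb2]; exact hd)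
  have hK1 := ext_kn (kn := kn) (sg := sg) (Ns := Ns) h hC hb1 (by rw [hb2]; exact hP)
    (by rw [hb2]; exact hd) (fun t ht ht2 => hb4 t ht ht2) (by rw [hblen]; exact hk)
  have hB : blk (ex x n b) n (n + b.length) = b.toFinset := ex_block
  rw [hb2, hblen] at hF1 hB
  rw [hblen] at hK1
  exact ⟨ex x n b, fun i hi => ex_lt hi, hF1.inj, hF1.im, hB, hK1⟩

end Glue

end Pool.Agent.TH651.RP5
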