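import Mathlib

/-!
Discrete path lifting for a two-to-one quotient by a fixed point free isometric involution.
-/

set_option autoImplicit false
set_option linter.unusedSectionVars false

namespace Pool.Agent.TH651.RP5

section Lift

variable {S : Type} [MetricSpace S] [CompactSpace S] (ng : S → S)
variable {E : Type} [NormedAddCommGroup E] [NormedSpace ℝ E] (q : S → E) (R : Set E)

/-- the data of the double cover `q : S → R` -/
structure Cov : Prop where
  cont : Continuous q
  ngcont : Continuous ng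
  nn : ∀ x, ng (ng x) = x
  far : ∀ x, dist x (ng x) = 2
  iso : ∀ x y, dist (ng x) (ng y) = dist x y
  qn : ∀ x, q (ng x) = q x
  fib : ∀ x y, q x = q y → y = x ∨ y = ng x
  mem : ∀ x, q x ∈ R
  surj : ∀ p ∈ R, ∃ x, q x = p

variable {ng q R}

theorem Cov.dichotomy (h : Cov ng q R) : ∃ δ > 0, ∀ x y : S, dist (q x) (q y) < δ →
    dist x y < 1 / 4 ∨ dist x (ng y) < 1 / 4 := by
  let T : Set (S × S) := {z | 1 / 4 ≤ dist z.1 z.2 ∧ 1 / 4 ≤ dist z.1 (ng z.2)}
  have hT : IsCompact T := by
    apply IsClosed.isCompact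
    have h1 : Continuous fun z : S × S => dist z.1 z.2 := by fun_prop
    have h2 : Continuous fun z : S × S => dist z.1 (ng z.2) :=
      continuous_fst.dist (h.ngcont.comp continuous_snd)
    exact (isClosed_le continuous_const h1).inter (isClosed_le continuous_const h2)
  have hc : Continuous fun z : S × S => dist (q z.1) (q z.2) :=
    (h.cont.comp continuous_fst).dist (h.cont.comp continuous_snd)
  rcases T.eq_empty_or_nonempty with hE | hne
  · refine ⟨1, one_pos, fun x y _ => ?_⟩
    by_contra hcon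
    push Not at hcon
    have : (x, y) ∈ T := hcon
    rw [hE] at this
    exact this
  · obtain ⟨z, hz, hmin⟩ := hT.exists_isMinOn hne hc.continuousOn
    refine ⟨dist (q z.1) (q z.2), ?_, ?_⟩
    · apply dist_pos.mpr
      intro e
      rcases h.fib _ _ e with h1 | h1
      · have := hz.1
        rw [h1, dist_self] at this
        linarith
      · have := hz.2
        rw [h1, h.nn, dist_self] at this
        linarith
    · intro x y hxy
      by_contra hcon
      push Not at hcon
      have hm : (x, y) ∈ T := hcon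
      have := hmin hm
      simp only [Set.mem_ofPred_eq] at this
      linarith

open Classical in
/-- a chosen preimage -/
noncomputable def pre (q : S → E) [Nonempty S] (p : E) : S :=
  if h : ∃ x, q x = p then h.choose else Classical.arbitrary S

theorem q_pre (h : Cov ng q R) [Nonempty S] {p : E} (hp : p ∈ R) : q (pre q p) = p := by
  have := h.surj p hp
  rw [pre, dif_pos this]
  exact this.choose_spec

open Classical in
/-- the preimage of `p` close to `x` -/
noncomputable def nxt (ng : S → S) (q : S → E) [Nonempty S] (x : S) (p : E) : S :=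
  if dist (pre q p) x < 1 / 4 then pre q p else ng (pre q p)

theorem nxt_spec (h : Cov ng q R) [Nonempty S] {δ : ℝ}
    (hδ : ∀ x y : S, dist (q x) (q y) < δ → dist x y < 1 / 4 ∨ dist x (ng y) < 1 / 4)
    {x : S} {p : E} (hp : p ∈ R) (hx : dist (q x) p < δ) :
    q (nxt ng q x p) = p ∧ dist x (nxt ng q x p) < 1 / 4 := by
  have h1 := q_pre h hp
  unfold nxt
  split_ifs with hc
  · exact ⟨h1, by rwa [dist_comm]⟩
  · refine ⟨by rw [h.qn, h1], ?_⟩
    rcases hδ x (pre q p) (by rwa [h1]) with h2 | h2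
    · rw [dist_comm] at h2
      exact absurd h2 hc
    · exact h2

theorem close_contra (h : Cov ng q R) {x y : S} (h1 : dist x y < 1)
    (h2 : dist x (ng y) < 1) : False := by
  have h3 := h.far y
  have := dist_triangle_left y (ng y) x
  linarith

theorem nxt_ng (h : Cov ng q R) [Nonempty S] {δ : ℝ}
    (hδ : ∀ x y : S, dist (q x) (q y) < δ → dist x y < 1 / 4 ∨ dist x (ng y) < 1 / 4)
    {x : S} {p : E} (hp : p ∈ R) (hx : dist (q x) p < δ) :
    nxt ng q (ng x) p = ng (nxt ng q x p) := by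
  have h1 := nxt_spec h hδ hp hx
  have h2 := nxt_spec h hδ (x := ng x) hp (by rwa [h.qn])
  rcases h.fib _ _ (h1.1.trans h2.1.symm) with h3 | h3
  · exfalso
    rw [h3] at h2
    refine close_contra h (x := nxt ng q x p) (y := x) ?_ ?_
    · rw [dist_comm]; linarith [h1.2]
    · rw [dist_comm]; linarith [h2.2]
  · exact h3

/-- discrete lift of a path of points -/
noncomputable def lft (ng : S → S) (q : S → E) [Nonempty S] (γ : ℕ → E) (x : S) : ℕ → S
  | 0 => x
  | i + 1 => nxt ng q (lft ng q γ x i) (γ (i + 1))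

section

variable (h : Cov ng q R) [Nonempty S] {δ : ℝ}
    (hδ : ∀ x y : S, dist (q x) (q y) < δ → dist x y < 1 / 4 ∨ dist x (ng y) < 1 / 4)

include h hδ

theorem q_lft {γ : ℕ → E} {x : S} (h0 : q x = γ 0) (hR : ∀ i, γ i ∈ R)
    (hs : ∀ i, dist (γ i) (γ (i + 1)) < δ) (i : ℕ) : q (lft ng q γ x i) = γ i := by
  induction i with
  | zero => exact h0
  | succ i ih => exact (nxt_spec h hδ (hR (i + 1)) (by rw [ih]; exact hs i)).1

theorem dist_lft {γ : ℕ → E} {x : S} (h0 : q x = γ 0) (hR : ∀ i, γ i ∈ R)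
    (hs : ∀ i, dist (γ i) (γ (i + 1)) < δ) (i : ℕ) :
    dist (lft ng q γ x i) (lft ng q γ x (i + 1)) < 1 / 4 :=
  (nxt_spec h hδ (hR (i + 1)) (by rw [q_lft h hδ h0 hR hs i]; exact hs i)).2

theorem lft_ng {γ : ℕ → E} {x : S} (h0 : q x = γ 0) (hR : ∀ i, γ i ∈ R)
    (hs : ∀ i, dist (γ i) (γ (i + 1)) < δ) (i : ℕ) :
    lft ng q γ (ng x) i = ng (lft ng q γ x i) := by
  induction i with
  | zero => rfl
  | succ i ih =>
    rw [lft, ih, nxt_ng h hδ (hR (i + 1)) (by rw [q_lft h hδ h0 hR hs i]; exact hs i)]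
    rfl

theorem lft_close {γ γ' : ℕ → E} {x x' : S} (h0 : q x = γ 0) (h0' : q x' = γ' 0)
    (hR : ∀ i, γ i ∈ R) (hR' : ∀ i, γ' i ∈ R)
    (hs : ∀ i, dist (γ i) (γ (i + 1)) < δ) (hs' : ∀ i, dist (γ' i) (γ' (i + 1)) < δ)
    (hc : ∀ i, dist (γ i) (γ' i) < δ) (hx : dist x x' < 1 / 4) (i : ℕ) :
    dist (lft ng q γ x i) (lft ng q γ' x' i) < 1 / 4 := by
  induction i with
  | zero => exact hx
  | succ i ih =>
    have e1 := dist_lft h hδ h0 hR hs i
    have e2 := dist_lft h hδ h0' hR' hs' i
    have e3 := hδ (lft ng q γ x (i + 1)) (lft ng q γ' x' (i + 1))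
      (by rw [q_lft h hδ h0 hR hs, q_lft h hδ h0' hR' hs']; exact hc _)
    rcases e3 with e3 | e3
    · exact e3
    · exfalso
      refine close_contra h (x := lft ng q γ x (i + 1)) (y := lft ng q γ' x' (i + 1)) ?_ ?_
      · have t1 := dist_triangle4 (lft ng q γ x (i + 1)) (lft ng q γ x i) (lft ng q γ' x' i)
          (lft ng q γ' x' (i + 1))
        rw [dist_comm (lft ng q γ x (i + 1)) (lft ng q γ x i)] at t1
        linarith
      · linarith

end

/-- the straight path from `p` to `m` in `N` steps (constant afterwards) -/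
noncomputable def seg (N : ℕ) (p m : E) (i : ℕ) : E :=
  AffineMap.lineMap p m (min ((i : ℝ) / N) 1)

theorem seg_zero (N : ℕ) (p m : E) : seg N p m 0 = p := by
  simp [seg]

theorem seg_end {N : ℕ} (hN : 0 < N) (p m : E) : seg N p m N = m := by
  have : (N : ℝ) / N = 1 := div_self (by positivity)
  simp [seg, this]

theorem seg_param {N : ℕ} (i : ℕ) : 0 ≤ min ((i : ℝ) / N) 1 ∧ min ((i : ℝ) / N) 1 ≤ 1 :=
  ⟨le_min (by positivity) zero_le_one, min_le_right _ _⟩

theorem seg_mem {C : Set E} (hC : Convex ℝ C) {p m : E} (hp : p ∈ C) (hm : m ∈ C) (N i : ℕ) :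
    seg N p m i ∈ C := by
  have := seg_param (N := N) i
  exact hC.lineMap_mem hp hm ⟨this.1, this.2⟩

theorem seg_step {N : ℕ} (hN : 0 < N) {p m : E} {B δ : ℝ} (hB : dist p m ≤ B)
    (hBN : B < N * δ) (i : ℕ) : dist (seg N p m i) (seg N p m (i + 1)) < δ := by
  have hNr : (0 : ℝ) < N := by positivity
  rw [seg, seg, dist_lineMap_lineMap, Real.dist_eq]
  have h1 : |min ((i : ℝ) / N) 1 - min (((i + 1 : ℕ) : ℝ) / N) 1| ≤ 1 / N := by
    have h2 : (((i + 1 : ℕ) : ℝ)) / N = (i : ℝ) / N + 1 / N := by push_cast; ring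
    rw [h2]
    have h3 : (0 : ℝ) ≤ 1 / N := by positivity
    rw [abs_le]
    constructor
    · have : min ((i : ℝ) / N + 1 / N) 1 ≤ min ((i : ℝ) / N) 1 + 1 / N := by
        rcases le_total ((i : ℝ) / N) 1 with h4 | h4
        · rw [min_eq_left h4]; exact min_le_left _ _
        · rw [min_eq_right h4]; exact (min_le_right _ _).trans (by linarith)
      linarith
    · have : min ((i : ℝ) / N) 1 ≤ min ((i : ℝ) / N + 1 / N) 1 :=
        min_le_min_right _ (by linarith)
      linarith
  have h5 : 0 ≤ dist p m := dist_nonneg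
  calc |min ((i : ℝ) / N) 1 - min (((i + 1 : ℕ) : ℝ) / N) 1| * dist p m ≤ 1 / N * B := by
        gcongr
    _ < δ := by
        rw [div_mul_eq_mul_div, one_mul, div_lt_iff₀ hNr]
        linarith

theorem seg_dist {N : ℕ} (p p' m : E) (i : ℕ) :
    dist (seg N p m i) (seg N p' m i) ≤ dist p p' := by
  have h := seg_param (N := N) i
  rw [seg, seg]
  set t := min ((i : ℝ) / N) 1
  rw [AffineMap.lineMap_apply_module, AffineMap.lineMap_apply_module, dist_add_right, dist_smul₀,
    Real.norm_eq_abs, abs_of_nonneg (by linarith [h.2])]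
  have := dist_nonneg (x := p) (y := p')
  nlinarith [h.1]

section Side

variable (ng q R)

/-- a scale `δ`, a number of steps `N`, and a bound on the diameter -/
structure Scale (δ : ℝ) (N : ℕ) : Prop where
  pos : 0 < N
  dich : ∀ x y : S, dist (q x) (q y) < δ → dist x y < 1 / 4 ∨ dist x (ng y) < 1 / 4
  step : ∀ p ∈ R, ∀ m ∈ R, dist p m < N * δ

variable {ng q R}

theorem Scale.seg_step {δ : ℝ} {N : ℕ} (hs : Scale ng q R δ N) {p m : E} (hp : p ∈ R)
    (hm : m ∈ R) (i : ℕ) : dist (seg N p m i) (seg N p m (i + 1)) < δ :=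
  RP5.seg_step hs.pos le_rfl (hs.step p hp m hm) i

/-- `p` and `m` lie in a convex subset of `R` -/
def Seen (R : Set E) (p m : E) : Prop := ∃ C : Set E, Convex ℝ C ∧ C ⊆ R ∧ p ∈ C ∧ m ∈ C

open Classical in
/-- which of the two preimages of `v` is reached from `x` by the lift of the straight path -/
noncomputable def side (ng : S → S) (q : S → E) [Nonempty S] (N : ℕ) (v : E) (x : S) : Bool :=
  decide (lft ng q (seg N (q x) v) x N = pre q v)

variable (h : Cov ng q R) [Nonempty S] {δ : ℝ} {N : ℕ} (hs : Scale ng q R δ N)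

include h hs

theorem end_lft {x : S} {v : E} (hv : Seen R (q x) v) :
    lft ng q (seg N (q x) v) x N = pre q v ∨ lft ng q (seg N (q x) v) x N = ng (pre q v) := by
  obtain ⟨C, hC, hCR, hp, hm⟩ := hv
  have h1 := q_lft h hs.dich (γ := seg N (q x) v) (x := x) (seg_zero _ _ _).symm
    (fun i => hCR (seg_mem hC hp hm N i)) (fun i => hs.seg_step (hCR hp) (hCR hm) i) N
  rw [seg_end hs.pos] at h1
  have h2 : q (pre q v) = v := q_pre h (hCR hm)
  exact h.fib _ _ (h2.trans h1.symm)

theorem side_ng {x : S} {v : E} (hv : Seen R (q x) v) :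
    side ng q N v (ng x) = !side ng q N v x := by
  obtain ⟨C, hC, hCR, hp, hm⟩ := hv
  have e1 : lft ng q (seg N (q (ng x)) v) (ng x) N = ng (lft ng q (seg N (q x) v) x N) := by
    rw [h.qn]
    exact lft_ng h hs.dich (γ := seg N (q x) v) (x := x) (seg_zero _ _ _).symm
      (fun i => hCR (seg_mem hC hp hm N i)) (fun i => hs.seg_step (hCR hp) (hCR hm) i) N
  have e2 := end_lft h hs (x := x) (v := v) ⟨C, hC, hCR, hp, hm⟩
  have e3 : ng (pre q v) ≠ pre q v := by
    intro e
    have := h.far (pre q v)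
    rw [e, dist_self] at this
    norm_num at this
  unfold side
  rw [e1]
  rcases e2 with e2 | e2
  · rw [e2]; simp [e3]
  · rw [e2, h.nn]; simp [e3]

theorem side_close {x x' : S} {v : E} (hv : Seen R (q x) v) (hv' : Seen R (q x') v)
    (hx : dist x x' < 1 / 4) (hq : dist (q x) (q x') < δ) :
    side ng q N v x = side ng q N v x' := by
  have g1 := end_lft h hs hv
  have g2 := end_lft h hs hv'
  obtain ⟨C, hC, hCR, hp, hm⟩ := hv
  obtain ⟨C', hC', hCR', hp', hm'⟩ := hv'
  have e := lft_close h hs.dich (γ := seg N (q x) v) (γ' := seg N (q x') v) (x := x) (x' := x')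
    (seg_zero _ _ _).symm (seg_zero _ _ _).symm
    (fun i => hCR (seg_mem hC hp hm N i)) (fun i => hCR' (seg_mem hC' hp' hm' N i))
    (fun i => hs.seg_step (hCR hp) (hCR hm) i) (fun i => hs.seg_step (hCR' hp') (hCR' hm') i)
    (fun i => lt_of_le_of_lt (seg_dist _ _ _ _) hq) hx N
  have far := h.far (pre q v)
  have : lft ng q (seg N (q x) v) x N = lft ng q (seg N (q x') v) x' N := by
    rcases g1 with g1 | g1 <;> rcases g2 with g2 | g2
    · rw [g1, g2]
    · rw [g1, g2, far] at e; norm_num at e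
    · rw [g1, g2, dist_comm, far] at e; norm_num at e
    · rw [g1, g2]
  unfold side
  rw [this]

/-- along the lift of a straight path inside a convex piece containing `v` the side is constant -/
theorem side_path {x : S} {v m : E} {C : Set E} (hC : Convex ℝ C) (hCR : C ⊆ R) (hp : q x ∈ C)
    (hm : m ∈ C) (hv : v ∈ C) (i : ℕ) :
    side ng q N v (lft ng q (seg N (q x) m) x i) = side ng q N v x := by
  have hq : ∀ i, q (lft ng q (seg N (q x) m) x i) = seg N (q x) m i := fun i =>
    q_lft h hs.dich (γ := seg N (q x) m) (x := x) (seg_zero _ _ _).symm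
      (fun i => hCR (seg_mem hC hp hm N i)) (fun i => hs.seg_step (hCR hp) (hCR hm) i) i
  induction i with
  | zero => rfl
  | succ i ih =>
    rw [← ih]
    symm
    refine side_close h hs ?_ ?_ ?_ ?_
    · exact ⟨C, hC, hCR, by rw [hq]; exact seg_mem hC hp hm N i, hv⟩
    · exact ⟨C, hC, hCR, by rw [hq]; exact seg_mem hC hp hm N (i + 1), hv⟩
    · exact dist_lft h hs.dich (γ := seg N (q x) m) (x := x) (seg_zero _ _ _).symm
        (fun i => hCR (seg_mem hC hp hm N i)) (fun i => hs.seg_step (hCR hp) (hCR hm) i) i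
    · rw [hq, hq]; exact hs.seg_step (hCR hp) (hCR hm) i

/-- the sign of a pair -/
noncomputable def sgn0 (ng : S → S) (q : S → E) [Nonempty S] (N : ℕ) (v w : E) : Bool :=
  (side ng q N v (pre q v)) ^^ (side ng q N w (pre q v))

theorem sgn0_spec {x : S} {v w : E} {C : Set E} (hC : Convex ℝ C) (hCR : C ⊆ R) (hp : q x ∈ C)
    (hv : v ∈ C) (hw : w ∈ C) :
    ((side ng q N v x) ^^ (side ng q N w x)) = sgn0 ng q N v w := by
  have e1 := side_path h hs (x := x) (v := v) (m := v) hC hCR hp hv hv N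
  have e2 := side_path h hs (x := x) (v := w) (m := v) hC hCR hp hv hw N
  have e3 := end_lft h hs (x := x) (v := v) ⟨C, hC, hCR, hp, hv⟩
  rw [← e1, ← e2]
  have hqv : q (pre q v) = v := q_pre h (hCR hv)
  rcases e3 with e3 | e3
  · rw [e3]; rfl
  · rw [e3, side_ng h hs (x := pre q v) (v := v) ⟨C, hC, hCR, by rwa [hqv], hv⟩,
      side_ng h hs (x := pre q v) (v := w) ⟨C, hC, hCR, by rwa [hqv], hw⟩]
    unfold sgn0
    cases side ng q N v (pre q v) <;> cases side ng q N w (pre q v) <;> rfl

end Side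

end Lift

end Pool.Agent.TH651.RP5
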