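import Pool.Agent.TH651.RP5.Top

/-!
Hexagons and icosahedra.
-/

set_option autoImplicit false
set_option linter.unusedSectionVars false

namespace Pool.Agent.TH651.RP5

section P6

variable {X : Type} [Fintype X] [DecidableEq X] {g : SG X} {x : ℕ → X}

theorem img_eq_of {n : ℕ} {A : Finset X} (hi : Inj g x n) (hA : A.image g.a = A)
    (hm : ∀ i < n, x i ∈ A) (hc : A.card = 2 * n) : img g x (2 * n) = A := by
  refine Finset.eq_of_subset_of_card_le ?_ (by rw [img_card hi, hc])
  intro v hv
  rw [mem_img] at hv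
  obtain ⟨l, hl, rfl⟩ := hv
  unfold lt
  split_ifs
  · exact hm _ (by omega)
  · exact inv_mem hA (hm _ (by omega))

/-- remove an antipodal pair, choosing the neighbour of a given vertex -/
theorem pick {A : Finset X} (hA : A.image g.a = A) (hne : A.Nonempty) {u : X} (hu : u ∉ A) :
    ∃ v ∈ A, g.Adj u v := by
  obtain ⟨v, hv⟩ := hne
  have h1 : v ≠ u := fun e => hu (e ▸ hv)
  have h2 : v ≠ g.a u := by
    intro e
    have := inv_mem hA hv
    rw [e, g.ha] at this
    exact hu this
  rcases g.tot h1 h2 with h | h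
  · exact ⟨v, hv, h⟩
  · exact ⟨g.a v, inv_mem hA hv, h⟩

theorem clique_single (u : X) : Clique g {u} := by
  intro a ha b hb hab
  rw [Finset.mem_singleton] at ha hb
  exact absurd (ha.trans hb.symm) hab

theorem clique_pair {u v : X} (h : g.Adj u v) : Clique g {u, v} := by
  intro a ha b hb hab
  rw [Finset.mem_insert, Finset.mem_singleton] at ha hb
  rcases ha with rfl | rfl <;> rcases hb with rfl | rfl
  · exact absurd rfl hab
  · exact h
  · exact g.symm h
  · exact absurd rfl hab

theorem clique_insert {u : X} {P : Finset X} (hP : Clique g P) (h : ∀ v ∈ P, g.Adj u v) :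
    Clique g (insert u P) := by
  intro a ha b hb hab
  rw [Finset.mem_insert] at ha hb
  rcases ha with rfl | ha <;> rcases hb with rfl | hb
  · exact absurd rfl hab
  · exact h b hb
  · exact g.symm (h a ha)
  · exact hP a ha b hb hab

theorem adj_ne {u v : X} (h : g.Adj u v) : u ≠ v := fun e => g.irr u (by rw [← e] at h; exact h)

theorem adj_ne' {u v : X} (h : g.Adj u v) : u ≠ g.a v := by
  intro e
  rw [e] at h
  have := g.symm h
  exact g.irr' v this

theorem not_mem_sdiff {A P : Finset X} {u v : X} (hv : v ∈ A \ (P ∪ P.image g.a)) (hu : u ∈ P) :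
    u ≠ v ∧ u ≠ g.a v := by
  rw [Finset.mem_sdiff, Finset.mem_union, mem_image_iff g.ha] at hv
  constructor
  · intro e
    exact hv.2 (Or.inl (e ▸ hu))
  · intro e
    exact hv.2 (Or.inr (e ▸ hu))

theorem hexagon {A : Finset X} (hA : A.image g.a = A) (hc : A.card = 6) {y : Ch X}
    (hy : Good g 1 A y) : ∃ x : ℕ → X, Fr g x 3 H3 A := by
  obtain ⟨u, hu⟩ : A.Nonempty := by rw [← Finset.card_pos]; omega
  set A1 := A \ ({u} ∪ ({u} : Finset X).image g.a) with hA1
  have hA1i : A1.image g.a = A1 := A_inv g hA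
  have hc1 := sdiff_Q_card hA (Finset.singleton_subset_iff.mpr hu) (clique_single (g := g) u)
  rw [← hA1, Finset.card_singleton] at hc1
  have hu1 : u ∉ A1 := by simp [hA1]
  obtain ⟨v, hv, huv⟩ := pick hA1i (by rw [← Finset.card_pos]; omega) hu1
  set A2 := A1 \ ({v} ∪ ({v} : Finset X).image g.a) with hA2
  have hA2i : A2.image g.a = A2 := A_inv g hA1i
  have hc2 := sdiff_Q_card hA1i (Finset.singleton_subset_iff.mpr hv) (clique_single (g := g) v)
  rw [← hA2, Finset.card_singleton] at hc2
  have hv2 : v ∉ A2 := by simp [hA2]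
  obtain ⟨w, hw, hvw⟩ := pick hA2i (by rw [← Finset.card_pos]; omega) hv2
  have hw1 : w ∈ A1 := (Finset.mem_sdiff.mp hw).1
  have hwA : w ∈ A := (Finset.mem_sdiff.mp hw1).1
  have hvA : v ∈ A := (Finset.mem_sdiff.mp hv).1
  have n1 := not_mem_sdiff (P := {u}) hv (Finset.mem_singleton_self u)
  have n2 := not_mem_sdiff (P := {u}) hw1 (Finset.mem_singleton_self u)
  have n3 := not_mem_sdiff (P := {v}) hw (Finset.mem_singleton_self v)
  have huw : ¬ g.Adj u w := by
    intro h
    have hP : Clique g {u, v, w} := by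
      refine clique_insert (clique_pair hvw) ?_
      intro z hz
      rw [Finset.mem_insert, Finset.mem_singleton] at hz
      rcases hz with rfl | rfl
      · exact huv
      · exact h
    have hsub : ({u, v, w} : Finset X) ⊆ A := by
      intro z hz
      simp only [Finset.mem_insert, Finset.mem_singleton] at hz
      rcases hz with rfl | rfl | rfl <;> assumption
    have hcard : ({u, v, w} : Finset X).card = 3 := by
      rw [Finset.card_insert_of_notMem, Finset.card_pair n3.1]
      simp only [Finset.mem_insert, Finset.mem_singleton, not_or]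
      exact ⟨n1.1, n2.1⟩
    have h1 := sdiff_Q_card hA hsub hP
    have h2 := Good.desc g hP hy
    have h3 : A \ ({u, v, w} ∪ ({u, v, w} : Finset X).image g.a) = ∅ := by
      rw [← Finset.card_eq_zero]; omega
    rw [h3] at h2
    exact Good.not_empty g h2
  refine ⟨fun i => if i = 0 then u else if i = 1 then v else w, ?_⟩
  have m1 : v ≠ g.a u := fun e => n1.2 (by rw [e, g.ha])
  have m2 : w ≠ g.a u := fun e => n2.2 (by rw [e, g.ha])
  have m3 : w ≠ g.a v := fun e => n3.2 (by rw [e, g.ha])
  have hinj : Inj g (fun i => if i = 0 then u else if i = 1 then v else w) 3 := by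
    intro i hi j hj hij
    have hi' : i = 0 ∨ i = 1 ∨ i = 2 := by omega
    have hj' : j = 0 ∨ j = 1 ∨ j = 2 := by omega
    rcases hi' with rfl | rfl | rfl <;> rcases hj' with rfl | rfl | rfl
    · exact absurd rfl hij
    · exact n1
    · exact n2
    · exact ⟨n1.1.symm, m1⟩
    · exact absurd rfl hij
    · exact n3
    · exact ⟨n2.1.symm, m2⟩
    · exact ⟨n3.1.symm, m3⟩
    · exact absurd rfl hij
  refine ⟨hinj, ?_, img_eq_of hinj hA ?_ (by rw [hc])⟩
  · intro i j hij hj
    have hh : (i = 0 ∧ j = 1) ∨ (i = 0 ∧ j = 2) ∨ (i = 1 ∧ j = 2) := by omega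
    rcases hh with ⟨rfl, rfl⟩ | ⟨rfl, rfl⟩ | ⟨rfl, rfl⟩
    · show ¬ g.Adj u v ↔ _
      have : (H3.getD 1 0).testBit 0 = false := by decide +kernel
      rw [this]
      simp [huv]
    · show ¬ g.Adj u w ↔ _
      have : (H3.getD 2 0).testBit 0 = true := by decide +kernel
      rw [this]
      simp [huw]
    · show ¬ g.Adj v w ↔ _
      have : (H3.getD 2 0).testBit 1 = false := by decide +kernel
      rw [this]
      simp [hvw]
  · intro i _
    show (if i = 0 then u else if i = 1 then v else w) ∈ A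
    split_ifs <;> assumption

theorem thm_P6 {A : Finset X} (hA : A.image g.a = A) (hc : A.card = 12) {y : Ch X}
    (hy : Good g 2 A y) : ∃ x : ℕ → X, Fr g x 6 M6 A := by
  obtain ⟨P, hPc, hP, hPA⟩ := Good.exists_clique g hy
  have hc1 := sdiff_Q_card hA hPA hP
  have hA1 : (A \ (P ∪ P.image g.a)).image g.a = A \ (P ∪ P.image g.a) := A_inv g hA
  have hy1 := Good.desc g hP hy
  obtain ⟨x, hx⟩ := hexagon hA1 (by omega) hy1
  have hf := full_hex hx hy1
  have hcov : ∀ F ∈ E1.Fs, ∃ v ∈ P, Cvr g x E1.n v F := by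
    intro F hF
    obtain ⟨v, hv, -, h3⟩ := cover_step (Good.supp g hA hy) (hf F hF)
    exact ⟨v, hv, cov_of_adj (by decide +kernel) (Finset.Subset.refl _) h3⟩
  obtain ⟨k, hk, x', hx'⟩ := enum_step E1_ok hx hP hPc Finset.sdiff_disjoint hcov
    (by decide +kernel)
  have hk0 : k = 0 := by
    have : E1.reps.length = 1 := by decide +kernel
    omega
  subst hk0
  rw [sdiff_union_Q hA hPA] at hx'
  exact ⟨x', hx'⟩

end P6

end Pool.Agent.TH651.RP5
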