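import Pool.Agent.TH651.RP5.Smith
import Pool.Agent.Helper82.BorsukUlam

/-!
Push-forward of chains of lists of points to chains of finite sets of labels.
-/

set_option autoImplicit false
set_option linter.unusedSectionVars false

namespace Pool.Agent.TH651.RP5

section Push

variable {X : Type} [Fintype X] [DecidableEq X]

/-- cone on a label -/
def cn (x : X) (c : Ch X) : Ch X := fun F => if x ∈ F then c (F.erase x) else 0

theorem cn_add (x : X) (c d : Ch X) : cn x (c + d) = cn x c + cn x d := by
  funext F
  simp only [cn, Pi.add_apply]
  split_ifs <;> simp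

theorem cn_smul (x : X) (t : ZMod 2) (c : Ch X) : cn x (t • c) = t • cn x c := by
  funext F
  simp only [cn, Pi.smul_apply]
  split_ifs <;> simp

theorem bd_smul (t : ZMod 2) (c : Ch X) : bd (t • c) = t • bd c := by
  funext F
  simp only [bd, Pi.smul_apply, Finset.smul_sum]

theorem bd_cn (x : X) (c : Ch X) : bd (cn x c) = c + cn x (bd c) := by
  funext F
  simp only [bd, cn, Pi.add_apply]
  by_cases hx : x ∈ F
  · simp only [hx, if_true, Finset.mem_insert, or_true]
    have h1 : (F.erase x)ᶜ = insert x Fᶜ := by
      ext w
      simp only [Finset.mem_compl, Finset.mem_erase, Finset.mem_insert]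
      tauto
    rw [h1, Finset.sum_insert (by simp [hx]), Finset.insert_erase hx, ← add_assoc, z2_add_self,
      zero_add]
    refine Finset.sum_congr rfl (fun w hw => ?_)
    have hwx : w ≠ x := fun e => by
      rw [Finset.mem_compl] at hw
      exact hw (e ▸ hx)
    rw [Finset.erase_insert_of_ne hwx]
  · simp only [hx, if_false, add_zero]
    rw [Finset.sum_eq_single x]
    · simp [Finset.erase_insert hx]
    · intro w hw hwx
      have : x ∉ insert w F := by
        simp only [Finset.mem_insert, not_or]
        exact ⟨fun e => hwx e.symm, hx⟩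
      simp [this]
    · intro h
      exact absurd (Finset.mem_compl.mpr hx) h

variable {W : Type}

def push (lam : W → X) : List W → Ch X
  | [] => Pi.single ∅ 1
  | v :: l => cn (lam v) (push lam l)

open Pool.Agent.Helper82.BorsukUlam in
noncomputable def pf (lam : W → X) : Chain W →ₗ[ZMod 2] Ch X :=
  Finsupp.linearCombination (ZMod 2) (push lam)

open Pool.Agent.Helper82.BorsukUlam in
theorem pf_single (lam : W → X) (l : List W) (t : ZMod 2) :
    pf lam (Finsupp.single l t) = t • push lam l := by
  simp [pf]

open Pool.Agent.Helper82.BorsukUlam in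
theorem pf_cone (lam : W → X) (v : W) (c : Chain W) :
    pf lam (cone v c) = cn (lam v) (pf lam c) := by
  induction c using Finsupp.induction_linear with
  | zero =>
    simp only [map_zero]
    funext F; simp [cn]
  | add f g hf hg => simp only [map_add, hf, hg, cn_add]
  | single l a => rw [cone_single, pf_single, pf_single, cn_smul]; rfl

theorem bd_single_empty : bd (Pi.single ∅ 1 : Ch X) = 0 := by
  funext F
  simp only [bd, Pi.zero_apply]
  refine Finset.sum_eq_zero (fun v _ => ?_)
  rw [Pi.single_eq_of_ne (Finset.insert_ne_empty _ _)]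

open Pool.Agent.Helper82.BorsukUlam in
theorem pf_bdL (lam : W → X) (l : List W) : pf lam (bdL l) = bd (push lam l) := by
  induction l with
  | nil => simp [bdL, push, bd_single_empty]
  | cons v l ih =>
    rw [bdL, map_add, pf_single, one_smul, pf_cone, ih, push, bd_cn]

theorem bd_sum_add (c d : Ch X) : bd (c + d) = bd c + bd d := bd_add c d

open Pool.Agent.Helper82.BorsukUlam in
theorem pf_bd (lam : W → X) (c : Chain W) :
    pf lam (Pool.Agent.Helper82.BorsukUlam.bd c) = bd (pf lam c) := by
  induction c using Finsupp.induction_linear with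
  | zero => simp [bd_zero]
  | add f g hf hg => simp only [map_add, hf, hg, RP5.bd_add]
  | single l a => rw [bd_single, map_smul, pf_bdL, pf_single, bd_smul]

theorem push_support (lam : W → X) (l : List W) (F : Finset X) (h : push lam l F ≠ 0) :
    F.card = l.length ∧ ∀ x ∈ F, ∃ v ∈ l, lam v = x := by
  induction l generalizing F with
  | nil =>
    have : F = ∅ := by
      by_contra hne
      exact h (by rw [push, Pi.single_eq_of_ne hne])
    subst this
    simp
  | cons v l ih =>
    rw [push, cn] at h
    by_cases hx : lam v ∈ F
    · simp only [hx, if_true] at h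
      obtain ⟨h1, h2⟩ := ih _ h
      rw [Finset.card_erase_of_mem hx] at h1
      have hpos : 0 < F.card := Finset.card_pos.mpr ⟨_, hx⟩
      refine ⟨by simp only [List.length_cons]; omega, ?_⟩
      intro x hxF
      by_cases e : x = lam v
      · exact ⟨v, by simp, e.symm⟩
      · obtain ⟨w, hw, hwx⟩ := h2 x (Finset.mem_erase.mpr ⟨e, hxF⟩)
        exact ⟨w, by simp [hw], hwx⟩
    · simp [hx] at h

theorem act_cn {a : X → X} (ha : Function.Involutive a) (x : X) (c : Ch X) :
    act a (cn x c) = cn (a x) (act a c) := by
  funext F
  simp only [act, cn]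
  have h1 : x ∈ F.image a ↔ a x ∈ F := mem_image_iff ha F x
  by_cases h : a x ∈ F
  · simp only [h1, h, if_true]
    congr 1
    rw [Finset.image_erase ha.injective, ha x]
  · simp only [h1, h, if_false]

theorem act_single_empty {a : X → X} : act a (Pi.single ∅ 1 : Ch X) = Pi.single ∅ 1 := by
  funext F
  simp only [act]
  by_cases h : F = ∅
  · subst h; simp
  · rw [Pi.single_eq_of_ne h, Pi.single_eq_of_ne]
    intro e
    exact h (Finset.image_eq_empty.mp e)

theorem push_neg [Neg W] {a : X → X} (ha : Function.Involutive a) (lam : W → X) (l : List W)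
    (h : ∀ v ∈ l, lam (-v) = a (lam v)) :
    push lam (l.map (fun v => -v)) = act a (push lam l) := by
  induction l with
  | nil => simp only [List.map_nil, push, act_single_empty]
  | cons v l ih =>
    simp only [List.map_cons, push]
    rw [ih (fun w hw => h w (List.mem_cons_of_mem _ hw)), h v (by simp), act_cn ha]

end Push

end Pool.Agent.TH651.RP5
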