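import Pool.Agent.TH651.RP5.CaseB2
import Pool.Agent.TH651.RP5.DL0
import Pool.Agent.TH651.RP5.DL1
import Pool.Agent.TH651.RP5.DL2
import Pool.Agent.TH651.RP5.DL3

/-!
Sixteen pairs: a signed graph carrying a good cycle of dimension four is unique.
-/

set_option autoImplicit false
set_option linter.unusedSectionVars false
set_option maxRecDepth 100000
set_option maxHeartbeats 0

namespace Pool.Agent.TH651.RP5

section S16

variable {X : Type} [Fintype X] [DecidableEq X] {g : SG X}

def lamOK (sols lams : List (List ℕ)) : Bool :=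
  sols.all (fun S => lams.any (fun lam => relOK 16 S lam T16))

theorem s16_top {e : Env} {kn sg C : List ℕ} {sols lams : List (List ℕ)}
    (hcert : ∀ val, Mod e val → False)
    (hlen : e.nk.length = 5) (he1 : e.nk.getD 2 0 = 6) (he2 : e.nk.getD 3 0 = 11)
    (he3 : e.nk.getD 4 0 = e.n) (hen : e.n = 16) (hzero : ∀ k < 2, e.nk.getD k 0 = 0)
    (hFb : e.full = ICO) (hC : C.length = 11) (hCb : eqC 6 C M6 = true) (hcl : clOK C 6 11 = true)
    (hinc : incN 11 T4 = true) (hk : knOK 11 5 C T4 kn sg = true) (htab : tabOK e kn sg = true)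
    (hinv : e.nk.getD e.inv 0 = 0) (hfo : e.forb = [])
    (hblk : blkOK 16 kn sg sols e.ext = true) (hlam : lamOK sols lams = true)
    {A P : Finset X} (hA : A.image g.a = A) (hP : Clique g P) (hPc : P.card = 5) (hPA : P ⊆ A)
    {x : ℕ → X} (hFr : Fr g x 11 C (A \ (P ∪ P.image g.a))) {y : Ch X} (hy : Good g 4 A y) :
    ∃ x' : ℕ → X, Fr g x' 16 T16 A := by
  obtain ⟨x', yy, h1, h2, h3, hsem⟩ := top_step (e := e) (kn := kn) (sg := sg) (C := C) (Cb := M6)
    (Fb := ICO) (Ns := T4) (n1 := 6) (n2 := 11) (m := 5) (K := 2) hlen he1 he2 he3 hen (by omega)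
    hzero (by norm_num) (fun x A h y hy => full_ico h hy) hFb (by decide +kernel) hC hCb hcl
    (by decide +kernel) hinc hk htab hinv hA hP hPc hPA hFr hy (by
      intro q b hqb
      rw [hfo] at hqb
      exact absurd hqb (by simp))
  rw [hen] at h1 h2 h3
  rcases block_or (e := e) (sols := sols) h3 (le_refl 16) hblk yy with ⟨S, hS, hSg⟩ | h4
  · rw [lamOK, List.all_eq_true] at hlam
    have h5 := hlam S hS
    rw [List.any_eq_true] at h5
    obtain ⟨lam, -, h6⟩ := h5
    exact relabel ⟨h1, hSg, h2⟩ h6
  · exact (hcert _ (hsem.mod h4)).elim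

theorem thm_T16 {A : Finset X} (hA : A.image g.a = A) (hc : A.card = 32) {y : Ch X}
    (hy : Good g 4 A y) : ∃ x : ℕ → X, Fr g x 16 T16 A := by
  obtain ⟨P, hPc, hP, hPA⟩ := Good.exists_clique g hy
  have hc1 := sdiff_Q_card hA hPA hP
  have hA1 : (A \ (P ∪ P.image g.a)).image g.a = A \ (P ∪ P.image g.a) := A_inv g hA
  have hy3 := Good.desc g hP hy
  set A11 := A \ (P ∪ P.image g.a) with hA11
  obtain ⟨Q, hQc, hQ, hQA⟩ := thm_beta hA1 (by omega) hy3
  have hc2 := sdiff_Q_card hA1 hQA hQ
  have hA2 : (A11 \ (Q ∪ Q.image g.a)).image g.a = A11 \ (Q ∪ Q.image g.a) := A_inv g hA1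
  have hy2 := Good.desc g hQ hy3
  obtain ⟨x, hx⟩ := thm_P6 hA2 (by omega) hy2
  have hf := full_ico hx hy2
  have hcov : ∀ F ∈ E3.Fs, ∃ v ∈ Q, Cvr g x E3.n v F := by
    intro F hF
    obtain ⟨v, hv, -, h3⟩ := cover_step (Good.supp g hA1 hy3) (hf F hF)
    exact ⟨v, hv, cov_of_adj (by decide +kernel) (Finset.Subset.refl _) h3⟩
  obtain ⟨k, hk, x', hx'⟩ := enum_step E3_ok hx hQ hQc Finset.sdiff_disjoint hcov
    (by decide +kernel)
  rw [sdiff_union_Q hA1 hQA] at hx'
  have hk4 : k < 4 := by
    have : E3.reps.length = 4 := by decide +kernel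
    omega
  have hcs : k = 0 ∨ k = 1 ∨ k = 2 ∨ k = 3 := by omega
  rcases hcs with rfl | rfl | rfl | rfl
  · exact s16_top (e := DL0.env) (kn := DL0.kn) (sg := DL0.sg) (sols := DL0.sols) (lams := [])
      (fun _ h => DL0.cert h)
      (by decide +kernel) (by decide +kernel) (by decide +kernel) (by decide +kernel)
      (by decide +kernel) (by decide +kernel) (by decide +kernel) (by decide +kernel)
      (by decide +kernel) (by decide +kernel) (by decide +kernel) (by decide +kernel)
      DL0.tab_ok (by decide +kernel) (by decide +kernel) (by decide +kernel) (by decide +kernel)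
      hA hP hPc hPA hx' hy
  · exact s16_top (e := DL1.env) (kn := DL1.kn) (sg := DL1.sg) (sols := DL1.sols)
      (lams := [[0, 2, 4, 6, 8, 10, 12, 14, 16, 18, 20, 22, 24, 26, 28, 30],
        [0, 2, 4, 6, 8, 10, 12, 14, 16, 18, 20, 27, 31, 29, 25, 23],
        [0, 2, 4, 6, 8, 10, 12, 14, 16, 18, 20, 31, 27, 29, 25, 23]])
      (fun _ h => DL1.cert h)
      (by decide +kernel) (by decide +kernel) (by decide +kernel) (by decide +kernel)
      (by decide +kernel) (by decide +kernel) (by decide +kernel) (by decide +kernel)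
      (by decide +kernel) (by decide +kernel) (by decide +kernel) (by decide +kernel)
      DL1.tab_ok (by decide +kernel) (by decide +kernel) (by decide +kernel) (by decide +kernel)
      hA hP hPc hPA hx' hy
  · exact s16_top (e := DL2.env) (kn := DL2.kn) (sg := DL2.sg) (sols := DL2.sols) (lams := [])
      (fun _ h => DL2.cert h)
      (by decide +kernel) (by decide +kernel) (by decide +kernel) (by decide +kernel)
      (by decide +kernel) (by decide +kernel) (by decide +kernel) (by decide +kernel)
      (by decide +kernel) (by decide +kernel) (by decide +kernel) (by decide +kernel)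
      DL2.tab_ok (by decide +kernel) (by decide +kernel) (by decide +kernel) (by decide +kernel)
      hA hP hPc hPA hx' hy
  · exact s16_top (e := DL3.env) (kn := DL3.kn) (sg := DL3.sg) (sols := DL3.sols)
      (lams := [[0, 5, 3, 10, 8, 12, 29, 14, 27, 23, 20, 19, 31, 6, 25, 17],
        [0, 5, 3, 10, 8, 12, 26, 14, 24, 28, 20, 19, 30, 6, 22, 17]])
      (fun _ h => DL3.cert h)
      (by decide +kernel) (by decide +kernel) (by decide +kernel) (by decide +kernel)
      (by decide +kernel) (by decide +kernel) (by decide +kernel) (by decide +kernel)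
      (by decide +kernel) (by decide +kernel) (by decide +kernel) (by decide +kernel)
      DL3.tab_ok (by decide +kernel) (by decide +kernel) (by decide +kernel) (by decide +kernel)
      hA hP hPc hPA hx' hy

end S16

end Pool.Agent.TH651.RP5
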