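import Pool.Agent.TH651.RP5.Smith
import Pool.Agent.TH651.RP5.Cert

/-!
Valuations coming from actual signed graphs and chains.
-/

set_option autoImplicit false
set_option linter.unusedSectionVars false

namespace Pool.Agent.TH651.RP5

section Sem

variable {X : Type} [Fintype X] [DecidableEq X] (g : SG X) (x : ℕ → X) (y : ℕ → Ch X)

/-- the element of the double cover named by a literal -/
def lt (l : ℕ) : X := if l % 2 = 0 then x (l / 2) else g.a (x (l / 2))

theorem lt_even (p : ℕ) : lt g x (2 * p) = x p := by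
  unfold lt
  have h1 : 2 * p % 2 = 0 := by omega
  have h2 : 2 * p / 2 = p := by omega
  rw [if_pos h1, h2]

theorem lt_odd (p : ℕ) : lt g x (2 * p + 1) = g.a (x p) := by
  unfold lt
  have h1 : ¬ (2 * p + 1) % 2 = 0 := by omega
  have h2 : (2 * p + 1) / 2 = p := by omega
  rw [if_neg h1, h2]

theorem lt_xor (l : ℕ) : lt g x (l ^^^ 1) = g.a (lt g x l) := by
  have h1 : (l ^^^ 1) / 2 = l / 2 := by
    have := Nat.xor_div_two (a := l) (b := 1)
    simpa using this
  have h2 : (l ^^^ 1) % 2 = (l + 1) % 2 := Nat.xor_mod_two_eq (m := l) (n := 1)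
  unfold lt
  rw [h1, h2]
  rcases Nat.mod_two_eq_zero_or_one l with h3 | h3
  · have h4 : (l + 1) % 2 = 1 := by omega
    rw [h3, h4]; simp
  · have h4 : (l + 1) % 2 = 0 := by omega
    rw [h3, h4]; simp [g.ha (x (l / 2))]

/-- distinct indices give distinct vertices -/
def Inj (n : ℕ) : Prop := ∀ i < n, ∀ j < n, i ≠ j → x i ≠ x j ∧ x i ≠ g.a (x j)

variable {g x y}

theorem lt_inj {n : ℕ} (h : Inj g x n) {l m : ℕ} (hl : l < 2 * n) (hm : m < 2 * n)
    (e : lt g x l = lt g x m) : l = m := by
  by_contra hne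
  unfold lt at e
  by_cases hh : l / 2 = m / 2
  · have h2 : l % 2 ≠ m % 2 := by omega
    rw [hh] at e
    rcases Nat.mod_two_eq_zero_or_one l with h3 | h3 <;>
      rcases Nat.mod_two_eq_zero_or_one m with h4 | h4
    · omega
    · rw [h3, h4] at e; simp at e; exact g.ne _ e.symm
    · rw [h3, h4] at e; simp at e; exact g.ne _ e
    · omega
  · obtain ⟨h1, h2⟩ := h (l / 2) (by omega) (m / 2) (by omega) hh
    obtain ⟨h1', h2'⟩ := h (m / 2) (by omega) (l / 2) (by omega) (fun e => hh e.symm)
    split_ifs at e with h3 h4 h4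
    · exact h1 e
    · exact h2 e
    · exact h2' e.symm
    · exact h1 (g.ha.injective e)

theorem adj_iff_not_anti {u v : X} (h1 : v ≠ u) (h2 : v ≠ g.a u) : g.Adj u (g.a v) ↔ ¬ g.Adj u v := by
  constructor
  · intro h h'
    exact g.excl h' h
  · intro h
    rcases g.tot h1 h2 with h3 | h3
    · exact absurd h3 h
    · exact h3

theorem anti_adj {u v : X} : g.Adj (g.a u) v ↔ g.Adj u (g.a v) := by
  constructor
  · intro h
    have := g.eqv h
    rwa [g.ha] at this
  · intro h
    have := g.eqv h
    rwa [g.ha] at this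

theorem anti_anti_adj {u v : X} : g.Adj (g.a u) (g.a v) ↔ g.Adj u v := by
  rw [anti_adj, g.ha]

/-- adjacency of literals in terms of the sign of the pair -/
theorem adj_lt {n : ℕ} (h : Inj g x n) {l m : ℕ} (hl : l < 2 * n) (hm : m < 2 * n)
    (hne : l / 2 ≠ m / 2) :
    g.Adj (lt g x l) (lt g x m) ↔ ((¬ g.Adj (x (l / 2)) (x (m / 2))) ↔ (l + m) % 2 = 1) := by
  obtain ⟨h1, h2⟩ := h (l / 2) (by omega) (m / 2) (by omega) hne
  obtain ⟨h1', h2'⟩ := h (m / 2) (by omega) (l / 2) (by omega) (fun e => hne e.symm)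
  have e1 := adj_iff_not_anti (g := g) h1' h2'
  unfold lt
  rcases Nat.mod_two_eq_zero_or_one l with h3 | h3 <;>
    rcases Nat.mod_two_eq_zero_or_one m with h4 | h4
  · have h5 : ¬ (l + m) % 2 = 1 := by omega
    rw [h3, h4]; simp only [if_true]; tauto
  · have h5 : (l + m) % 2 = 1 := by omega
    rw [h3, h4]; simp only [one_ne_zero, if_true, if_false]
    rw [e1]; tauto
  · have h5 : (l + m) % 2 = 1 := by omega
    rw [h3, h4]; simp only [one_ne_zero, if_true, if_false]
    rw [anti_adj, e1]; tauto
  · have h5 : ¬ (l + m) % 2 = 1 := by omega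
    rw [h3, h4]; simp only [one_ne_zero, if_false]
    rw [anti_anti_adj]; tauto

variable (g x y)

def FS (m : ℕ) : Finset ℕ := (Finset.range 32).filter (fun l => m.testBit l = true)

def fs (m : ℕ) : Finset X := (FS m).image (lt g x)

open Classical in
/-- the valuation -/
noncomputable def vl : ℕ → Bool := fun c =>
  if c % 2 = 1 then decide (y ((FS (c / 2)).card - 1) (fs g x (c / 2)) = 1)
  else decide (¬ g.Adj (x ((c / 2) / 16)) (x ((c / 2) % 16)))

variable {g x y}

open Classical in
theorem vl_A {i j : ℕ} (hj : j < 16) : vl g x y (codeA i j) = true ↔ ¬ g.Adj (x i) (x j) := by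
  unfold vl codeA
  have h1 : ¬ 2 * (16 * i + j) % 2 = 1 := by omega
  have h2 : 2 * (16 * i + j) / 2 / 16 = i := by omega
  have h3 : 2 * (16 * i + j) / 2 % 16 = j := by omega
  rw [if_neg h1, h2, h3]
  simp

theorem vl_Y (F : ℕ) : vl g x y (codeY F) = true ↔ y ((FS F).card - 1) (fs g x F) = 1 := by
  unfold vl codeY
  have h1 : (2 * F + 1) % 2 = 1 := by omega
  have h2 : (2 * F + 1) / 2 = F := by omega
  rw [if_pos h1, h2, decide_eq_true_eq]

theorem adjL_iff {n : ℕ} (hn : n ≤ 16) (h : Inj g x n) {l m : ℕ} (hl : l < 2 * n) (hm : m < 2 * n) :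
    AdjL (vl g x y) l m ↔ g.Adj (lt g x l) (lt g x m) := by
  by_cases hne : l / 2 = m / 2
  · constructor
    · intro h'; exact absurd hne h'.1
    · intro h'
      exfalso
      unfold lt at h'
      rw [hne] at h'
      split_ifs at h'
      · exact g.irr _ h'
      · exact g.irr' _ h'
      · rw [anti_adj] at h'; exact g.irr' _ h'
      · exact g.irr _ h'
  · rw [adj_lt h hl hm hne]
    unfold AdjL
    have key : vl g x y (codeA (min (l / 2) (m / 2)) (max (l / 2) (m / 2))) = true ↔
        ¬ g.Adj (x (l / 2)) (x (m / 2)) := by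
      rw [vl_A (by omega)]
      rcases le_total (l / 2) (m / 2) with h3 | h3
      · rw [min_eq_left h3, max_eq_right h3]
      · rw [min_eq_right h3, max_eq_left h3]
        exact not_congr ⟨g.symm, g.symm⟩
    constructor
    · rintro ⟨-, h2⟩
      rw [← key, h2]
      simp
    · intro h2
      refine ⟨hne, ?_⟩
      rw [← key] at h2
      cases hv : vl g x y (codeA (min (l / 2) (m / 2)) (max (l / 2) (m / 2)))
      · rw [hv] at h2
        have : ¬ (l + m) % 2 = 1 := fun h3 => Bool.false_ne_true (h2.mpr h3)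
        simp [this]
      · rw [hv] at h2
        have : (l + m) % 2 = 1 := h2.mp rfl
        simp [this]

theorem mem_FS {m l : ℕ} : l ∈ FS m ↔ l < 32 ∧ m.testBit l = true := by
  rw [FS, Finset.mem_filter, Finset.mem_range]

theorem FS_mkM {L : List ℕ} (hL : ∀ l ∈ L, l < 32) : FS (mkM L) = L.toFinset := by
  ext l
  rw [mem_FS, testBit_mkM, List.mem_toFinset]
  exact ⟨fun h => h.2, fun h => ⟨hL l h, h⟩⟩

theorem FS_or {F z : ℕ} (hz : z < 32) : FS (F ||| (1 <<< z)) = insert z (FS F) := by
  ext l
  rw [mem_FS, Finset.mem_insert, mem_FS, Nat.testBit_or, testBit_one_shiftLeft]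
  by_cases h : l = z
  · subst h; simp [hz]
  · simp [h]

theorem fs_or {F z : ℕ} (hz : z < 32) :
    fs g x (F ||| (1 <<< z)) = insert (lt g x z) (fs g x F) := by
  rw [fs, FS_or hz, Finset.image_insert]; rfl

theorem mem_fs {n : ℕ} (hn : n ≤ 16) (h : Inj g x n) {F z : ℕ} (hz : z < 2 * n)
    (hF : ∀ l, F.testBit l = true → l < 2 * n) : lt g x z ∈ fs g x F ↔ F.testBit z = true := by
  rw [fs, Finset.mem_image]
  constructor
  · rintro ⟨l, hl, e⟩
    rw [mem_FS] at hl
    have := lt_inj h (hF l hl.2) hz e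
    rw [← this]; exact hl.2
  · intro h2
    exact ⟨z, mem_FS.mpr ⟨by omega, h2⟩, rfl⟩

theorem z2_cases (t : ZMod 2) : t = 0 ∨ t = 1 := by
  revert t; decide

theorem z2_ne_zero {t : ZMod 2} : t ≠ 0 ↔ t = 1 := by
  revert t; decide

/-- the sums in the constraints are sums in `ZMod 2` -/
theorem xs_eq (val : ℕ → Bool) (f : ℕ → ZMod 2) (ts : List ℕ)
    (h : ∀ t ∈ ts, val (codeY t) = true ↔ f t = 1) :
    xs val ts = true ↔ (ts.map f).sum = 1 := by
  induction ts with
  | nil => simp [xs]
  | cons t ts ih =>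
    have ih' := ih (fun t ht => h t (List.mem_cons_of_mem _ ht))
    have ht := h t List.mem_cons_self
    rw [xs, List.map_cons, List.sum_cons]
    rcases z2_cases (f t) with h1 | h1
    · have h2 : val (codeY t) = false := by
        cases hh : val (codeY t)
        · rfl
        · rw [ht.mp hh] at h1; exact absurd h1 one_ne_zero
      rw [h2, h1, Bool.false_xor, zero_add, ih']
    · have h2 : val (codeY t) = true := ht.mpr h1
      rw [h2, h1, Bool.true_xor]
      rcases z2_cases (ts.map f).sum with h3 | h3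
      · have h4 : xs val ts = false := by
          cases hh : xs val ts
          · rfl
          · rw [ih'.mp hh] at h3; exact absurd h3 one_ne_zero
        rw [h4, h3]; simp
      · have h4 : xs val ts = true := ih'.mpr h3
        rw [h4, h3]; decide

theorem xs_false (val : ℕ → Bool) (f : ℕ → ZMod 2) (ts : List ℕ)
    (h : ∀ t ∈ ts, val (codeY t) = true ↔ f t = 1) (h0 : (ts.map f).sum = 0) :
    xs val ts = false := by
  cases hh : xs val ts
  · rfl
  · rw [(xs_eq val f ts h).mp hh] at h0
    exact absurd h0 one_ne_zero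

variable (g x) in
/-- the vertices named by literals below `b` -/
def img (b : ℕ) : Finset X := (Finset.range b).image (lt g x)

theorem img_inv (p : ℕ) : (img g x (2 * p)).image g.a = img g x (2 * p) := by
  ext v
  rw [mem_image_iff g.ha, img, Finset.mem_image, Finset.mem_image]
  have hb : ∀ l, l < 2 * p → l ^^^ 1 < 2 * p := by
    intro l hl
    have h1 : (l ^^^ 1) / 2 = l / 2 := by
      have := Nat.xor_div_two (a := l) (b := 1)
      simpa using this
    omega
  constructor
  · rintro ⟨l, hl, e⟩
    refine ⟨l ^^^ 1, Finset.mem_range.mpr (hb l (Finset.mem_range.mp hl)), ?_⟩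
    rw [lt_xor, e, g.ha]
  · rintro ⟨l, hl, e⟩
    refine ⟨l ^^^ 1, Finset.mem_range.mpr (hb l (Finset.mem_range.mp hl)), ?_⟩
    rw [lt_xor, e]

variable (g x y) in
structure Sem (e : Env) : Prop where
  hn : e.n ≤ 16
  inj : Inj g x e.n
  hT : ∀ z l, z < 2 * e.n → l < 2 * e.n → (e.T.get z).testBit l = true →
    ¬ g.Adj (lt g x z) (lt g x l)
  hU : ∀ z l, z < 2 * e.n → l < 2 * e.n → (e.U.get z).testBit l = true →
    g.Adj (lt g x z) (lt g x l)
  hnk : ∀ k < e.nk.length, e.nk.getD k 0 ≤ e.n
  supp : ∀ k < e.nk.length, Supp g k (img g x (2 * e.nk.getD k 0)) (y k)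
  supp' : ∀ k, Supp g k Finset.univ (y k)
  cyc : ∀ k, 1 ≤ k → k < e.nk.length → bd (y k) = 0
  dsc : ∀ k, k + 1 < e.nk.length → ∀ F, F ⊆ img g x (2 * e.nk.getD k 0) → F.card = k + 1 →
    y k F = ∑ p ∈ Finset.range (e.nk.getD (k + 1) 0 - e.nk.getD k 0),
      y (k + 1) (insert (x (e.nk.getD k 0 + p)) F)
  full : ∀ k, k + 1 < e.nk.length → ∀ L, Srt (2 * e.nk.getD k 0) L → L.length = k + 1 →
    mkM L ∈ e.full → ∀ u ≤ 1,
    ∑ p ∈ Finset.range (e.nk.getD (k + 1) 0 - e.nk.getD k 0),
      y (k + 1) (insert (lt g x (2 * (e.nk.getD k 0 + p) + u)) (fs g x (mkM L))) = 1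
  inv : ∀ F, F ⊆ img g x (2 * e.nk.getD e.inv 0) → F.card = e.inv + 1 →
    y e.inv F = 1 → y e.inv (F.image g.a) = 1
  forb : ∀ q b, (q, b) ∈ e.forb → b ≤ 2 * e.n ∧ ∀ F, F ⊆ img g x b → F.card = q → ¬ Clique g F

theorem Srt.nodup {b : ℕ} {L : List ℕ} (h : Srt b L) : L.Nodup :=
  h.1.imp (fun h => ne_of_lt h)

theorem fs_card {n : ℕ} (hn : n ≤ 16) (h : Inj g x n) {L : List ℕ} {b : ℕ} (hL : Srt b L)
    (hb : b ≤ 2 * n) : (fs g x (mkM L)).card = L.length := by
  rw [fs, FS_mkM (fun l hl => by have := hL.2 l hl; omega), Finset.card_image_of_injOn,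
    List.toFinset_card_of_nodup hL.nodup]
  intro l hl m hm e
  rw [Finset.mem_coe, List.mem_toFinset] at hl hm
  exact lt_inj h (by have := hL.2 l hl; omega) (by have := hL.2 m hm; omega) e

theorem FS_card {L : List ℕ} {b : ℕ} (hL : Srt b L) (hb : b ≤ 32) :
    (FS (mkM L)).card = L.length := by
  rw [FS_mkM (fun l hl => by have := hL.2 l hl; omega), List.toFinset_card_of_nodup hL.nodup]

theorem fs_sub {L : List ℕ} {b : ℕ} (hL : Srt b L) (hb : b ≤ 32) :
    fs g x (mkM L) ⊆ img g x b := by
  rw [fs, FS_mkM (fun l hl => by have := hL.2 l hl; omega), img]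
  refine Finset.image_subset_image ?_
  intro l hl
  rw [List.mem_toFinset] at hl
  exact Finset.mem_range.mpr (hL.2 l hl)

theorem FS_or_card {L : List ℕ} {b z : ℕ} (hL : Srt b L) (hb : b ≤ 32) (hz : z < 32)
    (hzL : (mkM L).testBit z = false) : (FS (mkM L ||| (1 <<< z))).card = L.length + 1 := by
  rw [FS_or hz, Finset.card_insert_of_notMem, FS_card hL hb]
  rw [mem_FS]
  rintro ⟨-, h⟩
  rw [hzL] at h; exact Bool.false_ne_true h

theorem Sem.mod {e : Env} (hs : Sem g x y e) (hext : ∀ c ∈ e.ext, ∃ s ∈ c, litT (vl g x y) s) :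
    Mod e (vl g x y) where
  hn := hs.hn
  clq := by
    intro F l m hl hm hFl hFm hne hv
    rw [vl_Y] at hv
    have h1 := hs.supp' ((FS F).card - 1) (fs g x F) (by rw [hv]; exact one_ne_zero)
    have hn := hs.hn
    rw [adjL_iff hs.hn hs.inj hl hm]
    refine h1.2.1 _ ?_ _ ?_ (fun e2 => hne (lt_inj hs.inj hl hm e2))
    · exact Finset.mem_image_of_mem _ (mem_FS.mpr ⟨by omega, hFl⟩)
    · exact Finset.mem_image_of_mem _ (mem_FS.mpr ⟨by omega, hFm⟩)
  hT := fun z l hz hl h => by
    rw [adjL_iff hs.hn hs.inj hz hl]; exact hs.hT z l hz hl h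
  hU := fun z l hz hl h => by
    rw [adjL_iff hs.hn hs.inj hz hl]; exact hs.hU z l hz hl h
  hnk := hs.hnk
  cov := by
    intro k L hk hL hlen hv
    have hn := hs.hn
    have hb := hs.hnk k (by omega)
    have hb' := hs.hnk (k + 1) hk
    rw [vl_Y, FS_card hL (by omega), hlen, Nat.add_sub_cancel] at hv
    have h1 := hs.dsc k hk (fs g x (mkM L)) (fs_sub hL (by omega))
      (by rw [fs_card hs.hn hs.inj hL (by omega), hlen])
    rw [hv] at h1
    obtain ⟨p, hp, hne⟩ := Finset.exists_ne_zero_of_sum_ne_zero (by rw [← h1]; exact one_ne_zero)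
    rw [Finset.mem_range] at hp
    refine ⟨e.nk.getD k 0 + p, by omega, by omega, ?_⟩
    have hz : (mkM L).testBit (2 * (e.nk.getD k 0 + p)) = false := by
      by_contra hcon
      rw [Bool.not_eq_false] at hcon
      have := hL.2 _ ((testBit_mkM _ _).mp hcon)
      omega
    rw [vl_Y, FS_or_card hL (by omega) (by omega) hz, hlen, fs_or (by omega), lt_even]
    exact z2_ne_zero.mp hne
  cyc := by
    intro k L hk1 hk hL hlen
    have hn := hs.hn
    have hb := hs.hnk k (by omega)
    set b := e.nk.getD k 0 with hbdef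
    have hc := congrFun (hs.cyc k hk1 hk) (fs g x (mkM L))
    have hF : ∀ l, (mkM L).testBit l = true → l < 2 * e.n := fun l hl => by
      have := hL.2 _ ((testBit_mkM _ _).mp hl); omega
    refine xs_false _ (fun t => y k (fs g x t)) _ ?_ ?_
    · intro t ht
      rw [List.mem_map] at ht
      obtain ⟨z, hz, rfl⟩ := ht
      rw [List.mem_filter, List.mem_range] at hz
      have hz2 : (mkM L).testBit z = false := by simpa using hz.2
      rw [vl_Y, FS_or_card hL (by omega) (by omega) hz2, hlen, Nat.add_sub_cancel]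
    · rw [List.map_map]
      have hnd : ((List.range (2 * b)).filter (fun z => !(mkM L).testBit z)).Nodup :=
        List.Nodup.filter _ List.nodup_range
      rw [← List.sum_toFinset _ hnd]
      have h0 : bd (y k) (fs g x (mkM L)) = 0 := hc
      rw [← h0, bd]
      -- the sum over the complement reduces to the literals below `2b`
      have himg : (((List.range (2 * b)).filter (fun z => !(mkM L).testBit z)).toFinset).image
          (lt g x) ⊆ (fs g x (mkM L))ᶜ := by
        intro v hv
        rw [Finset.mem_image] at hv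
        obtain ⟨z, hz, rfl⟩ := hv
        rw [List.mem_toFinset, List.mem_filter, List.mem_range] at hz
        rw [Finset.mem_compl, mem_fs hs.hn hs.inj (by omega) hF]
        simpa using hz.2
      rw [← Finset.sum_subset himg]
      · rw [Finset.sum_image]
        · refine Finset.sum_congr rfl (fun z hz => ?_)
          rw [List.mem_toFinset, List.mem_filter, List.mem_range] at hz
          simp only [Function.comp_apply]
          rw [fs_or (by omega)]
        · intro z hz w hw e2
          rw [Finset.mem_coe, List.mem_toFinset, List.mem_filter, List.mem_range] at hz hw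
          exact lt_inj hs.inj (by omega) (by omega) e2
      · intro v hv hv2
        by_contra hne
        have h1 := hs.supp k hk _ hne
        have h2 : v ∈ img g x (2 * b) := h1.2.2 (Finset.mem_insert_self _ _)
        rw [img, Finset.mem_image] at h2
        obtain ⟨z, hz, rfl⟩ := h2
        rw [Finset.mem_range] at hz
        rw [Finset.mem_compl, mem_fs hs.hn hs.inj (by omega) hF, Bool.not_eq_true] at hv
        apply hv2
        refine Finset.mem_image_of_mem _ ?_
        rw [List.mem_toFinset, List.mem_filter, List.mem_range]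
        exact ⟨hz, by simp [hv]⟩
  dsc := by
    intro k L hk hL hlen
    have hn := hs.hn
    have hb := hs.hnk k (by omega)
    have hb' := hs.hnk (k + 1) hk
    have h1 := hs.dsc k hk (fs g x (mkM L)) (fs_sub hL (by omega))
      (by rw [fs_card hs.hn hs.inj hL (by omega), hlen])
    have key : ∀ p ∈ List.range (e.nk.getD (k + 1) 0 - e.nk.getD k 0),
        (vl g x y (codeY (mkM L ||| (1 <<< (2 * e.nk.getD k 0 + 2 * p)))) = true ↔
          y (k + 1) (insert (x (e.nk.getD k 0 + p)) (fs g x (mkM L))) = 1) := by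
      intro p hp
      rw [List.mem_range] at hp
      have hz : (mkM L).testBit (2 * e.nk.getD k 0 + 2 * p) = false := by
        by_contra hcon
        rw [Bool.not_eq_false] at hcon
        have := hL.2 _ ((testBit_mkM _ _).mp hcon)
        omega
      rw [vl_Y, FS_or_card hL (by omega) (by omega) hz, hlen, fs_or (by omega),
        show 2 * e.nk.getD k 0 + 2 * p = 2 * (e.nk.getD k 0 + p) by ring, lt_even]
      simp
    have hv : vl g x y (codeY (mkM L)) = true ↔ y k (fs g x (mkM L)) = 1 := by
      rw [vl_Y, FS_card hL (by omega), hlen, Nat.add_sub_cancel]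
    have h2 : xs (vl g x y) ((List.range (e.nk.getD (k + 1) 0 - e.nk.getD k 0)).map
      (fun p => mkM L ||| (1 <<< (2 * e.nk.getD k 0 + 2 * p)))) = true ↔
        y k (fs g x (mkM L)) = 1 := by
      rw [xs_eq _ (fun t => y (k + 1) (fs g x t))]
      · rw [List.map_map, h1]
        rw [← List.sum_toFinset _ List.nodup_range, List.toFinset_range]
        have : ∀ p ∈ Finset.range (e.nk.getD (k + 1) 0 - e.nk.getD k 0),
            ((fun t => y (k + 1) (fs g x t)) ∘ fun p => mkM L ||| (1 <<< (2 * e.nk.getD k 0 + 2 * p))) p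
            = y (k + 1) (insert (x (e.nk.getD k 0 + p)) (fs g x (mkM L))) := by
          intro p hp
          rw [Finset.mem_range] at hp
          simp only [Function.comp_apply]
          rw [fs_or (by omega), show 2 * e.nk.getD k 0 + 2 * p = 2 * (e.nk.getD k 0 + p) by ring,
            lt_even]
        rw [Finset.sum_congr rfl this]
      · intro t ht
        rw [List.mem_map] at ht
        obtain ⟨p, hp, rfl⟩ := ht
        rw [key p hp]
        rw [List.mem_range] at hp
        rw [fs_or (by omega), show 2 * e.nk.getD k 0 + 2 * p = 2 * (e.nk.getD k 0 + p) by ring,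
            lt_even]
    have h3 : vl g x y (codeY (mkM L)) = xs (vl g x y)
        ((List.range (e.nk.getD (k + 1) 0 - e.nk.getD k 0)).map
        (fun p => mkM L ||| (1 <<< (2 * e.nk.getD k 0 + 2 * p)))) := by
      rw [Bool.eq_iff_iff, hv, h2]
    rw [h3, Bool.xor_self]
  full := by
    intro k L u hk hu hL hlen hmem
    have hn := hs.hn
    have hb := hs.hnk k (by omega)
    have hb' := hs.hnk (k + 1) hk
    have h1 := hs.full k hk L hL hlen hmem u hu
    rw [xs_eq _ (fun t => y (k + 1) (fs g x t))]
    · rw [List.map_map, ← List.sum_toFinset _ List.nodup_range, List.toFinset_range, ← h1]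
      refine Finset.sum_congr rfl (fun p hp => ?_)
      rw [Finset.mem_range] at hp
      simp only [Function.comp_apply]
      rw [fs_or (by omega), show 2 * e.nk.getD k 0 + u + 2 * p = 2 * (e.nk.getD k 0 + p) + u by ring]
    · intro t ht
      rw [List.mem_map] at ht
      obtain ⟨p, hp, rfl⟩ := ht
      rw [List.mem_range] at hp
      have hz : (mkM L).testBit (2 * e.nk.getD k 0 + u + 2 * p) = false := by
        by_contra hcon
        rw [Bool.not_eq_false] at hcon
        have := hL.2 _ ((testBit_mkM _ _).mp hcon)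
        omega
      rw [vl_Y, FS_or_card hL (by omega) (by omega) hz, hlen]
      simp
  inv := by
    intro L hL hlen hv
    have hn := hs.hn
    have hb : e.nk.getD e.inv 0 ≤ e.n := by
      by_cases h : e.inv < e.nk.length
      · exact hs.hnk _ h
      · rw [List.getD_eq_default _ _ (not_lt.mp h)]; omega
    rw [vl_Y, FS_card hL (by omega), hlen, Nat.add_sub_cancel] at hv
    have h1 := hs.inv _ (fs_sub hL (by omega))
      (by rw [fs_card hs.hn hs.inj hL (by omega), hlen]) hv
    have hbx : ∀ l ∈ L, l ^^^ 1 < 2 * e.nk.getD e.inv 0 := by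
      intro l hl
      have h2 := hL.2 l hl
      have h3 : (l ^^^ 1) / 2 = l / 2 := by
        have := Nat.xor_div_two (a := l) (b := 1)
        simpa using this
      omega
    have hinj : Function.Injective (fun l : ℕ => l ^^^ 1) := by
      intro a b hab
      have : (a ^^^ 1) ^^^ 1 = (b ^^^ 1) ^^^ 1 := by simp only at hab; rw [hab]
      simpa [Nat.xor_assoc] using this
    have hFS : FS (mkM (L.map (· ^^^ 1))) = L.toFinset.image (· ^^^ 1) := by
      rw [FS_mkM]
      · ext l; simp
      · intro l hl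
        rw [List.mem_map] at hl
        obtain ⟨m, hm, rfl⟩ := hl
        have := hbx m hm
        omega
    rw [vl_Y, hFS, Finset.card_image_of_injective _ hinj, List.toFinset_card_of_nodup hL.nodup,
      hlen, Nat.add_sub_cancel]
    have hfs : fs g x (mkM (L.map (· ^^^ 1))) = (fs g x (mkM L)).image g.a := by
      rw [fs, hFS, fs, FS_mkM (fun l hl => by have := hL.2 l hl; omega), Finset.image_image,
        Finset.image_image]
      refine Finset.image_congr (fun l _ => ?_)
      simp only [Function.comp_apply]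
      exact lt_xor g x l
    rw [hfs]; exact h1
  forb := by
    intro q b hqb
    have hn := hs.hn
    obtain ⟨h1, h2⟩ := hs.forb q b hqb
    refine ⟨h1, fun L hL hlen hP => ?_⟩
    refine h2 (fs g x (mkM L)) (fs_sub hL (by omega))
      (by rw [fs_card hs.hn hs.inj hL h1, hlen]) ?_
    intro u hu v hv huv
    rw [fs, Finset.mem_image] at hu hv
    obtain ⟨l, hl, rfl⟩ := hu
    obtain ⟨m, hm, rfl⟩ := hv
    rw [FS_mkM (fun l hl => by have := hL.2 l hl; omega), List.mem_toFinset] at hl hm
    have hlm : l ≠ m := fun e2 => huv (by rw [e2])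
    have hlb := hL.2 l hl
    have hmb := hL.2 m hm
    rw [← adjL_iff (y := y) hs.hn hs.inj (by omega) (by omega)]
    have hsymm : Std.Symm (AdjL (vl g x y)) := ⟨fun _ _ h => h.symm⟩
    exact List.Pairwise.forall hP hl hm hlm
  ext := hext

end Sem

end Pool.Agent.TH651.RP5
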