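import Pool.Agent.TH651.RP5.Chain

/-!
Smith sequences, good cycles and their descent.
-/

set_option autoImplicit false
set_option linter.unusedSectionVars false

namespace Pool.Agent.TH651.RP5

section Smith

variable {X : Type} [Fintype X] [DecidableEq X] (g : SG X)

structure Smith (k : ℕ) (A : Finset X) (c : ℕ → Ch X) : Prop where
  supp : ∀ j ≤ k, Supp g j A (c j)
  step : ∀ j < k, bd (c (j + 1)) = c j + act g.a (c j)
  base : bd (c 0) ∅ = 1

def Good (k : ℕ) (A : Finset X) (y : Ch X) : Prop :=
  ∃ (c : ℕ → Ch X) (r : Ch X), Smith g k A c ∧ Supp g (k + 1) A r ∧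
    y = c k + act g.a (c k) + bd r

theorem Supp.zero (k : ℕ) (A : Finset X) : Supp g k A (0 : Ch X) := by
  intro F hF
  exact absurd rfl hF

theorem Supp.act {g : SG X} {k : ℕ} {A : Finset X} (hA : A.image g.a = A) {c : Ch X}
    (hc : Supp g k A c) : Supp g k A (act g.a c) := by
  intro F hF
  obtain ⟨h1, h2, h3⟩ := hc _ hF
  refine ⟨?_, ?_, ?_⟩
  · rwa [Finset.card_image_of_injective _ g.ha.injective] at h1
  · have := h2.image
    rwa [image_image g.ha] at this
  · have := Finset.image_subset_image (f := g.a) h3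
    rwa [image_image g.ha, hA] at this

theorem Supp.bd {g : SG X} {k : ℕ} {A : Finset X} {c : Ch X} (hc : Supp g (k + 1) A c) :
    Supp g k A (bd c) := by
  intro F hF
  obtain ⟨v, hv, hne⟩ := Finset.exists_ne_zero_of_sum_ne_zero hF
  obtain ⟨h1, h2, h3⟩ := hc _ hne
  rw [Finset.mem_compl] at hv
  rw [Finset.card_insert_of_notMem hv] at h1
  refine ⟨by omega, h2.mono (Finset.subset_insert _ _), (Finset.subset_insert _ _).trans h3⟩

theorem Supp.res {g : SG X} {k : ℕ} {A Q : Finset X} {c : Ch X} (hc : Supp g k A c) :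
    Supp g k (A \ Q) (res Q c) := by
  intro F hF
  have hd : Disjoint F Q := by
    by_contra h
    exact hF (by simp only [RP5.res, h, if_false])
  have hne : c F ≠ 0 := by
    intro h
    apply hF
    simp only [RP5.res, h, ite_self]
  obtain ⟨h1, h2, h3⟩ := hc _ hne
  refine ⟨h1, h2, ?_⟩
  intro x hx
  exact Finset.mem_sdiff.mpr ⟨h3 hx, fun h => (Finset.disjoint_left.mp hd hx) h⟩

theorem Supp.D {g : SG X} {k : ℕ} {A P : Finset X} {c : Ch X} (hc : Supp g (k + 1) A c) :
    Supp g k (A \ (P ∪ P.image g.a)) (D g P c) := by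
  intro F hF
  have hd : Disjoint F (P ∪ P.image g.a) := by
    by_contra h
    exact hF (by simp only [RP5.D, h, if_false])
  simp only [RP5.D, hd, if_true] at hF
  obtain ⟨v, hv, hne⟩ := Finset.exists_ne_zero_of_sum_ne_zero hF
  obtain ⟨h1, h2, h3⟩ := hc _ hne
  have hvF : v ∉ F := fun h => Finset.disjoint_left.mp hd h (Finset.mem_union_left _ hv)
  rw [Finset.card_insert_of_notMem hvF] at h1
  refine ⟨by omega, h2.mono (Finset.subset_insert _ _), ?_⟩
  intro x hx
  exact Finset.mem_sdiff.mpr ⟨h3 (Finset.mem_insert_of_mem hx),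
    fun h => (Finset.disjoint_left.mp hd hx) h⟩

theorem A_inv {A P : Finset X} (hA : A.image g.a = A) :
    (A \ (P ∪ P.image g.a)).image g.a = A \ (P ∪ P.image g.a) := by
  ext x
  rw [mem_image_iff g.ha, Finset.mem_sdiff, Finset.mem_sdiff]
  have h1 : g.a x ∈ A ↔ x ∈ A := by
    rw [← mem_image_iff g.ha, hA]
  have h2 : g.a x ∈ P ∪ P.image g.a ↔ x ∈ P ∪ P.image g.a := by
    rw [← mem_image_iff g.ha, Q_inv]
  rw [h1, h2]

/-- the descended sequence -/
def desc (P : Finset X) (c : ℕ → Ch X) : ℕ → Ch X := fun j =>
  D g P (c (j + 1)) + res (P ∪ P.image g.a) (c j) + bd (res (P ∪ P.image g.a) (c (j + 1)))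

theorem act_bd (c : Ch X) : act g.a (bd c) = bd (act g.a c) := (bd_act g.ha c).symm

/-- the basic identity -/
theorem desc_identity {A P : Finset X} (hP : Clique g P) {c : ℕ → Ch X} {k : ℕ}
    (hc : Smith g (k + 1) A c) (j : ℕ) (hj : j ≤ k) :
    D g P (c (j + 1) + act g.a (c (j + 1))) =
      desc g P c j + act g.a (desc g P c j) + bd (res (P ∪ P.image g.a) (c (j + 1))) := by
  set Q := P ∪ P.image g.a with hQ
  have hQi : Q.image g.a = Q := Q_inv g P
  have hstep := hc.step j (by omega)
  -- rewrite the antipodal part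
  have h1 : act g.a (D g P (c (j + 1))) = D g (P.image g.a) (act g.a (c (j + 1))) := act_D g P _
  have h2 := D_add_D_anti g hP (act g.a (c (j + 1)))
  rw [← hQ] at h2
  have h3 : res Q (bd (act g.a (c (j + 1)))) = res Q (bd (c (j + 1))) := by
    rw [bd_act g.ha, hstep, act_add, act_act g.ha, add_comm]
  have h4 : act g.a (res Q (c j)) = res Q (act g.a (c j)) := act_res g Q hQi _
  have h5 : act g.a (bd (res Q (c (j + 1)))) = bd (res Q (act g.a (c (j + 1)))) := by
    rw [act_bd, act_res g Q hQi]
  have h6 : res Q (bd (c (j + 1))) = res Q (c j) + res Q (act g.a (c j)) := by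
    rw [hstep, res_add]
  simp only [desc, ← hQ, act_add, h1, h4, h5, D_add]
  rw [h3, h6] at h2
  have h7 : D g P (act g.a (c (j + 1))) = D g (P.image g.a) (act g.a (c (j + 1))) +
      (res Q (c j) + res Q (act g.a (c j)) + bd (res Q (act g.a (c (j + 1))))) := by
    rw [← h2, add_comm (D g P (act g.a (c (j + 1)))), ← add_assoc, ch_add_self, zero_add]
  rw [h7]
  have e1 : bd (res Q (c (j + 1))) + bd (res Q (c (j + 1))) = 0 :=
    ch_add_self (bd (res Q (c (j + 1))))
  calc D g P (c (j + 1)) + (D g (P.image g.a) (act g.a (c (j + 1))) +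
        (res Q (c j) + res Q (act g.a (c j)) + bd (res Q (act g.a (c (j + 1)))))) =
      D g P (c (j + 1)) + res Q (c j) + 0 + (D g (P.image g.a) (act g.a (c (j + 1))) +
        res Q (act g.a (c j)) + bd (res Q (act g.a (c (j + 1))))) := by rw [add_zero]; abel
    _ = _ := by rw [← e1]; abel

theorem Smith.desc {A P : Finset X} (hP : Clique g P) {c : ℕ → Ch X}
    {k : ℕ} (hc : Smith g (k + 1) A c) : Smith g k (A \ (P ∪ P.image g.a)) (desc g P c) where
  supp := by
    intro j hj
    have h1 := (hc.supp (j + 1) (by omega)).D (P := P)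
    have h2 := (hc.supp j (by omega)).res (Q := P ∪ P.image g.a)
    have h3 := ((hc.supp (j + 1) (by omega)).res (Q := P ∪ P.image g.a)).bd
    exact (h1.add h2).add h3
  step := by
    intro j hj
    have hid := desc_identity g hP hc j (by omega)
    have h1 : bd (RP5.desc g P c (j + 1)) = D g P (c (j + 1) + act g.a (c (j + 1))) +
        bd (res (P ∪ P.image g.a) (c (j + 1))) := by
      simp only [RP5.desc, bd_add, bd_bd, add_zero]
      rw [bd_D g hP (hc.supp (j + 2) (by omega)).cs, hc.step (j + 1) (by omega)]
    rw [h1, hid, add_assoc, ch_add_self, add_zero]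
  base := by
    have h1 : bd (RP5.desc g P c 0) = D g P (c 0 + act g.a (c 0)) +
        bd (res (P ∪ P.image g.a) (c 0)) := by
      simp only [RP5.desc, bd_add, bd_bd, add_zero]
      rw [bd_D g hP (hc.supp 1 (by omega)).cs, hc.step 0 (by omega)]
    rw [h1]
    set Q := P ∪ P.image g.a with hQ
    have hPA : Disjoint P (P.image g.a) := by
      rw [Finset.disjoint_left]
      intro x hx hx'
      exact Clique.not_anti hP hP hx hx hx hx'
    have h2 : D g P (c 0 + act g.a (c 0)) ∅ = ∑ v ∈ Q, c 0 {v} := by
      simp only [D, Finset.disjoint_empty_left, if_true, Pi.add_apply, act]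
      rw [Finset.sum_add_distrib, hQ, Finset.sum_union hPA,
        Finset.sum_image (fun x _ y _ e => g.ha.injective e)]
      congr 1
    have h3 : bd (res Q (c 0)) ∅ = ∑ v ∈ Qᶜ, c 0 {v} := by
      simp only [bd, res, Finset.compl_empty]
      have : ∀ v ∈ (Finset.univ : Finset X), (if Disjoint (insert v (∅ : Finset X)) Q then
          c 0 (insert v ∅) else 0) = if v ∈ Qᶜ then c 0 {v} else 0 := by
        intro v _
        simp only [insert_empty_eq, Finset.disjoint_singleton_left, Finset.mem_compl]
      rw [Finset.sum_congr rfl this, ← Finset.sum_filter]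
      congr 1
      ext v; simp
    rw [Pi.add_apply, h2, h3, Finset.sum_add_sum_compl]
    have := hc.base
    simp only [bd, Finset.compl_empty, insert_empty_eq] at this
    exact this

/-- descent of good cycles -/
theorem Good.desc {A P : Finset X} (hP : Clique g P) {y : Ch X}
    {k : ℕ} (hy : Good g (k + 1) A y) : Good g k (A \ (P ∪ P.image g.a)) (D g P y) := by
  obtain ⟨c, r, hc, hr, rfl⟩ := hy
  refine ⟨RP5.desc g P c, res (P ∪ P.image g.a) (c (k + 1)) + D g P r, hc.desc g hP, ?_, ?_⟩
  · exact ((hc.supp (k + 1) le_rfl).res).add hr.D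
  · rw [D_add, desc_identity g hP hc k le_rfl, bd_add, bd_D g hP hr.cs, ← add_assoc]

theorem Good.supp {A : Finset X} (hA : A.image g.a = A) {y : Ch X} {k : ℕ}
    (hy : Good g k A y) : Supp g k A y := by
  obtain ⟨c, r, hc, hr, rfl⟩ := hy
  exact ((hc.supp k le_rfl).add ((hc.supp k le_rfl).act hA)).add hr.bd

theorem Good.cycle {A : Finset X} {y : Ch X} {k : ℕ}
    (hy : Good g (k + 1) A y) : bd y = 0 := by
  obtain ⟨c, r, hc, hr, rfl⟩ := hy
  rw [bd_add, bd_add, bd_bd, add_zero, bd_act g.ha, hc.step k (by omega), act_add, act_act g.ha,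
    add_comm (act g.a (c k)), ch_add_self]

theorem Good.not_empty {y : Ch X} (hy : Good g 0 ∅ y) : False := by
  obtain ⟨c, r, hc, hr, rfl⟩ := hy
  have h := hc.base
  have h0 : c 0 = 0 := by
    funext F
    by_contra hne
    obtain ⟨h1, h2, h3⟩ := hc.supp 0 le_rfl F hne
    have := Finset.subset_empty.mp h3
    subst this
    simp at h1
  rw [h0, bd_zero] at h
  simp at h

/-- rainbow parity at the last level -/
theorem Good.last {P : Finset X} (hP : Clique g P) {y : Ch X}
    (hy : Good g 0 (P ∪ P.image g.a) y) : ∑ v ∈ P, y {v} = 1 := by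
  obtain ⟨c, r, hc, hr, rfl⟩ := hy
  set Q := P ∪ P.image g.a with hQ
  have hPA : Disjoint P (P.image g.a) := by
    rw [Finset.disjoint_left]
    intro x hx hx'
    exact Clique.not_anti hP hP hx hx hx hx'
  simp only [Pi.add_apply, Finset.sum_add_distrib]
  have h1 : ∑ v ∈ P, c 0 {v} + ∑ v ∈ P, act g.a (c 0) {v} = 1 := by
    have h2 : ∑ v ∈ P, act g.a (c 0) {v} = ∑ v ∈ P.image g.a, c 0 {v} := by
      rw [Finset.sum_image (fun x _ y _ e => g.ha.injective e)]
      rfl
    rw [h2, ← Finset.sum_union hPA, ← hQ]
    have h3 := hc.base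
    simp only [bd, Finset.compl_empty, insert_empty_eq] at h3
    rw [← h3]
    refine Finset.sum_subset (Finset.subset_univ _) (fun x _ hx => ?_)
    by_contra hne
    obtain ⟨-, -, h4⟩ := hc.supp 0 (le_refl 0) _ hne
    exact hx (h4 (Finset.mem_singleton_self x))
  have h4 : ∑ v ∈ P, bd r {v} = 0 := by
    simp only [bd]
    have h5 : ∀ v ∈ P, ∑ w ∈ ({v} : Finset X)ᶜ, r (insert w {v}) =
        ∑ w ∈ P, if w = v then 0 else r {w, v} := by
      intro v hv
      have e1 : ∑ w ∈ ({v} : Finset X)ᶜ, r (insert w {v}) =
          ∑ w, if w = v then 0 else r {w, v} := by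
        rw [Finset.sum_ite, Finset.sum_const_zero, zero_add]
        refine Finset.sum_congr ?_ (fun _ _ => rfl)
        ext w; simp
      rw [e1]
      symm
      refine Finset.sum_subset (Finset.subset_univ _) (fun w _ hw => ?_)
      by_cases hwv : w = v
      · simp [hwv]
      · simp only [hwv, if_false]
        by_contra hne
        obtain ⟨-, h6, h7⟩ := hr _ hne
        have hwQ : w ∈ Q := h7 (by simp)
        have hwA : w ∈ P.image g.a := by
          rcases Finset.mem_union.mp hwQ with h | h
          · exact absurd h hw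
          · exact h
        exact Clique.not_anti h6 hP (x := v) (y := w) (by simp) hv (by simp) hwA
    rw [Finset.sum_congr rfl h5]
    have key : ∀ (s : Finset X) (f : X → X → ZMod 2), (∀ v w, f v w = f w v) →
        (∀ v, f v v = 0) → ∑ v ∈ s, ∑ w ∈ s, f v w = 0 := by
      intro s f hf h0
      induction s using Finset.induction_on with
      | empty => simp
      | insert x s hx ih =>
        rw [Finset.sum_insert hx, Finset.sum_insert hx, h0, zero_add]
        have : ∑ v ∈ s, ∑ w ∈ insert x s, f v w =
            ∑ v ∈ s, f v x + ∑ v ∈ s, ∑ w ∈ s, f v w := by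
          rw [← Finset.sum_add_distrib]
          refine Finset.sum_congr rfl (fun v _ => ?_)
          rw [Finset.sum_insert hx]
        rw [this, ih, add_zero]
        have : ∑ v ∈ s, f v x = ∑ v ∈ s, f x v := Finset.sum_congr rfl (fun v _ => hf v x)
        rw [this]
        exact z2_add_self _
    refine key P (fun v w => if w = v then 0 else r {w, v}) ?_ ?_
    · intro v w
      by_cases h : w = v
      · subst h; rfl
      · have h' : ¬ v = w := fun e => h e.symm
        simp only [h, h', if_false]
        rw [Finset.pair_comm]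
    · intro v; simp
  rw [h1, h4, add_zero]

/-- an invariant chain supported on nonempty cliques is a norm -/
theorem norm_of_invariant {k : ℕ} {A : Finset X} {c : Ch X} (hc : Supp g k A c)
    (hi : act g.a c = c) : ∃ e : Ch X, Supp g k A e ∧ c = e + act g.a e := by
  classical
  let idx : Finset X → Fin (Fintype.card (Finset X)) := Fintype.equivFin (Finset X)
  have hidx : Function.Injective idx := (Fintype.equivFin (Finset X)).injective
  refine ⟨fun F => if idx F < idx (F.image g.a) then c F else 0, ?_, ?_⟩
  · intro F hF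
    refine hc F (fun h => hF ?_)
    simp [h]
  · funext F
    simp only [Pi.add_apply, act, image_image g.ha]
    have hiF : c (F.image g.a) = c F := congrFun hi F
    rw [hiF]
    by_cases h0 : c F = 0
    · simp [h0]
    · obtain ⟨h1, h2, h3⟩ := hc F h0
      have hne : F ≠ F.image g.a := by
        intro e
        obtain ⟨x, hx⟩ : F.Nonempty := by rw [← Finset.card_pos]; omega
        have hx' := hx
        rw [e] at hx'
        exact Clique.not_anti h2 h2 hx hx hx hx'
      have hne' : idx F ≠ idx (F.image g.a) := fun e => hne (hidx e)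
      rcases lt_or_gt_of_ne hne' with h | h
      · simp [h, not_lt.mpr h.le]
      · simp [h, not_lt.mpr h.le]

theorem Smith.ne {A : Finset X} (k : ℕ) : ∀ (c : ℕ → Ch X), Smith g k A c →
    c k + act g.a (c k) ≠ 0 := by
  induction k with
  | zero =>
    intro c hc h
    have hi : act g.a (c 0) = c 0 := by
      have h2 : c 0 + (c 0 + act g.a (c 0)) = c 0 := by rw [h, add_zero]
      rw [← add_assoc, ch_add_self, zero_add] at h2
      exact h2
    obtain ⟨e, he, hce⟩ := norm_of_invariant g (hc.supp 0 le_rfl) hi
    have h3 := hc.base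
    rw [hce, bd_add, bd_act g.ha, Pi.add_apply] at h3
    simp only [act, Finset.image_empty] at h3
    rw [z2_add_self] at h3
    exact zero_ne_one h3
  | succ k ih =>
    intro c hc h
    have hi : act g.a (c (k + 1)) = c (k + 1) := by
      have h2 : c (k + 1) + (c (k + 1) + act g.a (c (k + 1))) = c (k + 1) := by rw [h, add_zero]
      rw [← add_assoc, ch_add_self, zero_add] at h2
      exact h2
    obtain ⟨e, he, hce⟩ := norm_of_invariant g (hc.supp (k + 1) le_rfl) hi
    refine ih (Function.update c k (c k + bd e)) ?_ ?_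
    · refine ⟨?_, ?_, ?_⟩
      · intro j hj
        by_cases hjk : j = k
        · subst hjk
          rw [Function.update_self]
          exact (hc.supp j (by omega)).add he.bd
        · rw [Function.update_of_ne hjk]
          exact hc.supp j (by omega)
      · intro j hj
        rw [Function.update_of_ne (show j ≠ k by omega)]
        by_cases hjk : j + 1 = k
        · subst hjk
          rw [Function.update_self, bd_add, bd_bd, add_zero]
          exact hc.step j (by omega)
        · rw [Function.update_of_ne hjk]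
          exact hc.step j (by omega)
      · by_cases hk : k = 0
        · subst hk
          rw [Function.update_self, bd_add, bd_bd, add_zero]
          exact hc.base
        · rw [Function.update_of_ne (fun e => hk e.symm)]
          exact hc.base
    · rw [Function.update_self, act_add, act_bd]
      have h3 := hc.step k (by omega)
      have h4 : bd (c (k + 1)) = bd e + bd (act g.a e) := by
        conv_lhs => rw [hce]
        rw [bd_add]
      calc c k + bd e + (act g.a (c k) + bd (act g.a e)) =
          (c k + act g.a (c k)) + (bd e + bd (act g.a e)) := by abel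
        _ = bd (c (k + 1)) + bd (c (k + 1)) := by rw [← h3, ← h4]
        _ = 0 := ch_add_self _

theorem Good.exists_clique {A : Finset X} {y : Ch X} {k : ℕ} (hy : Good g k A y) :
    ∃ F : Finset X, F.card = k + 1 ∧ Clique g F ∧ F ⊆ A := by
  obtain ⟨c, r, hc, hr, rfl⟩ := hy
  by_contra hcon
  push Not at hcon
  have h0 : c k = 0 := by
    funext F
    by_contra hne
    obtain ⟨h1, h2, h3⟩ := hc.supp k le_rfl F hne
    exact hcon F h1 h2 h3
  apply hc.ne
  rw [h0, act_zero, add_zero]

/-- a good cycle in top dimension is invariant and nonzero -/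
theorem Good.top {A : Finset X} {y : Ch X} {k : ℕ} (hy : Good g k A y)
    (hno : ∀ F : Finset X, F.card = k + 2 → Clique g F → ¬ F ⊆ A) :
    act g.a y = y ∧ y ≠ 0 := by
  obtain ⟨c, r, hc, hr, rfl⟩ := hy
  have h0 : r = 0 := by
    funext F
    by_contra hne
    obtain ⟨h1, h2, h3⟩ := hr F hne
    exact hno F h1 h2 h3
  subst h0
  rw [bd_zero, add_zero]
  refine ⟨?_, hc.ne⟩
  rw [act_add, act_act g.ha, add_comm]

end Smith

end Pool.Agent.TH651.RP5
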