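import Pool.Agent.TH651.RP5.Fulls

/-!
The last two levels of a tower over a known base.
-/

set_option autoImplicit false
set_option linter.unusedSectionVars false

namespace Pool.Agent.TH651.RP5

section Top

variable {X : Type} [Fintype X] [DecidableEq X] {g : SG X} {x : ℕ → X}

theorem inv_mem {A : Finset X} (hA : A.image g.a = A) {u : X} (hu : u ∈ A) : g.a u ∈ A := by
  rw [← hA]; exact Finset.mem_image_of_mem _ hu

theorem Q_sub {A P : Finset X} (hA : A.image g.a = A) (hP : P ⊆ A) : P ∪ P.image g.a ⊆ A := by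
  refine Finset.union_subset hP ?_
  intro v hv
  rw [Finset.mem_image] at hv
  obtain ⟨w, hw, rfl⟩ := hv
  exact inv_mem hA (hP hw)

theorem Q_card {P : Finset X} (hP : Clique g P) : (P ∪ P.image g.a).card = 2 * P.card := by
  rw [Finset.card_union_of_disjoint, Finset.card_image_of_injective _ g.ha.injective]
  · omega
  · rw [Finset.disjoint_left]
    intro u hu hu'
    exact Clique.not_anti hP hP hu hu hu hu'

theorem sdiff_Q_card {A P : Finset X} (hA : A.image g.a = A) (hPA : P ⊆ A) (hP : Clique g P) :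
    (A \ (P ∪ P.image g.a)).card + 2 * P.card = A.card := by
  rw [← Q_card hP]
  exact Finset.card_sdiff_add_card_eq_card (Q_sub hA hPA)

theorem sdiff_union_Q {A P : Finset X} (hA : A.image g.a = A) (hPA : P ⊆ A) :
    (A \ (P ∪ P.image g.a)) ∪ (P ∪ P.image g.a) = A :=
  Finset.sdiff_union_of_subset (Q_sub hA hPA)

theorem blk_congr {x' : ℕ → X} {n a b : ℕ} (h : ∀ i < n, x' i = x i) (hb : b ≤ n) :
    blk x' a b = blk x a b := by
  unfold blk
  refine Finset.image_congr (fun i hi => ?_)
  rw [Finset.mem_coe, Finset.mem_Ico] at hi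
  exact h i (by omega)

theorem img_mono {a b : ℕ} (h : a ≤ b) : img g x a ⊆ img g x b := by
  unfold img
  exact Finset.image_subset_image (Finset.range_subset_range.mpr h)

theorem top_step {e : Env} {kn sg C Cb Fb Ns : List ℕ} {n1 n2 m K : ℕ}
    (hlen : e.nk.length = K + 3) (he1 : e.nk.getD K 0 = n1) (he2 : e.nk.getD (K + 1) 0 = n2)
    (he3 : e.nk.getD (K + 2) 0 = e.n) (hen : e.n = n2 + m) (h16 : e.n ≤ 16)
    (hzero : ∀ k < K, e.nk.getD k 0 = 0) (h12 : n1 ≤ n2)
    (hfb : ∀ (x : ℕ → X) (A : Finset X), Fr g x n1 Cb A → ∀ y : Ch X, Good g K A y →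
      ∀ F ∈ Fb, y (fs g x F) = 1)
    (hFb : e.full = Fb) (hcF : ∀ F ∈ Fb, (FS F).card = K + 1)
    (hC : C.length = n2) (hCb : eqC n1 C Cb = true) (hcl : clOK C n1 n2 = true)
    (hNs : ∀ F ∈ Ns, F ∈ Fb) (hinc : incN n2 Ns = true) (hk : knOK n2 m C Ns kn sg = true)
    (htab : tabOK e kn sg = true) (hinv : e.nk.getD e.inv 0 = 0)
    {A P : Finset X} (hA : A.image g.a = A) (hP : Clique g P) (hPc : P.card = m) (hPA : P ⊆ A)
    (hFr : Fr g x n2 C (A \ (P ∪ P.image g.a))) {y : Ch X} (hy : Good g (K + 2) A y)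
    (hforb : ∀ q b, (q, b) ∈ e.forb → b ≤ 2 * e.n ∧ ∀ F : Finset X, F ⊆ A → F.card = q →
      ¬ Clique g F) :
    ∃ (x' : ℕ → X) (yy : ℕ → Ch X), Inj g x' e.n ∧ img g x' (2 * e.n) = A ∧
      Kn g x' e.n kn sg ∧ Sem g x' yy e := by
  set A2 := A \ (P ∪ P.image g.a) with hA2
  -- the tower below
  have hy2 : Good g (K + 1) A2 (D g P y) := Good.desc g hP hy
  have hP1 : Clique g (blk x n1 n2) := blk_clique hFr.sg (le_refl _) hcl
  have hy1 := Good.desc g hP1 hy2
  rw [← hFr.im, img_sdiff hFr.inj h12 (le_refl _)] at hy1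
  have hFr1 : Fr g x n1 Cb (img g x (2 * n1)) := hFr.take h12 hCb
  have hf1 := hfb x _ hFr1 _ hy1
  have hA2i : A2.image g.a = A2 := A_inv g hA
  have hcov : ∀ F ∈ Ns, ∃ v ∈ P, Cvr g x n2 v F := by
    intro F hF
    obtain ⟨p, hp, h1, -⟩ := cover_step (Good.supp g hA2i hy2) (hf1 F (hNs F hF))
    obtain ⟨v, hv, -, h3⟩ := cover_step (Good.supp g hA hy) h1
    exact ⟨v, hv, cov_of_adj (by omega) (Finset.subset_insert p _) h3⟩
  obtain ⟨x', hx1, hx2, hx3, hx4, hx5⟩ := ext_frame hFr hC hP hPc
    (by rw [hA2]; exact Finset.sdiff_disjoint) hcov hinc hk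
  rw [hA2, sdiff_union_Q hA hPA] at hx3
  rw [← hen] at hx2 hx3 hx4 hx5
  have hTH : TH g x' e K (K + 2) y :=
    { hlen := hlen
      hk := by omega
      hn := h16
      htop := he3
      inj := hx2
      mono := by
        intro k hk1 hk2
        have : k = K ∨ k = K + 1 := by omega
        rcases this with rfl | rfl
        · rw [he1, he2]; exact h12
        · rw [he2, he3]; omega
      zero := hzero
      cl := by
        intro k hk1 hk2
        have : k = K ∨ k = K + 1 := by omega
        rcases this with rfl | rfl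
        · rw [he1, he2, blk_congr hx1 (le_refl _)]; exact hP1
        · rw [he2, he3, hx4]; exact hP
      top := by rw [hx3]; exact hy }
  refine ⟨x', tw g x' e K (K + 2) y, hx2, hx3, hx5, hTH.sem hx5 htab ?_ (inv_trivial hinv _) ?_⟩
  · intro k hk1 hk2 F hF hcard y' hy'
    rw [hFb] at hF
    have hkK : k = K := by
      have := hcF F hF
      omega
    subst hkK
    rw [he1] at hy'
    refine hfb x' _ ⟨hx2.take (by omega), ?_, rfl⟩ _ hy' F hF
    intro i j hij hj
    rw [hx1 i (by omega), hx1 j (by omega)]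
    exact hFr1.sg i j hij hj
  · intro q b hqb
    obtain ⟨h1, h2⟩ := hforb q b hqb
    refine ⟨h1, fun F hF => h2 F ?_⟩
    rw [← hx3]
    exact hF.trans (img_mono h1)

/-! ### blocking clauses -/

def blkOK (n : ℕ) (kn sg : List ℕ) (sols ext : List (List ℕ)) : Bool :=
  ext.all (fun c => sols.any (fun S => (List.range n).all (fun j => (List.range j).all (fun i =>
    ((kn.getD j 0).testBit i && ((S.getD j 0).testBit i == (sg.getD j 0).testBit i)) ||
      c.any (fun s => Nat.beq s (2 * codeA i j + if (S.getD j 0).testBit i then 1 else 0))))))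

theorem block_or {n : ℕ} {kn sg : List ℕ} {sols : List (List ℕ)} {e : Env}
    (hk : Kn g x n kn sg) (h16 : n ≤ 16) (hb : blkOK n kn sg sols e.ext = true)
    (y : ℕ → Ch X) : (∃ S ∈ sols, Sg g x n S) ∨
      (∀ c ∈ e.ext, ∃ s ∈ c, litT (vl g x y) s) := by
  by_cases hS : ∃ S ∈ sols, Sg g x n S
  · exact Or.inl hS
  · right
    intro c hc
    rw [blkOK, List.all_eq_true] at hb
    have h1 := hb c hc
    rw [List.any_eq_true] at h1
    obtain ⟨S, hS1, hS2⟩ := h1
    have h2 : ¬ Sg g x n S := fun h => hS ⟨S, hS1, h⟩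
    unfold Sg at h2
    push Not at h2
    obtain ⟨i, j, hij, hj, h3⟩ := h2
    rw [List.all_eq_true] at hS2
    have h4 := hS2 j (List.mem_range.mpr hj)
    rw [List.all_eq_true] at h4
    have h5 := h4 i (List.mem_range.mpr hij)
    rw [Bool.or_eq_true, Bool.and_eq_true, beq_iff_eq] at h5
    have h3' : ¬ ((¬ g.Adj (x i) (x j)) ↔ (S.getD j 0).testBit i = true) := by
      intro h
      rcases h3 with h6 | h6
      · exact h6.2 (h.mp h6.1)
      · exact (h.mpr h6.2) h6.1
    rcases h5 with ⟨h5, h6⟩ | h5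
    · exfalso
      apply h3'
      rw [h6]
      exact hk i j hij hj h5
    · rw [List.any_eq_true] at h5
      obtain ⟨s, hs, hs2⟩ := h5
      rw [beq_iff] at hs2
      refine ⟨s, hs, ?_⟩
      rw [hs2]
      split_ifs with h7
      · rw [litT_code _ _ _ (by norm_num)]
        have h8 : ¬ (vl g x y (codeA i j) = true) := by
          rw [vl_A (by omega)]
          intro h9
          exact h3' ⟨fun _ => h7, fun _ => h9⟩
        rw [Bool.not_eq_true] at h8
        rw [h8]; rfl
      · rw [litT_code _ _ _ (by norm_num)]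
        have h8 : vl g x y (codeA i j) = true := by
          rw [vl_A (by omega)]
          intro h9
          exact h3' ⟨fun h => absurd h9 h, fun h => absurd h h7⟩
        rw [h8]; rfl

end Top

end Pool.Agent.TH651.RP5
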