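import Pool.Agent.TH651.RP5.Lift
import Pool.Agent.TH651.RP5.Push

/-!
From a triangulation of real projective 5-space to a Smith sequence on a signed complete graph.
-/

set_option autoImplicit false
set_option linter.unusedSectionVars false

namespace Pool.Agent.TH651.RP5

section Complex

variable {E : Type} [NormedAddCommGroup E] [NormedSpace ℝ E]
variable (K : Geometry.SimplicialComplex ℝ E)

theorem faces_finite (hK : K.vertices.Finite) : K.faces.Finite := by
  classical
  refine Set.Finite.subset (hK.toFinset.powerset.finite_toSet) ?_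
  intro s hs
  rw [Finset.mem_coe, Finset.mem_powerset]
  intro x hx
  rw [Set.Finite.mem_toFinset, Geometry.SimplicialComplex.mem_vertices]
  exact K.down_closed hs (Finset.singleton_subset_iff.mpr hx) (Finset.singleton_nonempty x)

theorem space_compact (hK : K.vertices.Finite) : IsCompact K.space := by
  unfold Geometry.SimplicialComplex.space
  exact (faces_finite K hK).isCompact_biUnion (fun s _ => s.finite_toSet.isCompact_convexHull ℝ)

/-- the open star of `v`, as an open subset of the ambient space -/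
def ostar (v : E) : Set E := (⋃ s ∈ {s ∈ K.faces | v ∉ s}, convexHull ℝ (s : Set E))ᶜ

theorem ostar_open (hK : K.vertices.Finite) (v : E) : IsOpen (ostar K v) := by
  rw [ostar, isOpen_compl_iff]
  refine IsCompact.isClosed ?_
  exact ((faces_finite K hK).subset (fun s hs => hs.1)).isCompact_biUnion
    (fun s _ => s.finite_toSet.isCompact_convexHull ℝ)

theorem mem_ostar {v p : E} : p ∈ ostar K v ↔ ∀ s ∈ K.faces, p ∈ convexHull ℝ (s : Set E) → v ∈ s := by
  rw [ostar, Set.mem_compl_iff, Set.mem_iUnion₂]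
  constructor
  · intro h s hs hp
    by_contra hv
    exact h ⟨s, ⟨hs, hv⟩, hp⟩
  · rintro h ⟨s, ⟨hs, hv⟩, hp⟩
    exact hv (h s hs hp)

theorem exists_carrier (hK : K.vertices.Finite) {p : E} (hp : p ∈ K.space) :
    ∃ v ∈ K.vertices, p ∈ ostar K v := by
  classical
  obtain ⟨s0, hs0, hp0⟩ := Geometry.SimplicialComplex.mem_space_iff.mp hp
  let T : Set (Finset E) := {s ∈ K.faces | p ∈ convexHull ℝ (s : Set E)}
  have hTne : T.Nonempty := ⟨s0, hs0, hp0⟩
  have hTf : T.Finite := (faces_finite K hK).subset (fun s hs => hs.1)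
  obtain ⟨s, hs, hmin⟩ := Set.Finite.exists_minimalFor (fun s : Finset E => s.card) T hTf hTne
  obtain ⟨v, hv⟩ := K.nonempty_of_mem_faces hs.1
  refine ⟨v, ?_, ?_⟩
  · rw [Geometry.SimplicialComplex.mem_vertices]
    exact K.down_closed hs.1 (Finset.singleton_subset_iff.mpr hv) (Finset.singleton_nonempty v)
  · rw [mem_ostar]
    intro t ht hpt
    have h1 : p ∈ convexHull ℝ ((s ∩ t : Finset E) : Set E) := by
      rw [Finset.coe_inter]
      exact K.inter_subset_convexHull hs.1 ht ⟨hs.2, hpt⟩
    have h2 : (s ∩ t).Nonempty := by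
      rw [← Finset.coe_nonempty]
      exact convexHull_nonempty_iff.mp ⟨p, h1⟩
    have h3 : s ∩ t ∈ T := ⟨K.down_closed hs.1 Finset.inter_subset_left h2, h1⟩
    have h4 := hmin h3 (Finset.card_le_card Finset.inter_subset_left)
    have h5 : s ∩ t = s := Finset.eq_of_subset_of_card_le Finset.inter_subset_left h4
    rw [← h5] at hv
    exact (Finset.mem_inter.mp hv).2

theorem lebesgue (hK : K.vertices.Finite) : ∃ η > 0, ∀ p ∈ K.space, ∃ v ∈ K.vertices,
    Metric.ball p η ⊆ ostar K v := by
  obtain ⟨η, hη, h⟩ := lebesgue_number_lemma_of_metric (space_compact K hK)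
    (c := fun v : K.vertices => ostar K v.1) (fun v => ostar_open K hK v.1) (by
      intro p hp
      obtain ⟨v, hv, hpv⟩ := exists_carrier K hK hp
      exact Set.mem_iUnion.mpr ⟨⟨v, hv⟩, hpv⟩)
  refine ⟨η, hη, fun p hp => ?_⟩
  obtain ⟨v, hv⟩ := h p hp
  exact ⟨v.1, v.2, hv⟩

end Complex

section Label

variable {S : Type} [MetricSpace S] [CompactSpace S] [Nonempty S] {ng : S → S}
variable {E : Type} [NormedAddCommGroup E] [NormedSpace ℝ E] {q : S → E}

open Classical in
/-- the signed graph attached to a symmetric sign function -/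
noncomputable def SG.ofSign {V : Type} (s : V → V → Bool) (hs : ∀ v w, s v w = s w v) :
    SG (V × Bool) where
  a x := (x.1, !x.2)
  ha x := by simp
  Adj x y := x.1 ≠ y.1 ∧ (x.2 ^^ y.2) = s x.1 y.1
  irr x h := h.1 rfl
  irr' x h := h.1 rfl
  ne x h := by
    have := congrArg Prod.snd h
    simp at this
  symm := by
    rintro x y ⟨h1, h2⟩
    exact ⟨fun e => h1 e.symm, by rw [Bool.xor_comm, h2, hs]⟩
  excl := by
    rintro x y ⟨h1, h2⟩ ⟨_, h3⟩
    simp only at h3
    rw [← h2] at h3
    revert h3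
    cases x.2 <;> cases y.2 <;> decide
  tot := by
    rintro x y h1 h2
    have hne : x.1 ≠ y.1 := by
      intro e
      by_cases hb : y.2 = x.2
      · exact h1 (Prod.ext e.symm hb)
      · refine h2 (Prod.ext e.symm ?_)
        simp only
        revert hb
        cases x.2 <;> cases y.2 <;> decide
    by_cases hb : (x.2 ^^ y.2) = s x.1 y.1
    · exact Or.inl ⟨hne, hb⟩
    · refine Or.inr ⟨hne, ?_⟩
      simp only
      revert hb
      cases x.2 <;> cases y.2 <;> cases s x.1 y.1 <;> decide
  eqv := by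
    rintro x y ⟨h1, h2⟩
    refine ⟨h1, ?_⟩
    simp only
    rw [← h2]
    cases x.2 <;> cases y.2 <;> decide

/-- abstract labelling statement -/
theorem exists_label (K : Geometry.SimplicialComplex ℝ E) (hK : K.vertices.Finite)
    (h : Cov ng q K.space) :
    ∃ (s : K.vertices → K.vertices → Bool) (hs : ∀ v w, s v w = s w v)
      (lam : S → K.vertices × Bool) (ε : ℝ), 0 < ε ∧
      (∀ x, lam (ng x) = (SG.ofSign s hs).a (lam x)) ∧
      ∀ x y, dist x y < ε → dist (q x) (q y) < ε →
        lam x = lam y ∨ (SG.ofSign s hs).Adj (lam x) (lam y) := by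
  classical
  obtain ⟨δ, hδ, hd⟩ := h.dichotomy
  obtain ⟨η, hη, hL⟩ := lebesgue K hK
  -- number of steps
  obtain ⟨B, hB⟩ := (space_compact K hK).isBounded.exists_norm_le
  obtain ⟨N, hN⟩ := exists_nat_gt ((2 * |B| + 1) / δ)
  have hN' : 2 * |B| + 1 < N * δ := by rwa [div_lt_iff₀ hδ] at hN
  have hNpos : 0 < N := by
    rcases Nat.eq_zero_or_pos N with h0 | h0
    · subst h0
      have := abs_nonneg B
      simp at hN'
      linarith
    · exact h0
  have hsc : Scale ng q K.space δ N := ⟨hNpos, hd, fun p hp m hm => by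
    have h1 := hB p hp
    have h2 := hB m hm
    have h3 := le_abs_self B
    calc dist p m ≤ ‖p‖ + ‖m‖ := dist_le_norm_add_norm p m
      _ < N * δ := by linarith⟩
  choose! vv hvv using hL
  -- the sign function
  let s : K.vertices → K.vertices → Bool := fun v w =>
    if ∃ t ∈ K.faces, v.1 ∈ t ∧ w.1 ∈ t then sgn0 ng q N v.1 w.1 else false
  have hfc : ∀ t ∈ K.faces, convexHull ℝ (t : Set E) ⊆ K.space := fun t ht =>
    Geometry.SimplicialComplex.convexHull_subset_space ht
  have hsub : ∀ (t : Finset E) (v : E), v ∈ t → v ∈ convexHull ℝ (t : Set E) := fun t v hv =>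
    subset_convexHull ℝ _ hv
  have hs : ∀ v w, s v w = s w v := by
    intro v w
    by_cases hc : ∃ t ∈ K.faces, v.1 ∈ t ∧ w.1 ∈ t
    · have hc' : ∃ t ∈ K.faces, w.1 ∈ t ∧ v.1 ∈ t := by
        obtain ⟨t, h1, h2, h3⟩ := hc
        exact ⟨t, h1, h3, h2⟩
      simp only [s, hc, hc', if_true]
      obtain ⟨t, h1, h2, h3⟩ := hc
      have hqv : q (pre q v.1) = v.1 := q_pre h (hfc t h1 (hsub t _ h2))
      have e1 := sgn0_spec h hsc (x := pre q v.1) (v := v.1) (w := w.1) (convex_convexHull ℝ _)
        (hfc t h1) (by rw [hqv]; exact hsub t _ h2) (hsub t _ h2) (hsub t _ h3)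
      have e2 := sgn0_spec h hsc (x := pre q v.1) (v := w.1) (w := v.1) (convex_convexHull ℝ _)
        (hfc t h1) (by rw [hqv]; exact hsub t _ h2) (hsub t _ h3) (hsub t _ h2)
      rw [← e1, ← e2, Bool.xor_comm]
    · have hc' : ¬ ∃ t ∈ K.faces, w.1 ∈ t ∧ v.1 ∈ t := by
        rintro ⟨t, h1, h2, h3⟩
        exact hc ⟨t, h1, h3, h2⟩
      simp only [s, hc, hc', if_false]
  have hqK : ∀ x, q x ∈ K.space := h.mem
  let lam : S → K.vertices × Bool := fun x =>
    (⟨vv (q x), (hvv (q x) (hqK x)).1⟩, side ng q N (vv (q x)) x)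
  refine ⟨s, hs, lam, min (1 / 4) (min δ η), by positivity, ?_, ?_⟩
  · intro x
    have hball : q x ∈ ostar K (vv (q x)) :=
      (hvv (q x) (hqK x)).2 (Metric.mem_ball_self hη)
    obtain ⟨t, ht, hpt⟩ := Geometry.SimplicialComplex.mem_space_iff.mp (hqK x)
    have hvt : vv (q x) ∈ t := (mem_ostar K).mp hball t ht hpt
    have e := side_ng h hsc (x := x) (v := vv (q x))
      ⟨_, convex_convexHull ℝ _, hfc t ht, hpt, hsub t _ hvt⟩
    refine Prod.ext ?_ ?_
    · apply Subtype.ext
      show vv (q (ng x)) = vv (q x)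
      rw [h.qn]
    · show side ng q N (vv (q (ng x))) (ng x) = !side ng q N (vv (q x)) x
      rw [h.qn, e]
  · intro x y hxy hqxy
    have hx4 : dist x y < 1 / 4 := lt_of_lt_of_le hxy (min_le_left _ _)
    have hqδ : dist (q x) (q y) < δ :=
      lt_of_lt_of_le hqxy ((min_le_right _ _).trans (min_le_left _ _))
    have hqη : dist (q x) (q y) < η :=
      lt_of_lt_of_le hqxy ((min_le_right _ _).trans (min_le_right _ _))
    set v := vv (q x) with hv
    set w := vv (q y) with hw
    have hxv : q x ∈ ostar K v := (hvv (q x) (hqK x)).2 (Metric.mem_ball_self hη)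
    have hyw : q y ∈ ostar K w := (hvv (q y) (hqK y)).2 (Metric.mem_ball_self hη)
    have hyv : q y ∈ ostar K v := (hvv (q x) (hqK x)).2 (by
      rw [Metric.mem_ball, dist_comm]; exact hqη)
    have hxw : q x ∈ ostar K w := (hvv (q y) (hqK y)).2 (by
      rw [Metric.mem_ball]; exact hqη)
    obtain ⟨t, ht, hpt⟩ := Geometry.SimplicialComplex.mem_space_iff.mp (hqK x)
    obtain ⟨t', ht', hpt'⟩ := Geometry.SimplicialComplex.mem_space_iff.mp (hqK y)
    have a1 := (mem_ostar K).mp hxv t ht hpt
    have a2 := (mem_ostar K).mp hxw t ht hpt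
    have a3 := (mem_ostar K).mp hyv t' ht' hpt'
    have a4 := (mem_ostar K).mp hyw t' ht' hpt'
    have b1 : side ng q N w x = side ng q N w y := side_close h hsc
      ⟨_, convex_convexHull ℝ _, hfc t ht, hpt, hsub t _ a2⟩
      ⟨_, convex_convexHull ℝ _, hfc t' ht', hpt', hsub t' _ a4⟩ hx4 hqδ
    have b2 := sgn0_spec h hsc (x := x) (v := v) (w := w) (convex_convexHull ℝ _)
        (hfc t ht) hpt (hsub t _ a1) (hsub t _ a2)
    by_cases hvw : v = w
    · left
      refine Prod.ext (Subtype.ext hvw) ?_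
      show side ng q N v x = side ng q N w y
      rw [← b1, hvw]
    · right
      refine ⟨fun e => hvw (congrArg Subtype.val e), ?_⟩
      have hc : ∃ t ∈ K.faces, v ∈ t ∧ w ∈ t := ⟨t, ht, a1, a2⟩
      show (side ng q N v x ^^ side ng q N w y) = if ∃ t ∈ K.faces, v ∈ t ∧ w ∈ t then
        sgn0 ng q N v w else false
      rw [if_pos hc, ← b2, b1]

end Label

end Pool.Agent.TH651.RP5
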