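import Pool.Agent.TH651.RP5.Topo

/-!
The Smith sequence of a triangulation of real projective 5-space.
-/

set_option autoImplicit false
set_option linter.unusedSectionVars false

namespace Pool.Agent.TH651.RP5

open Pool.Agent.Helper82.BorsukUlam (Chain H K ev nu faces)

section Norm

abbrev E6 := EuclideanSpace ℝ (Fin 6)

abbrev S5 := Metric.sphere (0 : E6) 1

noncomputable instance : Nonempty S5 := by
  refine ⟨⟨EuclideanSpace.single 0 1, ?_⟩⟩
  rw [mem_sphere_zero_iff_norm, EuclideanSpace.norm_single, norm_one]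

instance : CompactSpace S5 := isCompact_iff_compactSpace.mp (isCompact_sphere 0 1)

noncomputable def nrm (x : Fin 6 → ℝ) : E6 := ‖(WithLp.toLp 2 x : E6)‖⁻¹ • (WithLp.toLp 2 x : E6)

theorem nrm_mem {x : Fin 6 → ℝ} (hx : x ≠ 0) : nrm x ∈ S5 := by
  have h : (WithLp.toLp 2 x : E6) ≠ 0 := by
    intro e
    apply hx
    have := congrArg WithLp.ofLp e
    simpa using this
  rw [mem_sphere_zero_iff_norm, nrm, norm_smul, norm_inv, norm_norm]
  exact inv_mul_cancel₀ (norm_ne_zero_iff.mpr h)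

open Classical in
noncomputable def rho (x : Fin 6 → ℝ) : S5 :=
  if hx : x ≠ 0 then ⟨nrm x, nrm_mem hx⟩ else Classical.arbitrary S5

theorem rho_val {x : Fin 6 → ℝ} (hx : x ≠ 0) : (rho x : E6) = nrm x := by
  rw [rho, dif_pos hx]

theorem rho_neg {x : Fin 6 → ℝ} (hx : x ≠ 0) : rho (-x) = -rho x := by
  apply Subtype.ext
  have h1 : ((-rho x : S5) : E6) = -(rho x : E6) := rfl
  rw [h1, rho_val hx, rho_val (neg_ne_zero.mpr hx), nrm, nrm]
  have : (WithLp.toLp 2 (-x) : E6) = -(WithLp.toLp 2 x : E6) := rfl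
  rw [this, norm_neg, smul_neg]

theorem K_ne_zero {x : Fin 6 → ℝ} (hx : x ∈ K 5) : x ≠ 0 := by
  rintro rfl
  simp [K] at hx

theorem rho_contOn : ContinuousOn rho (K 5) := by
  rw [Topology.IsInducing.subtypeVal.continuousOn_iff]
  have h1 : ContinuousOn nrm (K 5) := by
    have h2 : Continuous fun x : Fin 6 → ℝ => (WithLp.toLp 2 x : E6) := by fun_prop
    refine ContinuousOn.smul (ContinuousOn.inv₀ h2.norm.continuousOn ?_) h2.continuousOn
    intro x hx e
    rw [norm_eq_zero] at e
    apply K_ne_zero hx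
    have := congrArg WithLp.ofLp e
    simpa using this
  refine h1.congr ?_
  intro x hx
  exact rho_val (K_ne_zero hx)

end Norm

section Main

def rel (x y : S5) : Prop := (x : E6) = (y : E6) ∨ (x : E6) = -(y : E6)

theorem rel_equiv : Equivalence rel := by
  refine ⟨fun x => Or.inl rfl, ?_, ?_⟩
  · rintro x y (h | h)
    · exact Or.inl h.symm
    · exact Or.inr (by rw [h, neg_neg])
  · rintro x y z (h | h) (h' | h')
    · exact Or.inl (h.trans h')
    · exact Or.inr (h.trans h')
    · exact Or.inr (by rw [h, h'])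
    · exact Or.inl (by rw [h, h', neg_neg])

theorem rel_of_mk_eq {x y : S5} (h : Quot.mk rel x = Quot.mk rel y) : rel x y := by
  have := Quot.eqvGen_exact h
  exact (rel_equiv.eqvGen_iff).mp this

variable {n : ℕ} (L : Geometry.SimplicialComplex ℝ (EuclideanSpace ℝ (Fin n)))
  (Φ : L.space ≃ₜ Quot rel)

noncomputable def qmap (x : S5) : EuclideanSpace ℝ (Fin n) := (Φ.symm (Quot.mk rel x) : _)

theorem cov : Cov (fun x : S5 => -x) (qmap L Φ) L.space where
  cont := continuous_subtype_val.comp (Φ.symm.continuous.comp continuous_quot_mk)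
  ngcont := by
    rw [continuous_induced_rng]
    exact continuous_subtype_val.neg
  nn := fun x => neg_neg x
  far := fun x => by
    have hx : ‖(x : E6)‖ = 1 := mem_sphere_zero_iff_norm.mp x.2
    show dist (x : E6) (-(x : E6)) = 2
    rw [dist_eq_norm, sub_neg_eq_add, ← two_smul ℝ, norm_smul, hx]
    norm_num
  iso := fun x y => by
    show dist (-(x : E6)) (-(y : E6)) = dist (x : E6) (y : E6)
    exact dist_neg_neg _ _
  qn := fun x => by
    unfold qmap
    have : Quot.mk rel (-x) = Quot.mk rel x := Quot.sound (Or.inr rfl)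
    rw [this]
  fib := fun x y h => by
    have h1 : Φ.symm (Quot.mk rel x) = Φ.symm (Quot.mk rel y) := Subtype.ext h
    have h2 := rel_of_mk_eq (Φ.symm.injective h1)
    rcases h2 with h3 | h3
    · exact Or.inl (Subtype.ext h3.symm)
    · right
      apply Subtype.ext
      show (y : E6) = -(x : E6)
      rw [h3, neg_neg]
  mem := fun x => (Φ.symm (Quot.mk rel x)).2
  surj := fun p hp => by
    obtain ⟨x, hx⟩ := Quot.exists_rep (Φ ⟨p, hp⟩)
    refine ⟨x, ?_⟩
    unfold qmap
    rw [hx, Φ.symm_apply_apply]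

def actL {X : Type} [DecidableEq X] (a : X → X) : Ch X →ₗ[ZMod 2] Ch X where
  toFun := act a
  map_add' _ _ := rfl
  map_smul' _ _ := rfl

theorem exists_smith [Fintype L.vertices] [DecidableEq L.vertices] (hL : L.vertices.Finite)
    (Ψ : L.space ≃ₜ Quot rel) :
    ∃ (s : L.vertices → L.vertices → Bool) (hs : ∀ v w, s v w = s w v)
      (c : ℕ → Ch (L.vertices × Bool)), Smith (SG.ofSign s hs) 5 Finset.univ c := by
  obtain ⟨s, hs, lam, ε, hε, hneg, hadj⟩ := exists_label L hL (cov L Ψ)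
  set g := SG.ofSign s hs with hg
  refine ⟨s, hs, ?_⟩
  -- uniform continuity
  have hcont : ContinuousOn (fun x => (rho x, qmap L Ψ (rho x))) (K 5) :=
    rho_contOn.prodMk ((cov L Ψ).cont.comp_continuousOn rho_contOn)
  have huc := (Pool.Agent.Helper82.BorsukUlam.K_compact 5).uniformContinuousOn_of_continuous hcont
  rw [Metric.uniformContinuousOn_iff] at huc
  obtain ⟨δ, hδ, hδ'⟩ := huc ε hε
  have hq : ((6 : ℝ) / 7) < 1 := by norm_num
  obtain ⟨r, hr⟩ := exists_pow_lt_of_lt_one (show 0 < δ / 2 by positivity) hq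
  let lab : (Fin 6 → ℝ) → L.vertices × Bool := fun x => lam (rho x)
  have hlabneg : ∀ x ∈ K 5, lab (-x) = g.a (lab x) := by
    intro x hx
    show lam (rho (-x)) = _
    rw [rho_neg (K_ne_zero hx)]
    exact hneg (rho x)
  have hlab : ∀ x ∈ K 5, ∀ y ∈ K 5, dist x y < δ → lab x = lab y ∨ g.Adj (lab x) (lab y) := by
    intro x hx y hy hxy
    have := hδ' x hx y hy hxy
    rw [Prod.dist_eq, max_lt_iff] at this
    exact hadj _ _ this.1 this.2
  have hmesh : ∀ k ≤ 5, ((((k + 1 : ℕ) : ℝ) / ((k + 1 : ℕ) + 1)) ^ r * 2) < δ := by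
    intro k hk
    have h1 : (((k + 1 : ℕ) : ℝ) / ((k + 1 : ℕ) + 1)) ≤ 6 / 7 := by
      have : (k : ℝ) ≤ 5 := by exact_mod_cast hk
      rw [div_le_div_iff₀ (by positivity) (by norm_num)]
      push_cast
      linarith
    have h2 : (((k + 1 : ℕ) : ℝ) / ((k + 1 : ℕ) + 1)) ^ r ≤ (6 / 7) ^ r :=
      pow_le_pow_left₀ (by positivity) h1 r
    linarith
  refine ⟨fun k => pf lab (H (ev 5) r k), ⟨?_, ?_, ?_⟩⟩
  · intro k hk F hF
    by_contra hcon
    apply hF
    refine Pool.Agent.Helper82.BorsukUlam.lin_eq_zero ((LinearMap.proj F).comp (pf lab)) ?_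
      (Pool.Agent.Helper82.BorsukUlam.H_support 5 r k hk)
    rintro l ⟨C, hC, hlen, hl, hD⟩
    rw [LinearMap.comp_apply, pf_single, one_smul, LinearMap.proj_apply]
    by_contra hne
    obtain ⟨h1, h2⟩ := push_support lab l F hne
    have hlK : ∀ v ∈ l, v ∈ K 5 := fun v hv =>
      Pool.Agent.Helper82.BorsukUlam.faces_sub_K _ C hC (hl v hv)
    apply hcon
    refine ⟨by rw [h1, hlen], ?_, Finset.subset_univ _⟩
    intro x hx y hy hxy
    obtain ⟨u, hu, rfl⟩ := h2 x hx
    obtain ⟨v, hv, rfl⟩ := h2 y hy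
    rcases hlab u (hlK u hu) v (hlK v hv) (by
      rw [dist_eq_norm]
      exact lt_of_le_of_lt (hD u hu v hv) (hmesh k hk)) with h3 | h3
    · exact absurd h3 hxy
    · exact h3
  · intro k hk
    show bd (pf lab (H (ev 5) r (k + 1))) = pf lab (H (ev 5) r k) + act g.a (pf lab (H (ev 5) r k))
    rw [← pf_bd, Pool.Agent.Helper82.BorsukUlam.bd_H_succ, map_add]
    congr 1
    have := Pool.Agent.Helper82.BorsukUlam.lin_eq_zero
      ((pf lab).comp (nu (V := Fin 6 → ℝ)) - (actL g.a).comp (pf lab))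
      (P := fun l => ∀ v ∈ l, v ∈ K 5) (c := H (ev 5) r k) ?_ ?_
    · rw [LinearMap.sub_apply, LinearMap.comp_apply, LinearMap.comp_apply, sub_eq_zero] at this
      exact this
    · intro l hl
      rw [LinearMap.sub_apply, LinearMap.comp_apply, LinearMap.comp_apply, sub_eq_zero,
        Pool.Agent.Helper82.BorsukUlam.nu_single, pf_single, pf_single, one_smul, one_smul]
      exact push_neg g.ha lab l (fun v hv => hlabneg v (hl v hv))
    · refine Pool.Agent.Helper82.BorsukUlam.S_mono ?_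
        (Pool.Agent.Helper82.BorsukUlam.H_support 5 r k (by omega))
      rintro l ⟨C, hC, -, hl, -⟩ v hv
      exact Pool.Agent.Helper82.BorsukUlam.faces_sub_K _ C hC (hl v hv)
  · show bd (pf lab (H (ev 5) r 0)) ∅ = 1
    rw [← pf_bd, Pool.Agent.Helper82.BorsukUlam.bd_H_zero, pf_single, one_smul]
    simp [push]

end Main

end Pool.Agent.TH651.RP5
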