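import Pool.Agent.TH651.RP5.Frame

/-!
Towers of good cycles and the models they give.
-/

set_option autoImplicit false
set_option linter.unusedSectionVars false

namespace Pool.Agent.TH651.RP5

section Tower

variable {X : Type} [Fintype X] [DecidableEq X] (g : SG X) (x : ℕ → X)

/-- the block of the frame with indices in `[a, b)` -/
def blk (a b : ℕ) : Finset X := (Finset.Ico a b).image x

def down (nk : ℕ → ℕ) (K : ℕ) (yt : Ch X) : ℕ → Ch X
  | 0 => yt
  | j + 1 => D g (blk x (nk (K - (j + 1))) (nk (K - j))) (down nk K yt j)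

/-- the tower below a top cycle -/
def twr (nk : ℕ → ℕ) (k0 K : ℕ) (yt : Ch X) : ℕ → Ch X := fun k =>
  if k < k0 ∨ K < k then 0 else down g x nk K yt (K - k)

variable {g x}

theorem twr_top {nk : ℕ → ℕ} {k0 K : ℕ} {yt : Ch X} (h : k0 ≤ K) : twr g x nk k0 K yt K = yt := by
  unfold twr
  rw [if_neg (by omega), Nat.sub_self]; rfl

theorem twr_step {nk : ℕ → ℕ} {k0 K k : ℕ} {yt : Ch X} (h0 : k0 ≤ k) (h1 : k < K) :
    twr g x nk k0 K yt k = D g (blk x (nk k) (nk (k + 1))) (twr g x nk k0 K yt (k + 1)) := by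
  unfold twr
  rw [if_neg (by omega), if_neg (by omega)]
  obtain ⟨j, hj⟩ := Nat.exists_eq_add_of_lt h1
  have e1 : K - k = j + 1 := by omega
  have e2 : K - (k + 1) = j := by omega
  rw [e1, e2]
  show D g (blk x (nk (K - (j + 1))) (nk (K - j))) (down g x nk K yt j) = _
  have e3 : K - (j + 1) = k := by omega
  have e4 : K - j = k + 1 := by omega
  rw [e3, e4]

theorem mem_img {b : ℕ} {v : X} : v ∈ img g x b ↔ ∃ l < b, lt g x l = v := by
  simp [img]

theorem blk_sub {n a b : ℕ} (_hb : b ≤ n) {v : X} (hv : v ∈ blk x a b) :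
    ∃ i, a ≤ i ∧ i < b ∧ x i = v := by
  simp only [blk, Finset.mem_image, Finset.mem_Ico] at hv
  obtain ⟨i, ⟨h1, h2⟩, h3⟩ := hv
  exact ⟨i, h1, h2, h3⟩

theorem img_sdiff {n a b : ℕ} (hi : Inj g x n) (hab : a ≤ b) (hb : b ≤ n) :
    img g x (2 * b) \ (blk x a b ∪ (blk x a b).image g.a) = img g x (2 * a) := by
  ext v
  rw [Finset.mem_sdiff, mem_img, mem_img, Finset.mem_union, mem_image_iff g.ha]
  constructor
  · rintro ⟨⟨l, hl, rfl⟩, h2⟩
    refine ⟨l, ?_, rfl⟩
    by_contra hcon
    apply h2
    by_cases h3 : l % 2 = 0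
    · left
      unfold lt; rw [if_pos h3]
      exact Finset.mem_image_of_mem _ (Finset.mem_Ico.mpr ⟨by omega, by omega⟩)
    · right
      unfold lt; rw [if_neg h3, g.ha]
      exact Finset.mem_image_of_mem _ (Finset.mem_Ico.mpr ⟨by omega, by omega⟩)
  · rintro ⟨l, hl, rfl⟩
    refine ⟨⟨l, by omega, rfl⟩, ?_⟩
    rintro (h | h)
    · obtain ⟨i, h1, h2, h3⟩ := blk_sub hb h
      rw [← lt_even g x] at h3
      have := lt_inj hi (by omega) (by omega) h3
      omega
    · obtain ⟨i, h1, h2, h3⟩ := blk_sub hb h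
      have h4 : lt g x (2 * i + 1) = lt g x l := by
        rw [lt_odd, h3, g.ha]
      have := lt_inj hi (by omega) (by omega) h4
      omega

theorem img_disj {n a b : ℕ} (hi : Inj g x n) (hab : a ≤ b) (hb : b ≤ n) {F : Finset X}
    (hF : F ⊆ img g x (2 * a)) : Disjoint F (blk x a b ∪ (blk x a b).image g.a) := by
  rw [Finset.disjoint_left]
  intro v hv hv2
  have h1 := hF hv
  rw [← img_sdiff hi hab hb, Finset.mem_sdiff] at h1
  exact h1.2 hv2

theorem D_blk {n a b : ℕ} (hi : Inj g x n) (hab : a ≤ b) (hb : b ≤ n) {F : Finset X}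
    (hF : F ⊆ img g x (2 * a)) (y : Ch X) :
    D g (blk x a b) y F = ∑ p ∈ Finset.range (b - a), y (insert (x (a + p)) F) := by
  unfold D
  rw [if_pos (img_disj hi hab hb hF), blk, Finset.sum_image, Finset.sum_Ico_eq_sum_range]
  intro i hi2 j hj e
  rw [Finset.mem_coe, Finset.mem_Ico] at hi2 hj
  by_contra hne
  exact (hi i (by omega) j (by omega) hne).1 e

theorem D_blk_anti {n a b : ℕ} (hi : Inj g x n) (hab : a ≤ b) (hb : b ≤ n) {F : Finset X}
    (hF : F ⊆ img g x (2 * a)) (y : Ch X) :
    D g ((blk x a b).image g.a) y F =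
      ∑ p ∈ Finset.range (b - a), y (insert (g.a (x (a + p))) F) := by
  unfold D
  have h := img_disj hi hab hb hF
  rw [image_image g.ha, Finset.union_comm, if_pos h, blk, Finset.sum_image, Finset.sum_image,
    Finset.sum_Ico_eq_sum_range]
  · intro i hi2 j hj e
    rw [Finset.mem_coe, Finset.mem_Ico] at hi2 hj
    by_contra hne
    exact (hi i (by omega) j (by omega) hne).1 e
  · intro u _ v _ e
    exact g.ha.injective e

variable (g x) in
structure TH (e : Env) (k0 K : ℕ) (yt : Ch X) : Prop where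
  hlen : e.nk.length = K + 1
  hk : k0 ≤ K
  hn : e.n ≤ 16
  htop : e.nk.getD K 0 = e.n
  inj : Inj g x e.n
  mono : ∀ k, k0 ≤ k → k < K → e.nk.getD k 0 ≤ e.nk.getD (k + 1) 0
  zero : ∀ k < k0, e.nk.getD k 0 = 0
  cl : ∀ k, k0 ≤ k → k < K → Clique g (blk x (e.nk.getD k 0) (e.nk.getD (k + 1) 0))
  top : Good g K (img g x (2 * e.n)) yt

def tw (g : SG X) (x : ℕ → X) (e : Env) (k0 K : ℕ) (yt : Ch X) : ℕ → Ch X :=
  twr g x (fun k => e.nk.getD k 0) k0 K yt

theorem TH.le {e : Env} {k0 K : ℕ} {yt : Ch X} (h : TH g x e k0 K yt) : ∀ k ≤ K,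
    e.nk.getD k 0 ≤ e.n := by
  have key : ∀ j, ∀ k, k + j = K → k0 ≤ k → e.nk.getD k 0 ≤ e.n := by
    intro j
    induction j with
    | zero => intro k hk _; rw [← h.htop]; simp at hk; rw [hk]
    | succ j ih =>
      intro k hk hk0
      exact (h.mono k hk0 (by omega)).trans (ih (k + 1) (by omega) (by omega))
  intro k hk
  by_cases h1 : k < k0
  · rw [h.zero k h1]; omega
  · exact key (K - k) k (by omega) (by omega)

theorem TH.good {e : Env} {k0 K : ℕ} {yt : Ch X} (h : TH g x e k0 K yt) : ∀ j, ∀ k, k + j = K →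
    k0 ≤ k → Good g k (img g x (2 * e.nk.getD k 0)) (tw g x e k0 K yt k) := by
  intro j
  induction j with
  | zero =>
    intro k hk hk0
    have : k = K := by omega
    subst this
    unfold tw
    rw [twr_top hk0, h.htop]
    exact h.top
  | succ j ih =>
    intro k hk hk0
    have h1 := ih (k + 1) (by omega) (by omega)
    have h2 := Good.desc g (h.cl k hk0 (by omega)) h1
    rw [img_sdiff h.inj (h.mono k hk0 (by omega)) (h.le (k + 1) (by omega))] at h2
    unfold tw at h2 ⊢
    rw [twr_step hk0 (by omega)]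
    exact h2

noncomputable def tabOK (e : Env) (kn sg : List ℕ) : Bool :=
  (List.range (2 * e.n)).all (fun z => (List.range (2 * e.n)).all (fun l =>
    (!((e.T.get z).testBit l) || Nat.beq (z / 2) (l / 2) || (knb kn z l && nadj sg z l)) &&
    (!((e.U.get z).testBit l) || (!(Nat.beq (z / 2) (l / 2)) && (knb kn z l && !(nadj sg z l))))))

theorem tabOK_spec {e : Env} {kn sg : List ℕ} (hi : Inj g x e.n) (hk : Kn g x e.n kn sg)
    (h : tabOK e kn sg = true) {z l : ℕ} (hz : z < 2 * e.n) (hl : l < 2 * e.n) :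
    ((e.T.get z).testBit l = true → ¬ g.Adj (lt g x z) (lt g x l)) ∧
      ((e.U.get z).testBit l = true → g.Adj (lt g x z) (lt g x l)) := by
  rw [tabOK, List.all_eq_true] at h
  have h1 := h z (List.mem_range.mpr hz)
  rw [List.all_eq_true] at h1
  have h2 := h1 l (List.mem_range.mpr hl)
  rw [Bool.and_eq_true] at h2
  obtain ⟨h3, h4⟩ := h2
  constructor
  · intro hT
    rw [hT] at h3
    by_cases hne : z / 2 = l / 2
    · intro hadj
      unfold lt at hadj
      rw [hne] at hadj
      split_ifs at hadj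
      · exact g.irr _ hadj
      · exact g.irr' _ hadj
      · rw [anti_adj] at hadj; exact g.irr' _ hadj
      · exact g.irr _ hadj
    · have h5 : Nat.beq (z / 2) (l / 2) = false := by
        rw [← Bool.not_eq_true, beq_iff]; exact hne
      rw [h5] at h3
      simp only [Bool.not_true, Bool.false_or, Bool.and_eq_true] at h3
      exact (nadj_spec hi hk hz hl hne h3.1).mp h3.2
  · intro hU
    rw [hU] at h4
    simp only [Bool.not_true, Bool.false_or, Bool.and_eq_true, Bool.not_eq_true'] at h4
    obtain ⟨h5, h6, h7⟩ := h4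
    have hne : z / 2 ≠ l / 2 := by
      rw [← Bool.not_eq_true, beq_iff] at h5; exact h5
    by_contra hcon
    rw [(nadj_spec hi hk hz hl hne h6).mpr hcon] at h7
    exact absurd h7 (by decide)

/-- the model given by a tower -/
theorem TH.sem {e : Env} {k0 K : ℕ} {yt : Ch X} (h : TH g x e k0 K yt) {kn sg : List ℕ}
    (hk : Kn g x e.n kn sg) (htab : tabOK e kn sg = true)
    (hfull : ∀ k, k0 ≤ k → k < K → ∀ m ∈ e.full, (FS m).card = k + 1 →
      ∀ y, Good g k (img g x (2 * e.nk.getD k 0)) y → y (fs g x m) = 1)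
    (hinv : ∀ F, F ⊆ img g x (2 * e.nk.getD e.inv 0) → F.card = e.inv + 1 →
      tw g x e k0 K yt e.inv F = 1 → tw g x e k0 K yt e.inv (F.image g.a) = 1)
    (hforb : ∀ q b, (q, b) ∈ e.forb → b ≤ 2 * e.n ∧ ∀ F, F ⊆ img g x b → F.card = q →
      ¬ Clique g F) : Sem g x (tw g x e k0 K yt) e where
  hn := h.hn
  inj := h.inj
  hT := fun z l hz hl => (tabOK_spec h.inj hk htab hz hl).1
  hU := fun z l hz hl => (tabOK_spec h.inj hk htab hz hl).2
  hnk := fun k hk => h.le k (by rw [h.hlen] at hk; omega)
  supp := by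
    intro k hk
    rw [h.hlen] at hk
    by_cases h1 : k < k0
    · have : tw g x e k0 K yt k = 0 := by unfold tw twr; rw [if_pos (Or.inl h1)]
      rw [this]; exact Supp.zero g k _
    · exact (h.good (K - k) k (by omega) (by omega)).supp g (img_inv _)
  supp' := by
    intro k
    by_cases h1 : k < k0 ∨ K < k
    · have : tw g x e k0 K yt k = 0 := by unfold tw twr; rw [if_pos h1]
      rw [this]; exact Supp.zero g k _
    · intro F hF
      obtain ⟨a, b, c⟩ := (h.good (K - k) k (by omega) (by omega)).supp g (img_inv _) F hF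
      exact ⟨a, b, Finset.subset_univ _⟩
  cyc := by
    intro k hk1 hk
    rw [h.hlen] at hk
    by_cases h1 : k < k0
    · have : tw g x e k0 K yt k = 0 := by unfold tw twr; rw [if_pos (Or.inl h1)]
      rw [this]; exact bd_zero
    · obtain ⟨k', rfl⟩ : ∃ k', k = k' + 1 := ⟨k - 1, by omega⟩
      exact (h.good (K - (k' + 1)) (k' + 1) (by omega) (by omega)).cycle g
  dsc := by
    intro k hk F hF hcard
    rw [h.hlen] at hk
    by_cases h1 : k < k0
    · rw [h.zero k h1] at hF
      have : F = ∅ := Finset.subset_empty.mp (by simpa [img] using hF)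
      rw [this] at hcard
      simp at hcard
    · have h2 : tw g x e k0 K yt k = D g (blk x (e.nk.getD k 0) (e.nk.getD (k + 1) 0))
          (tw g x e k0 K yt (k + 1)) := twr_step (by omega) (by omega)
      rw [h2, D_blk h.inj (h.mono k (by omega) (by omega)) (h.le (k + 1) (by omega)) hF]
  full := by
    intro k hk L hL hlen hmem u hu
    have hn := h.hn
    rw [h.hlen] at hk
    have hle := h.le k (by omega)
    by_cases h1 : k < k0
    · exfalso
      rw [h.zero k h1] at hL
      have : L ≠ [] := by intro e2; rw [e2] at hlen; simp at hlen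
      obtain ⟨l, hl⟩ := List.exists_mem_of_ne_nil L this
      have := hL.2 l hl
      omega
    · have hP := h.cl k (by omega) (by omega)
      have hgood := h.good (K - (k + 1)) (k + 1) (by omega) (by omega)
      have hsub : fs g x (mkM L) ⊆ img g x (2 * e.nk.getD k 0) := fs_sub hL (by omega)
      have hmono := h.mono k (by omega) (by omega)
      have hle' := h.le (k + 1) (by omega)
      have hcard : (FS (mkM L)).card = k + 1 := by rw [FS_card hL (by omega), hlen]
      rcases Nat.le_one_iff_eq_zero_or_eq_one.mp hu with rfl | rfl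
      · have h2 := Good.desc g hP hgood
        rw [img_sdiff h.inj hmono hle'] at h2
        have h3 := hfull k (by omega) (by omega) _ hmem hcard _ h2
        rw [D_blk h.inj hmono hle' hsub] at h3
        rw [← h3]
        refine Finset.sum_congr rfl (fun p _ => ?_)
        rw [add_zero, lt_even]
      · have h2 := Good.desc g hP.image hgood
        rw [image_image g.ha, Finset.union_comm, img_sdiff h.inj hmono hle'] at h2
        have h3 := hfull k (by omega) (by omega) _ hmem hcard _ h2
        rw [D_blk_anti h.inj hmono hle' hsub] at h3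
        rw [← h3]
        refine Finset.sum_congr rfl (fun p _ => ?_)
        rw [lt_odd]
  inv := hinv
  forb := hforb

/-- no invariance required -/
theorem inv_trivial {e : Env} (h : e.nk.getD e.inv 0 = 0) (y : ℕ → Ch X) :
    ∀ F, F ⊆ img g x (2 * e.nk.getD e.inv 0) → F.card = e.inv + 1 →
      y e.inv F = 1 → y e.inv (F.image g.a) = 1 := by
  intro F hF hcard
  rw [h] at hF
  have : F = ∅ := Finset.subset_empty.mp (by simpa [img] using hF)
  rw [this] at hcard
  simp at hcard

end Tower

end Pool.Agent.TH651.RP5
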